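import Pool.Agent.MP_ba281e_nt.sg.Spec

/-!
PROJECT SG, row ARI: arithmetic of the roots of `a n ^ 2 = u` modulo `q = s * s * r`.
-/

set_option autoImplicit false

namespace Pool.Agent.MP_ba281e_nt.SG

open Finset
open scoped Classical

namespace AriA

theorem split (q : ℕ) (x y : ℤ) (h : (q : ℤ) ∣ x * y) :
    ∃ d e : ℕ, q = d * e ∧ (d : ℤ) ∣ x ∧ (e : ℤ) ∣ y := by
  have h1 : q ∣ x.natAbs * y.natAbs := by
    rw [← Int.natAbs_mul]
    exact Int.natCast_dvd.mp h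
  obtain ⟨d, e, hd, he, hq⟩ := exists_dvd_and_dvd_of_dvd_mul h1
  exact ⟨d, e, hq, Int.natCast_dvd.mpr hd, Int.natCast_dvd.mpr he⟩

theorem unit_a (q : ℕ) (a : ℤ) (ha : IsCoprime a (q : ℤ)) :
    ∃ b : ZMod q, b * (a : ZMod q) = 1 := by
  obtain ⟨x, y, hxy⟩ := ha
  refine ⟨(x : ZMod q), ?_⟩
  have := congrArg (fun z : ℤ => (z : ZMod q)) hxy
  simpa using this

theorem sq_dvd (q : ℕ) (a : ℤ) (ha : IsCoprime a (q : ℤ)) (x y : ℤ)
    (h : (a : ZMod q) * (x : ZMod q) ^ 2 = (a : ZMod q) * (y : ZMod q) ^ 2) :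
    (q : ℤ) ∣ (x - y) * (x + y) := by
  obtain ⟨b, hb⟩ := unit_a q a ha
  rw [← ZMod.intCast_zmod_eq_zero_iff_dvd]
  push_cast
  have : (x : ZMod q) ^ 2 = (y : ZMod q) ^ 2 := by
    calc (x : ZMod q) ^ 2 = b * ((a : ZMod q) * (x : ZMod q) ^ 2) := by rw [← mul_assoc, hb, one_mul]
      _ = b * ((a : ZMod q) * (y : ZMod q) ^ 2) := by rw [h]
      _ = (y : ZMod q) ^ 2 := by rw [← mul_assoc, hb, one_mul]
  linear_combination this

theorem dvd_of_sq (g s r : ℕ) (hr : Squarefree r) (h : g * g ∣ s * s * r) : g ∣ s := by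
  rcases Nat.eq_zero_or_pos s with hs | hs
  · simp [hs]
  obtain ⟨g', hg'⟩ := Nat.gcd_dvd_left g s
  obtain ⟨s', hs'⟩ := Nat.gcd_dvd_right g s
  have hc : 0 < Nat.gcd g s := Nat.gcd_pos_of_pos_right g hs
  have hcop : Nat.Coprime g' s' := by
    have h1 := Nat.coprime_div_gcd_div_gcd (m := g) (n := s) hc
    have e1 : g / Nat.gcd g s = g' := Nat.div_eq_of_eq_mul_right hc hg'
    have e2 : s / Nat.gcd g s = s' := Nat.div_eq_of_eq_mul_right hc hs'
    rwa [e1, e2] at h1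
  set c := Nat.gcd g s with hcdef
  have h2 : (c * c) * (g' * g') ∣ (c * c) * (s' * s' * r) := by
    have e1 : (c * c) * (g' * g') = g * g := by rw [hg']; ring
    have e2 : (c * c) * (s' * s' * r) = s * s * r := by rw [hs']; ring
    rw [e1, e2]
    exact h
  have h3 : g' * g' ∣ s' * s' * r := Nat.dvd_of_mul_dvd_mul_left (Nat.mul_pos hc hc) h2
  have h4 : g' * g' ∣ r :=
    (Nat.Coprime.mul_left (hcop.mul_right hcop) (hcop.mul_right hcop)).dvd_of_dvd_mul_left h3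
  have h5 : g' = 1 := Nat.isUnit_iff.mp (hr g' h4)
  have h6 : g = c := by rw [hg', h5, mul_one]
  rw [h6]
  exact ⟨s', hs'⟩

theorem good_dvd (q : ℕ) [NeZero q] (s r D : ℕ) (a : ℤ) (hq : q = s * s * r) (n : ZMod q)
    (hn : Good ((s * r : ℕ) : ZMod q) (a : ZMod q) D n) (c : ℕ) (hc : c ∣ s)
    (h2 : (c : ℤ) ∣ 2 * (n.val : ℤ)) : c ≤ D := by
  obtain ⟨g, hg1, hgD, ν, hν⟩ := hn
  have hsr : ((s * r : ℕ) : ℤ) ≠ 0 := by
    have h0 : q ≠ 0 := NeZero.ne q
    have : s * r ≠ 0 := by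
      intro h
      apply h0
      rw [hq, mul_assoc, h, mul_zero]
    exact_mod_cast this
  have h1 : (q : ℤ) ∣ ((s * r : ℕ) : ℤ) * (2 * a * (n.val : ℤ) * (ν.val : ℤ) - g) := by
    rw [← ZMod.intCast_zmod_eq_zero_iff_dvd]
    push_cast at hν ⊢
    rw [ZMod.natCast_zmod_val, ZMod.natCast_zmod_val]
    linear_combination hν
  have h3 : (s : ℤ) ∣ 2 * a * (n.val : ℤ) * (ν.val : ℤ) - g := by
    have e : (q : ℤ) = ((s * r : ℕ) : ℤ) * s := by
      rw [hq]
      push_cast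
      ring
    rw [e] at h1
    exact (mul_dvd_mul_iff_left hsr).mp h1
  have h4 : (c : ℤ) ∣ 2 * a * (n.val : ℤ) * (ν.val : ℤ) - g :=
    (Int.natCast_dvd_natCast.mpr hc).trans h3
  have h5 : (c : ℤ) ∣ 2 * a * (n.val : ℤ) * (ν.val : ℤ) := by
    have e : 2 * a * (n.val : ℤ) * (ν.val : ℤ) = 2 * (n.val : ℤ) * (a * (ν.val : ℤ)) := by ring
    rw [e]
    exact h2.mul_right _
  have h6 : (c : ℤ) ∣ (g : ℤ) := by
    have := dvd_sub h5 h4
    simpa using this
  exact (Nat.le_of_dvd hg1 (Int.natCast_dvd_natCast.mp h6)).trans hgD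

theorem fibre (q : ℕ) [NeZero q] (d e : ℕ) (hq : q = d * e) (x y : ℤ) :
    (univ.filter fun n : ZMod q => (d : ℤ) ∣ (n.val : ℤ) - x ∧ (e : ℤ) ∣ (n.val : ℤ) + y).card ≤
      Nat.gcd d e := by
  have hL : Nat.gcd d e * Nat.lcm d e = q := by rw [Nat.gcd_mul_lcm, hq]
  have hL0 : 0 < Nat.lcm d e := by
    rcases Nat.eq_zero_or_pos (Nat.lcm d e) with h | h
    · exfalso
      apply NeZero.ne q
      rw [← hL, h, mul_zero]
    · exact h
  calc _ ≤ (range (Nat.gcd d e)).card := by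
        apply card_le_card_of_injOn (fun n : ZMod q => n.val / Nat.lcm d e)
        · intro n _
          simp only [coe_range, Set.mem_Iio]
          rw [Nat.div_lt_iff_lt_mul hL0, hL]
          exact ZMod.val_lt n
        · intro n hn m hm hnm
          simp only [coe_filter, mem_univ, true_and, Set.mem_ofPred_eq] at hn hm
          have h1 : (d : ℤ) ∣ (m.val : ℤ) - (n.val : ℤ) := by
            have := dvd_sub hm.1 hn.1
            simpa using this
          have h2 : (e : ℤ) ∣ (m.val : ℤ) - (n.val : ℤ) := by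
            have := dvd_sub hm.2 hn.2
            simpa using this
          have h3 : n.val ≡ m.val [MOD Nat.lcm d e] :=
            Nat.mod_lcm (Nat.modEq_iff_dvd.mpr h1) (Nat.modEq_iff_dvd.mpr h2)
          apply ZMod.val_injective q
          rw [← Nat.div_add_mod n.val (Nat.lcm d e), ← Nat.div_add_mod m.val (Nat.lcm d e)]
          have h4 : n.val / Nat.lcm d e = m.val / Nat.lcm d e := hnm
          have h5 : n.val % Nat.lcm d e = m.val % Nat.lcm d e := h3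
          rw [h4, h5]
    _ = Nat.gcd d e := card_range _

theorem part1 (q : ℕ) [NeZero q] (s r D : ℕ) (a : ℤ) (hq : q = s * s * r) (hr : Squarefree r)
    (ha : IsCoprime a (q : ℤ)) (u : ZMod q) :
    (rts ((s * r : ℕ) : ZMod q) (a : ZMod q) D u).card ≤ q.divisors.card * D := by
  rcases (rts ((s * r : ℕ) : ZMod q) (a : ZMod q) D u).eq_empty_or_nonempty with h | ⟨n₀, h₀⟩
  · rw [h]
    simp
  obtain ⟨hg, hu⟩ := mem_rts.mp h₀
  have hsub : rts ((s * r : ℕ) : ZMod q) (a : ZMod q) D u ⊆ q.divisors.biUnion fun d =>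
      univ.filter fun n : ZMod q => (d : ℤ) ∣ (n.val : ℤ) - (n₀.val : ℤ) ∧
        ((q / d : ℕ) : ℤ) ∣ (n.val : ℤ) + (n₀.val : ℤ) := by
    intro n hn
    obtain ⟨_, hn2⟩ := mem_rts.mp hn
    have h1 : (q : ℤ) ∣ ((n.val : ℤ) - (n₀.val : ℤ)) * ((n.val : ℤ) + (n₀.val : ℤ)) := by
      apply sq_dvd q a ha
      push_cast
      rw [ZMod.natCast_zmod_val, ZMod.natCast_zmod_val, hn2, hu]
    obtain ⟨d, e, hde, hd, he⟩ := split q _ _ h1
    have hd0 : 0 < d := by
      rcases Nat.eq_zero_or_pos d with h | h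
      · exfalso
        apply NeZero.ne q
        rw [hde, h, zero_mul]
      · exact h
    have he' : q / d = e := Nat.div_eq_of_eq_mul_right hd0 hde
    refine mem_biUnion.mpr ⟨d, Nat.mem_divisors.mpr ⟨⟨e, hde⟩, NeZero.ne q⟩, ?_⟩
    rw [he']
    exact mem_filter.mpr ⟨mem_univ _, hd, he⟩
  refine (card_le_card hsub).trans (card_biUnion_le_card_mul _ _ _ ?_)
  intro d hd
  have hde : q = d * (q / d) := (Nat.mul_div_cancel' (Nat.dvd_of_mem_divisors hd)).symm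
  rcases (univ.filter fun n : ZMod q => (d : ℤ) ∣ (n.val : ℤ) - (n₀.val : ℤ) ∧
        ((q / d : ℕ) : ℤ) ∣ (n.val : ℤ) + (n₀.val : ℤ)).eq_empty_or_nonempty with h | ⟨n, hn⟩
  · rw [h]
    simp
  refine (fibre q d (q / d) hde _ _).trans ?_
  obtain ⟨_, h1, h2⟩ := mem_filter.mp hn
  apply good_dvd q s r D a hq n₀ hg
  · apply dvd_of_sq _ s r hr
    rw [← hq]
    calc Nat.gcd d (q / d) * Nat.gcd d (q / d) ∣ d * (q / d) :=
          mul_dvd_mul (Nat.gcd_dvd_left _ _) (Nat.gcd_dvd_right _ _)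
      _ = q := hde.symm
  · have h3 := (Int.natCast_dvd_natCast.mpr (Nat.gcd_dvd_left d (q / d))).trans h1
    have h4 := (Int.natCast_dvd_natCast.mpr (Nat.gcd_dvd_right d (q / d))).trans h2
    have h5 := dvd_sub h4 h3
    have e : (n.val : ℤ) + (n₀.val : ℤ) - ((n.val : ℤ) - (n₀.val : ℤ)) = 2 * (n₀.val : ℤ) := by ring
    rwa [e] at h5

theorem mult (N d : ℕ) : ((Icc 1 N).filter fun n : ℕ => d ∣ n).card * d ≤ N := by
  have h : (Icc 1 N) = Ioc 0 N := by
    ext n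
    simp only [mem_Icc, mem_Ioc]
    omega
  have h2 := Nat.Ioc_filter_dvd_card_eq_div N d
  have h3 : ((Icc 1 N).filter fun n : ℕ => d ∣ n).card = N / d := by
    rw [h, ← h2]
  rw [h3]
  exact Nat.div_mul_le_self N d

theorem good_of (q : ℕ) [NeZero q] (s r D : ℕ) (a : ℤ) (hq : q = s * s * r)
    (ha : IsCoprime a (q : ℤ)) (n : ℕ) (h : Nat.gcd (2 * n) s ≤ D) :
    Good ((s * r : ℕ) : ZMod q) (a : ZMod q) D (n : ZMod q) := by
  have hs : 0 < s := by
    rcases Nat.eq_zero_or_pos s with h0 | h0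
    · exfalso
      apply NeZero.ne q
      rw [hq, h0, zero_mul, zero_mul]
    · exact h0
  obtain ⟨b, hb⟩ := unit_a q a ha
  refine ⟨Nat.gcd (2 * n) s, Nat.gcd_pos_of_pos_right _ hs, h,
    b * ((Nat.gcdA (2 * n) s : ℤ) : ZMod q), ?_⟩
  have h1 := congrArg (fun z : ℤ => (z : ZMod q)) (Nat.gcd_eq_gcd_ab (2 * n) s)
  have h2 : (s : ZMod q) * s * r = 0 := by
    have : ((s * s * r : ℕ) : ZMod q) = 0 := by
      rw [← hq]
      exact ZMod.natCast_self q
    push_cast at this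
    exact this
  simp only [Int.cast_natCast, Int.cast_add, Int.cast_mul] at h1
  rw [h1]
  push_cast
  linear_combination (s * r * 2 * n * ((Nat.gcdA (2 * n) s : ℤ) : ZMod q)) * hb -
    ((Nat.gcdB (2 * n) s : ℤ) : ZMod q) * h2

theorem part2 (q : ℕ) [NeZero q] (s r D : ℕ) (a : ℤ) (hq : q = s * s * r)
    (ha : IsCoprime a (q : ℤ)) (N : ℕ) :
    ((Icc 1 N).filter fun n : ℕ =>
      ¬ Good ((s * r : ℕ) : ZMod q) (a : ZMod q) D (n : ZMod q)).card * D ≤
    2 * q.divisors.card * N := by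
  have hsub : ((Icc 1 N).filter fun n : ℕ =>
      ¬ Good ((s * r : ℕ) : ZMod q) (a : ZMod q) D (n : ZMod q)) ⊆ q.divisors.biUnion fun d =>
      (Icc 1 N).filter fun n : ℕ => D ≤ d ∧ d ∣ 2 * n := by
    intro n hn
    obtain ⟨h1, h2⟩ := mem_filter.mp hn
    refine mem_biUnion.mpr ⟨Nat.gcd (2 * n) s, Nat.mem_divisors.mpr ⟨?_, NeZero.ne q⟩, ?_⟩
    · refine (Nat.gcd_dvd_right _ _).trans ⟨s * r, ?_⟩
      rw [hq, mul_assoc]
    · refine mem_filter.mpr ⟨h1, ?_, Nat.gcd_dvd_left _ _⟩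
      by_contra h3
      exact h2 (good_of q s r D a hq ha n (by omega))
  have hb : ∀ d ∈ q.divisors,
      ((Icc 1 N).filter fun n : ℕ => D ≤ d ∧ d ∣ 2 * n).card * D ≤ 2 * N := by
    intro d _
    by_cases hD : D ≤ d
    · have h1 : ((Icc 1 N).filter fun n : ℕ => D ≤ d ∧ d ∣ 2 * n).card ≤
          ((Icc 1 (2 * N)).filter fun n : ℕ => d ∣ n).card := by
        apply card_le_card_of_injOn (fun n : ℕ => 2 * n)
        · intro n hn
          simp only [coe_filter, mem_Icc, Set.mem_ofPred_eq] at hn ⊢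
          exact ⟨⟨by omega, by omega⟩, hn.2.2⟩
        · intro n _ m _ hnm
          have : 2 * n = 2 * m := hnm
          omega
      exact (Nat.mul_le_mul h1 hD).trans (mult (2 * N) d)
    · have h1 : ((Icc 1 N).filter fun n : ℕ => D ≤ d ∧ d ∣ 2 * n) = ∅ :=
        filter_eq_empty_iff.mpr fun n _ h => hD h.1
      rw [h1]
      simp
  calc _ ≤ (∑ d ∈ q.divisors, ((Icc 1 N).filter fun n : ℕ => D ≤ d ∧ d ∣ 2 * n).card) * D :=
        Nat.mul_le_mul_right D ((card_le_card hsub).trans card_biUnion_le)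
    _ = ∑ d ∈ q.divisors, ((Icc 1 N).filter fun n : ℕ => D ≤ d ∧ d ∣ 2 * n).card * D :=
        sum_mul _ _ _
    _ ≤ ∑ _d ∈ q.divisors, 2 * N := sum_le_sum hb
    _ = 2 * q.divisors.card * N := by
        rw [sum_const, smul_eq_mul]
        ring

theorem pairs (q : ℕ) [NeZero q] (N : ℕ) :
    ((Icc 1 N ×ˢ Icc 1 (2 * N)).filter fun p : ℕ × ℕ => q ∣ p.1 * p.2).card * q ≤
      q.divisors.card * (2 * N ^ 2) := by
  have hsub : ((Icc 1 N ×ˢ Icc 1 (2 * N)).filter fun p : ℕ × ℕ => q ∣ p.1 * p.2) ⊆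
      q.divisors.biUnion fun d => ((Icc 1 N).filter fun n : ℕ => d ∣ n) ×ˢ
        ((Icc 1 (2 * N)).filter fun n : ℕ => q / d ∣ n) := by
    intro p hp
    obtain ⟨h1, h2⟩ := mem_filter.mp hp
    obtain ⟨h3, h4⟩ := mem_product.mp h1
    obtain ⟨d, e, hd, he, hde⟩ := exists_dvd_and_dvd_of_dvd_mul h2
    have hd0 : 0 < d := by
      rcases Nat.eq_zero_or_pos d with h | h
      · exfalso
        apply NeZero.ne q
        rw [hde, h, zero_mul]
      · exact h
    have he' : q / d = e := Nat.div_eq_of_eq_mul_right hd0 hde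
    refine mem_biUnion.mpr ⟨d, Nat.mem_divisors.mpr ⟨⟨e, hde⟩, NeZero.ne q⟩, ?_⟩
    rw [he']
    exact mem_product.mpr ⟨mem_filter.mpr ⟨h3, hd⟩, mem_filter.mpr ⟨h4, he⟩⟩
  have hb : ∀ d ∈ q.divisors, (((Icc 1 N).filter fun n : ℕ => d ∣ n) ×ˢ
        ((Icc 1 (2 * N)).filter fun n : ℕ => q / d ∣ n)).card * q ≤ 2 * N ^ 2 := by
    intro d hd
    have hde : q = d * (q / d) := (Nat.mul_div_cancel' (Nat.dvd_of_mem_divisors hd)).symm
    have h1 := Nat.mul_le_mul (mult N d) (mult (2 * N) (q / d))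
    rw [card_product]
    generalize ((Icc 1 N).filter fun n : ℕ => d ∣ n).card = x at h1 ⊢
    generalize ((Icc 1 (2 * N)).filter fun n : ℕ => q / d ∣ n).card = y at h1 ⊢
    generalize q / d = e at hde h1
    calc x * y * q = x * d * (y * e) := by rw [hde]; ring
      _ ≤ N * (2 * N) := h1
      _ = 2 * N ^ 2 := by ring
  calc _ ≤ (∑ d ∈ q.divisors, (((Icc 1 N).filter fun n : ℕ => d ∣ n) ×ˢ
        ((Icc 1 (2 * N)).filter fun n : ℕ => q / d ∣ n)).card) * q :=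
        Nat.mul_le_mul_right q ((card_le_card hsub).trans card_biUnion_le)
    _ = ∑ d ∈ q.divisors, (((Icc 1 N).filter fun n : ℕ => d ∣ n) ×ˢ
        ((Icc 1 (2 * N)).filter fun n : ℕ => q / d ∣ n)).card * q := sum_mul _ _ _
    _ ≤ ∑ _d ∈ q.divisors, 2 * N ^ 2 := sum_le_sum hb
    _ = q.divisors.card * (2 * N ^ 2) := by rw [sum_const, smul_eq_mul]

theorem pair_mem (q : ℕ) (a : ℤ) (ha : IsCoprime a (q : ℤ)) (N n m : ℕ) (hn : n ≤ N)
    (hm : 1 ≤ m) (hmn : m < n)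
    (h : (a : ZMod q) * ((n : ℕ) : ZMod q) ^ 2 = (a : ZMod q) * ((m : ℕ) : ZMod q) ^ 2) :
    (n - m, n + m) ∈ (Icc 1 N ×ˢ Icc 1 (2 * N)).filter fun p : ℕ × ℕ => q ∣ p.1 * p.2 := by
  refine mem_filter.mpr ⟨mem_product.mpr ⟨mem_Icc.mpr ⟨?_, ?_⟩, mem_Icc.mpr ⟨?_, ?_⟩⟩, ?_⟩
  · show 1 ≤ n - m
    omega
  · show n - m ≤ N
    omega
  · show 1 ≤ n + m
    omega
  · show n + m ≤ 2 * N
    omega
  · show q ∣ (n - m) * (n + m)
    have h1 : (q : ℤ) ∣ ((n : ℤ) - (m : ℤ)) * ((n : ℤ) + (m : ℤ)) := by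
      apply sq_dvd q a ha
      push_cast
      exact h
    rw [← Int.natCast_dvd_natCast]
    push_cast [Nat.cast_sub hmn.le]
    exact h1

theorem part3 (q : ℕ) [NeZero q] (a : ℤ) (ha : IsCoprime a (q : ℤ)) (N : ℕ) :
    tw (a : ZMod q) N * q ≤ 4 * q.divisors.card * N ^ 2 := by
  have hp := pairs q N
  set P := (Icc 1 N ×ˢ Icc 1 (2 * N)).filter fun p : ℕ × ℕ => q ∣ p.1 * p.2 with hP
  have h1 : tw (a : ZMod q) N ≤ P.card + P.card := by
    unfold tw
    refine le_trans (card_le_card (t := P.image (fun p : ℕ × ℕ => (p.2 + p.1) / 2) ∪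
      P.image (fun p : ℕ × ℕ => (p.2 - p.1) / 2)) ?_) ?_
    · intro n hn
      obtain ⟨h1, m, h2, h3, h4⟩ := mem_filter.mp hn
      rw [mem_Icc] at h1 h2
      rcases lt_or_gt_of_ne h3 with h5 | h5
      · refine mem_union_left _ (mem_image.mpr ⟨(n - m, n + m),
          pair_mem q a ha N n m h1.2 h2.1 h5 h4.symm, ?_⟩)
        show (n + m + (n - m)) / 2 = n
        omega
      · refine mem_union_right _ (mem_image.mpr ⟨(m - n, m + n),
          pair_mem q a ha N m n h2.2 h1.1 h5 h4, ?_⟩)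
        show (m + n - (m - n)) / 2 = n
        omega
    · exact (card_union_le _ _).trans (Nat.add_le_add card_image_le card_image_le)
  calc tw (a : ZMod q) N * q ≤ (P.card + P.card) * q := Nat.mul_le_mul_right q h1
    _ = 2 * (P.card * q) := by ring
    _ ≤ 2 * (q.divisors.card * (2 * N ^ 2)) := Nat.mul_le_mul_left 2 hp
    _ = 4 * q.divisors.card * N ^ 2 := by ring

end AriA

theorem ari : ARIStmt := by
  intro q _ s r D a hq hr ha
  exact ⟨AriA.part1 q s r D a hq hr ha, AriA.part2 q s r D a hq ha, AriA.part3 q a ha⟩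

end Pool.Agent.MP_ba281e_nt.SG
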