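import Pool.Agent.MP_ba281e_nt.sg.Spec2

/-!
PROJECT SG, second part: calculus of the Poisson weights and the truncated expansion.
-/

set_option autoImplicit false

namespace Pool.Agent.MP_ba281e_nt.SG

open Finset Filter

namespace CalA

theorem exp_d (c : ℝ) : HasDerivAt (fun x : ℝ => Real.exp (-x)) (-Real.exp (-c)) c := by
  simpa using (hasDerivAt_neg c).exp

theorem po_zero (c : ℝ) : HasDerivAt (po 0) (-po 0 c) c := by
  have : po 0 = fun x : ℝ => Real.exp (-x) := by funext x; simp [po]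
  rw [this]; exact exp_d c

theorem po_succ (i : ℕ) (c : ℝ) : HasDerivAt (po (i + 1)) (po i c - po (i + 1) c) c := by
  have h := ((exp_d c).mul (hasDerivAt_pow (i + 1) c)).div_const ((i + 1).factorial : ℝ)
  refine h.congr_deriv ?_
  simp only [po, Nat.factorial_succ, Nat.add_sub_cancel]
  push_cast
  field_simp
  ring

theorem Qf_succ (j : ℕ) : Qf (j + 1) = fun c => Qf j c + po (j + 1) c := by
  funext c; rw [Qf, sum_range_succ]; rfl

theorem Qf_zero : Qf 0 = po 0 := by funext c; simp [Qf]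

theorem Qf_d (j : ℕ) (c : ℝ) : HasDerivAt (Qf j) (-po j c) c := by
  induction j with
  | zero => rw [Qf_zero]; exact po_zero c
  | succ j ih => rw [Qf_succ]; exact (ih.add (po_succ j c)).congr_deriv (by ring)

theorem Gf_succ (j : ℕ) : Gf (j + 1) = fun c => Gf j c + Qf (j + 1) c := by
  funext c
  rw [Gf, Gf, Qf, sum_range_succ _ (j + 1), sum_range_succ _ (j + 1), ← add_assoc,
    ← sum_add_distrib]
  congr 1
  · exact sum_congr rfl fun i _ => by push_cast; ring
  · push_cast; ring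

theorem Gf_d (j : ℕ) (c : ℝ) : HasDerivAt (Gf j) (-Qf j c) c := by
  induction j with
  | zero =>
    have : Gf 0 = po 0 := by funext c; simp [Gf]
    rw [this, Qf_zero]; exact po_zero c
  | succ j ih =>
    rw [Gf_succ]
    exact (ih.add (Qf_d (j + 1) c)).congr_deriv (by rw [Qf_succ]; ring)

theorem po_nonneg (i : ℕ) {c : ℝ} (hc : 0 ≤ c) : 0 ≤ po i c := by unfold po; positivity

theorem po_le (i : ℕ) {c : ℝ} (hc : 0 ≤ c) : po i c ≤ 1 := by
  have h := Real.pow_div_factorial_le_exp c hc i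
  have h2 : Real.exp (-c) * Real.exp c = 1 := by rw [← Real.exp_add]; simp
  rw [po, mul_div_assoc, ← h2]
  exact mul_le_mul_of_nonneg_left h (Real.exp_pos _).le

theorem mvt {f g : ℝ → ℝ} (h : ∀ c, HasDerivAt f (-g c) c) {u v lo hi : ℝ} (huv : u ≤ v)
    (hb : ∀ c, u ≤ c → c ≤ v → lo ≤ g c ∧ g c ≤ hi) :
    (v - u) * lo ≤ f u - f v ∧ f u - f v ≤ (v - u) * hi := by
  rcases huv.eq_or_lt with rfl | hlt
  · simp
  obtain ⟨c, hc, e⟩ := exists_hasDerivAt_eq_slope f (fun c => -g c) hlt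
    (fun c _ => (h c).continuousAt.continuousWithinAt) fun c _ => h c
  have h0 : 0 < v - u := sub_pos.2 hlt
  rw [eq_div_iff h0.ne'] at e
  obtain ⟨h1, h2⟩ := hb c hc.1.le hc.2.le
  constructor <;> nlinarith

theorem Qf_bd (j : ℕ) {u v : ℝ} (hu : 0 ≤ u) (huv : u ≤ v) :
    Qf j v ≤ Qf j u ∧ Qf j u - Qf j v ≤ v - u := by
  obtain ⟨h1, h2⟩ := mvt (Qf_d j) huv (lo := 0) (hi := 1) fun c hc _ =>
    ⟨po_nonneg j (hu.trans hc), po_le j (hu.trans hc)⟩
  constructor <;> linarith

theorem tail {c : ℝ} {K : ℕ} (c0 : 0 < c) (h5 : 2 * c ≤ K) :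
    |Real.exp (-c) - ∑ k ∈ range (K + 1), (-1) ^ k * (c ^ k / k.factorial)| ≤
      c ^ K / K.factorial := by
  have hn : ‖((-c : ℝ) : ℂ)‖ = c := by rw [Complex.norm_real, norm_neg, Real.norm_of_nonneg c0.le]
  have h6 := Complex.exp_bound' (x := ((-c : ℝ) : ℂ)) (n := K + 1) (by
    rw [hn, div_le_iff₀ (by positivity)]; push_cast; linarith)
  have e : Complex.exp ((-c : ℝ) : ℂ) - ∑ m ∈ range (K + 1), ((-c : ℝ) : ℂ) ^ m / m.factorial =
      ((Real.exp (-c) - ∑ k ∈ range (K + 1), (-1) ^ k * (c ^ k / k.factorial) : ℝ) : ℂ) := by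
    push_cast
    congr 1
    exact sum_congr rfl fun k _ => by rw [neg_pow]; ring
  rw [e, Complex.norm_real, Real.norm_eq_abs, hn] at h6
  refine h6.trans ?_
  rw [Nat.factorial_succ, pow_succ]
  push_cast
  have h7 : 0 < c ^ K / K.factorial := by positivity
  calc c ^ K * c / ((K + 1) * K.factorial) * 2 = c ^ K / K.factorial * (2 * c / (K + 1)) := by
        field_simp
    _ ≤ _ := mul_le_of_le_one_right h7.le (by rw [div_le_one (by positivity)]; linarith)

theorem reindex (c : ℝ) (i M : ℕ) :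
    ∑ k ∈ range (i + M + 1), (-1) ^ (k + i) * (k.choose i : ℝ) * (c ^ k / k.factorial) =
      c ^ i / i.factorial * ∑ m ∈ range (M + 1), (-1) ^ m * (c ^ m / m.factorial) := by
  rw [add_assoc, sum_range_add, sum_eq_zero fun k hk => by
    rw [Nat.choose_eq_zero_of_lt (mem_range.1 hk)]; simp, zero_add, mul_sum]
  refine sum_congr rfl fun m _ => ?_
  have h : ((i + m).factorial : ℝ) = (i + m).choose i * m.factorial * i.factorial := by
    rw [add_comm i m]; exact_mod_cast (Nat.add_choose_mul_factorial_mul_factorial m i).symm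
  have h0 : ((i + m).choose i : ℝ) ≠ 0 := by
    exact_mod_cast (Nat.choose_pos (Nat.le_add_right i m)).ne'
  have h1 : (-1 : ℝ) ^ (i + m + i) = (-1) ^ m := by
    rw [show i + m + i = 2 * i + m by ring, pow_add, pow_mul]; simp
  rw [h, h1, pow_add]
  field_simp

end CalA

open CalA in
theorem cal : CALStmt := by
  intro j
  refine ⟨?_, fun u v hu huv => ⟨sum_nonneg fun i _ => po_nonneg i (hu.trans huv),
    (Qf_bd j hu huv).1, (Qf_bd j hu huv).2, ?_⟩⟩
  · rw [Qf, sum_range_succ', sum_eq_zero fun i _ => by simp [po]]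
    simp [po]
  · exact mvt (Gf_d j) huv fun c h1 h2 => ⟨(Qf_bd j (hu.trans h1) h2).1, (Qf_bd j hu h1).1⟩

open CalA in
theorem tru : TRUStmt := by
  intro J θ C hθ
  have hθ' : 0 < θ / Real.exp C := by positivity
  obtain ⟨M₀, hM⟩ := eventually_atTop.1
    (((FloorSemiring.tendsto_pow_div_factorial_atTop C).eventually (ge_mem_nhds hθ')).and
      (eventually_ge_atTop ⌈2 * C⌉₊))
  obtain ⟨K, h2, h3⟩ := (((FloorSemiring.tendsto_pow_div_factorial_atTop (2 * C)).eventually
    (ge_mem_nhds hθ)).and (eventually_ge_atTop (J + M₀))).exists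
  refine ⟨K, by omega, fun c c0 c1 => ⟨le_trans ?_ h2, fun i hi => ?_⟩⟩
  · rw [← mul_div_assoc, ← mul_pow]; gcongr
  · obtain ⟨M, rfl⟩ : ∃ M, K = i + M := ⟨K - i, by omega⟩
    obtain ⟨h4, h5⟩ := hM M (by omega)
    have h6 : 2 * C ≤ M := Nat.ceil_le.1 h5
    have h7 : c ^ i / i.factorial ≤ Real.exp C :=
      (Real.pow_div_factorial_le_exp c c0.le i).trans (Real.exp_le_exp.2 c1)
    have h8 : c ^ M / M.factorial ≤ θ / Real.exp C := le_trans (by gcongr) h4
    rw [reindex, po, mul_div_assoc, mul_comm (Real.exp (-c)), ← mul_sub, abs_mul,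
      abs_of_nonneg (by positivity)]
    calc _ ≤ Real.exp C * (θ / Real.exp C) :=
          mul_le_mul h7 ((tail c0 (by linarith)).trans h8) (abs_nonneg _) (Real.exp_pos _).le
      _ = θ := by field_simp

end Pool.Agent.MP_ba281e_nt.SG
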