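import Pool.Agent.MP_ba281e_nt.sg.Spec

/-!
Elimination of square roots, and roots of an integer polynomial modulo a large number.
-/

set_option autoImplicit false

namespace Pool.Agent.MP_ba281e_nt.SG

open Finset Polynomial
open scoped Classical

namespace ElimA

section
variable {ι : Type} [Fintype ι]

/-- one factor -/
noncomputable def G (ξ : ι → ℤ) (ε : ι → ℤˣ) : MvPolynomial ι ℤ :=
  ∑ i, MvPolynomial.C ((ε i : ℤ) * ξ i) * ∏ j ∈ univ.erase i, MvPolynomial.X j

/-- the sign change at one variable -/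
noncomputable def sg (l j : ι) : ℤ := if j = l then -1 else 1

noncomputable def flip (l : ι) : MvPolynomial ι ℤ →ₐ[ℤ] MvPolynomial ι ℤ :=
  MvPolynomial.aeval fun j => MvPolynomial.C (sg l j) * MvPolynomial.X j

theorem prod_sg (l : ι) (m : ι →₀ ℕ) : ∏ j, sg l j ^ m j = (-1) ^ m l := by
  rw [Finset.prod_eq_single l]
  · simp [sg]
  · intro j _ hj
    simp [sg, hj]
  · simp

theorem flip_monomial (l : ι) (m : ι →₀ ℕ) (a : ℤ) :
    flip l (MvPolynomial.monomial m a) = MvPolynomial.monomial m ((-1) ^ m l * a) := by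
  rw [flip, MvPolynomial.aeval_monomial, MvPolynomial.monomial_eq,
    Finsupp.prod_fintype _ _ (by simp), Finsupp.prod_fintype _ _ (by simp), ← prod_sg]
  simp only [mul_pow, Finset.prod_mul_distrib, map_mul, map_prod, map_pow,
    MvPolynomial.algebraMap_eq]
  ring

theorem coeff_flip (l : ι) (m : ι →₀ ℕ) (p : MvPolynomial ι ℤ) :
    MvPolynomial.coeff m (flip l p) = (-1) ^ m l * MvPolynomial.coeff m p := by
  induction p using MvPolynomial.induction_on' with
  | monomial u a =>
    rw [flip_monomial, MvPolynomial.coeff_monomial, MvPolynomial.coeff_monomial]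
    split_ifs with h
    · rw [h]
    · simp
  | add p q hp hq => rw [map_add, MvPolynomial.coeff_add, MvPolynomial.coeff_add, hp, hq, mul_add]

theorem prod_sg_erase (l i : ι) : ∏ j ∈ univ.erase i, sg l j = - sg l i := by
  by_cases h : i = l
  · subst h
    rw [Finset.prod_eq_one]
    · simp [sg]
    · intro j hj
      simp [sg, (mem_erase.1 hj).1]
  · rw [Finset.prod_eq_single l]
    · simp [sg, h]
    · intro j _ hj
      simp [sg, hj]
    · intro hl
      exact absurd (mem_erase.2 ⟨fun e => h e.symm, mem_univ _⟩) hl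

/-- change of one sign -/
noncomputable def neg (l : ι) (ε : ι → ℤˣ) : ι → ℤˣ := fun j => if j = l then - ε j else ε j

omit [Fintype ι] in
theorem neg_neg' (l : ι) (ε : ι → ℤˣ) : neg l (neg l ε) = ε := by
  funext j
  by_cases h : j = l <;> simp [neg, h]

omit [Fintype ι] in
theorem neg_val (l : ι) (ε : ι → ℤˣ) (i : ι) : (neg l ε i : ℤ) = sg l i * ε i := by
  by_cases h : i = l <;> simp [neg, sg, h]

theorem flip_G (ξ : ι → ℤ) (l : ι) (ε : ι → ℤˣ) : flip l (G ξ ε) = - G ξ (neg l ε) := by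
  rw [G, G, map_sum, ← Finset.sum_neg_distrib]
  refine Finset.sum_congr rfl fun i _ => ?_
  rw [map_mul, map_prod, neg_val]
  simp only [flip, MvPolynomial.aeval_C, MvPolynomial.aeval_X, Finset.prod_mul_distrib,
    MvPolynomial.algebraMap_eq]
  rw [← map_prod, prod_sg_erase]
  simp only [map_mul, map_neg]
  ring

theorem card_sign : Fintype.card (ι → ℤˣ) = 2 ^ Fintype.card ι := by
  rw [Fintype.card_fun, Fintype.card_units_int]

theorem flip_F (ξ : ι → ℤ) (l : ι) : flip l (∏ ε, G ξ ε) = ∏ ε, G ξ ε := by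
  rw [map_prod]
  simp only [flip_G]
  rw [Finset.prod_neg, card_univ, card_sign]
  have hk : Fintype.card ι ≠ 0 := by
    have : Nonempty ι := ⟨l⟩
    exact Fintype.card_ne_zero
  rw [Even.neg_one_pow (Nat.even_pow.2 ⟨even_two, hk⟩), one_mul]
  exact Equiv.prod_comp (Function.Involutive.toPerm (neg l) (neg_neg' l)) (G ξ)

theorem even_of_mem (ξ : ι → ℤ) {m : ι →₀ ℕ} (hm : m ∈ (∏ ε, G ξ ε).support) (l : ι) :
    Even (m l) := by
  by_contra h
  have h1 := coeff_flip l m (∏ ε, G ξ ε)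
  rw [flip_F, Odd.neg_one_pow (Nat.not_even_iff_odd.1 h)] at h1
  exact MvPolynomial.mem_support_iff.1 hm (by linarith)

theorem deg_G (ξ : ι → ℤ) (ε : ι → ℤˣ) : (G ξ ε).totalDegree ≤ Fintype.card ι := by
  refine MvPolynomial.totalDegree_finsetSum_le fun i _ => ?_
  refine (MvPolynomial.totalDegree_mul _ _).trans ?_
  rw [MvPolynomial.totalDegree_C, zero_add]
  refine (MvPolynomial.totalDegree_finsetProd _ _).trans ?_
  simp only [MvPolynomial.totalDegree_X, sum_const, smul_eq_mul, mul_one]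
  exact card_le_univ _

theorem deg_F (ξ : ι → ℤ) :
    (∏ ε, G ξ ε).totalDegree ≤ 2 ^ Fintype.card ι * Fintype.card ι := by
  refine (MvPolynomial.totalDegree_finsetProd _ _).trans ?_
  refine (Finset.sum_le_sum fun ε _ => deg_G ξ ε).trans ?_
  rw [sum_const, card_univ, card_sign, smul_eq_mul]

end

theorem key (s : ℤ) (L : ℕ) (hL : 1 ≤ L) : ∀ (d : ℕ) (P : ℤ[X]) (S : Finset ℤ), P.natDegree ≤ d →
    S.card = d + 1 → (∀ a ∈ S, ∀ b ∈ S, |a - b| ≤ L) → (∀ T ∈ S, s ∣ P.eval T) →
    ∃ V : ℤ, V ≠ 0 ∧ |V| ≤ (L : ℤ) ^ (d ^ 2) ∧ ∀ z, s ∣ V * P.eval z := by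
  intro d
  induction d with
  | zero =>
    intro P S hP hS _ hs
    obtain ⟨T, rfl⟩ := card_eq_one.1 hS
    refine ⟨1, one_ne_zero, by simp, fun z => ?_⟩
    have := hs T (mem_singleton_self T)
    rw [eq_C_of_natDegree_le_zero hP] at this ⊢
    simpa using this
  | succ d ih =>
    intro P S hP hS hd hs
    obtain ⟨T₀, hT₀⟩ : S.Nonempty := card_pos.1 (by omega)
    have hdec : ∀ z, P.eval z = P.eval T₀ + (z - T₀) * (P /ₘ (X - C T₀)).eval z := fun z => by
      conv_lhs => rw [← modByMonic_add_div P (X - C T₀), modByMonic_X_sub_C_eq_C_eval]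
      simp
    have hdeg : (P /ₘ (X - C T₀)).natDegree ≤ d := by
      rw [natDegree_divByMonic P (monic_X_sub_C T₀), natDegree_X_sub_C]
      omega
    have hc : (S.erase T₀).card = d + 1 := by rw [card_erase_of_mem hT₀]; omega
    obtain ⟨V, hV0, hV, hz⟩ := ih (C (∏ T ∈ S.erase T₀, (T - T₀)) * (P /ₘ (X - C T₀))) (S.erase T₀)
      ((natDegree_C_mul_le _ _).trans hdeg) hc
      (fun a ha b hb => hd a (mem_of_mem_erase ha) b (mem_of_mem_erase hb)) (fun T hT => by
        rw [eval_mul, eval_C]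
        have h1 : s ∣ (T - T₀) * (P /ₘ (X - C T₀)).eval T := by
          have := dvd_sub (hs T (mem_of_mem_erase hT)) (hs T₀ hT₀)
          rwa [hdec T, add_sub_cancel_left] at this
        exact h1.trans (mul_dvd_mul_right (dvd_prod_of_mem _ hT) _))
    have hL' : (1 : ℤ) ≤ L := by exact_mod_cast hL
    refine ⟨V * ∏ T ∈ S.erase T₀, (T - T₀), mul_ne_zero hV0 ?_, ?_, fun z => ?_⟩
    · exact prod_ne_zero_iff.2 fun T hT => sub_ne_zero.2 (mem_erase.1 hT).1
    · have h1 : |∏ T ∈ S.erase T₀, (T - T₀)| ≤ (L : ℤ) ^ (d + 1) := by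
        rw [abs_prod, ← hc, ← prod_const]
        exact prod_le_prod (fun _ _ => abs_nonneg _) fun T hT => hd T (mem_of_mem_erase hT) T₀ hT₀
      rw [abs_mul]
      refine (mul_le_mul hV h1 (abs_nonneg _) (by positivity)).trans ?_
      rw [← pow_add]
      exact pow_le_pow_right₀ hL' (by nlinarith)
    · have h1 := hz z
      rw [eval_mul, eval_C] at h1
      rw [hdec z, mul_add]
      refine dvd_add (Dvd.dvd.mul_left (hs T₀ hT₀) _) ?_
      refine h1.trans ⟨z - T₀, by ring⟩

end ElimA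

open ElimA in
theorem elim : ELIMStmt := by
  intro ι _ ξ b hb
  refine ⟨∑ m ∈ (∏ ε, G ξ ε).support, C (MvPolynomial.coeff m (∏ ε, G ξ ε)) *
    ∏ i, b i ^ (m i / 2), ?_, fun A _ t z hz => ?_⟩
  · refine natDegree_sum_le_of_forall_le _ _ fun m hm => (natDegree_C_mul_le _ _).trans ?_
    refine (natDegree_prod_le _ _).trans (le_trans ?_ (deg_F ξ))
    refine le_trans ?_ (MvPolynomial.le_totalDegree hm)
    rw [Finsupp.sum_fintype _ _ (by simp)]
    refine Finset.sum_le_sum fun i _ => natDegree_pow_le.trans ?_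
    exact (Nat.mul_le_mul_left _ (hb i)).trans (Nat.div_mul_le_self _ _)
  · have h1 : MvPolynomial.aeval z (∏ ε, G ξ ε) =
        ∏ ε : ι → ℤˣ, ∑ i, (((ε i : ℤ) * ξ i : ℤ) : A) * ∏ j ∈ univ.erase i, z j := by
      simp only [G, map_prod, map_sum, map_mul, MvPolynomial.aeval_X,
        eq_intCast, map_intCast, Int.cast_mul]
    rw [← h1, MvPolynomial.aeval_def, MvPolynomial.eval₂_eq', map_sum]
    refine Finset.sum_congr rfl fun m hm => ?_
    rw [map_mul, aeval_C, map_prod]
    congr 1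
    refine Finset.prod_congr rfl fun i _ => ?_
    rw [map_pow, ← hz, ← pow_mul, Nat.two_mul_div_two_of_even (even_of_mem ξ hm i)]

open ElimA in
theorem root : ROOTStmt := by
  intro P d s L Q z hP hz hL hs
  have := Finset.card_le_mul_card_image_of_maps_to (f := fun T : ℕ => T / L)
    (s := (range Q).filter fun T : ℕ => (s : ℤ) ∣ P.eval (T : ℤ)) (t := range (Q / L + 1))
    (fun T hT => mem_range.2 (Nat.lt_succ_of_le
      (Nat.div_le_div_right (mem_range.1 (mem_filter.1 hT).1).le))) d (fun u _ => ?_)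
  · rwa [card_range] at this
  by_contra hlt
  obtain ⟨S, hS, hc⟩ := Finset.exists_subset_card_eq (Nat.succ_le_of_lt (not_le.1 hlt))
  obtain ⟨V, hV0, hV, hd⟩ := key (s : ℤ) L hL d P (S.image fun T : ℕ => (T : ℤ)) hP
    (by rw [card_image_of_injective _ Nat.cast_injective, hc]) (fun a' ha' b' hb' => by
      obtain ⟨a, ha, rfl⟩ := mem_image.1 ha'
      obtain ⟨b, hb, rfl⟩ := mem_image.1 hb'
      have e1 : a / L = u := (mem_filter.1 (hS ha)).2
      have e2 : b / L = u := (mem_filter.1 (hS hb)).2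
      have h1 := Nat.div_add_mod a L
      have h2 := Nat.div_add_mod b L
      have h3 := Nat.mod_lt a (show 0 < L by omega)
      have h4 := Nat.mod_lt b (show 0 < L by omega)
      rw [e1] at h1
      rw [e2] at h2
      generalize L * u = w at h1 h2
      rw [abs_le]
      constructor <;> omega) (fun T hT => by
      obtain ⟨a, ha, rfl⟩ := mem_image.1 hT
      exact (mem_filter.1 (mem_filter.1 (hS ha)).1).2)
  have h1 : (s : ℤ) ≤ |V * P.eval z| :=
    Int.le_of_dvd (abs_pos.2 (mul_ne_zero hV0 hz)) ((dvd_abs _ _).2 (hd z))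
  rw [abs_mul, mul_comm] at h1
  exact absurd (h1.trans (mul_le_mul_of_nonneg_left hV (abs_nonneg _))) (not_le.2 hs)

end Pool.Agent.MP_ba281e_nt.SG
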