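import Pool.Agent.MP_ba281e_nt.sg.Spec

/-!
From empty windows to gaps; choice of the parameters; the diagonal sequence.
-/

set_option autoImplicit false

namespace Pool.Agent.MP_ba281e_nt.SG

open Finset Filter Topology
open scoped Classical

namespace FinA

theorem tau_pow {k : ℕ} (hk : k ≠ 0) (n : ℕ) : n.divisors.card ^ k ≤ (k ^ k) ^ 2 ^ k * n := by
  rcases eq_or_ne n 0 with rfl | hn
  · simp [hk]
  have h0 : ∀ e : ℕ, (e + 1) ^ k ≤ k ^ k * 2 ^ e := fun e => by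
    have h1 : e + 1 ≤ k * (e / k + 1) := Nat.lt_mul_div_succ e (by omega)
    have h2 : e / k + 1 ≤ 2 ^ (e / k) := Nat.lt_two_pow_self
    refine (Nat.pow_le_pow_left (h1.trans (Nat.mul_le_mul_left _ h2)) k).trans ?_
    rw [mul_pow, ← pow_mul]
    exact Nat.mul_le_mul_left _ (Nat.pow_le_pow_right two_pos (Nat.div_mul_le_self _ _))
  rw [Nat.card_divisors hn, ← prod_pow]
  have h1 : ∀ p ∈ n.primeFactors, (n.factorization p + 1) ^ k
      ≤ (if p < 2 ^ k then k ^ k else 1) * p ^ n.factorization p := by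
    intro p hp
    have hp2 : 2 ≤ p := (Nat.prime_of_mem_primeFactors hp).two_le
    split_ifs with h
    · exact (h0 _).trans (Nat.mul_le_mul_left _ (Nat.pow_le_pow_left hp2 _))
    · have h2 : n.factorization p + 1 ≤ 2 ^ n.factorization p := Nat.lt_two_pow_self
      refine (Nat.pow_le_pow_left h2 k).trans ?_
      rw [← pow_mul, mul_comm, pow_mul, one_mul]
      exact Nat.pow_le_pow_left (by omega) _
  refine (prod_le_prod' h1).trans ?_
  rw [prod_mul_distrib, show ∏ p ∈ n.primeFactors, p ^ n.factorization p = n from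
    Nat.prod_factorization_pow_eq_self hn, prod_ite, prod_const_one, mul_one, prod_const]
  refine Nat.mul_le_mul_right _ (Nat.pow_le_pow_right (by positivity) ?_)
  exact (card_le_card fun p hp => mem_range.2 (mem_filter.1 hp).2).trans (card_range _).le

theorem divisor_bound {η : ℝ} (hη : 0 < η) :
    ∃ C : ℝ, 1 ≤ C ∧ ∀ n : ℕ, 1 ≤ n → (n.divisors.card : ℝ) ≤ C * (n : ℝ) ^ η := by
  obtain ⟨k, hk⟩ := exists_nat_gt (1 / η)
  have hkp : (0 : ℝ) < k := lt_trans (by positivity) hk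
  have hk0 : k ≠ 0 := by rintro rfl; simp at hkp
  have hA : (1 : ℝ) ≤ ((k ^ k) ^ 2 ^ k : ℕ) := by
    exact_mod_cast Nat.one_le_iff_ne_zero.2 (by positivity)
  refine ⟨_, hA, fun n hn => ?_⟩
  have hn1 : (1 : ℝ) ≤ n := by exact_mod_cast hn
  have h1 : (n.divisors.card : ℝ) ^ k ≤ ((k ^ k) ^ 2 ^ k : ℕ) * n := by
    exact_mod_cast tau_pow hk0 n
  refine le_of_pow_le_pow_left₀ hk0 (by positivity) (h1.trans ?_)
  rw [mul_pow]
  refine mul_le_mul (le_self_pow₀ hA hk0) ?_ (by positivity) (by positivity)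
  rw [← Real.rpow_natCast, ← Real.rpow_mul (by positivity)]
  refine (Real.rpow_one _).ge.trans (Real.rpow_le_rpow_of_exponent_le hn1 ?_)
  rw [div_lt_iff₀ hη] at hk; linarith

theorem dvd_sq {s t r : ℕ} (ht : t ≠ 0) (hr : Squarefree r) (h : s ^ 2 ∣ t ^ 2 * r) : s ∣ t := by
  obtain ⟨u, v, h1, h2, h3⟩ := Nat.exists_coprime s t
  have g0 : 0 < s.gcd t := Nat.gcd_pos_of_pos_right _ (Nat.pos_of_ne_zero ht)
  generalize s.gcd t = g at *
  subst h2 h3
  have h4 : u ^ 2 ∣ v ^ 2 * r := Nat.dvd_of_mul_dvd_mul_right (pow_pos g0 2)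
    (by rw [← mul_pow, mul_right_comm, ← mul_pow]; exact h)
  have h5 := hr u (by rw [← sq]; exact (h1.pow 2 2).dvd_of_dvd_mul_left h4)
  rw [Nat.isUnit_iff.1 h5, one_mul]
  exact dvd_mul_left _ _

theorem params {α η : ℝ} (hη : 0 < η)
    (h : ∀ ε : ℝ, 0 < ε → ∀ Q : ℕ, ∃ (a : ℤ) (q s : ℕ), Q ≤ q ∧ Int.gcd a q = 1 ∧ s ^ 2 ∣ q ∧
      (q : ℝ) ^ η ≤ s ∧ |α - a / q| ≤ (q : ℝ) ^ (-3 + ε)) {A B : ℕ} (hA : 2 ≤ A) (hB : A + 2 ≤ B)
    (x₁ : ℕ) : ∃ (x q s r N : ℕ) (a : ℤ), x₁ ≤ x ∧ q ≠ 0 ∧ Par A B x q s r N a ∧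
      (N : ℝ) ^ 2 * |α - a / q| * q < 1 := by
  have B0 : (0 : ℝ) < B := by exact_mod_cast (by omega : 0 < B)
  set κ := η / B / 2 with hκ
  have κ0 : 0 < κ := by positivity
  obtain ⟨C, C1, hC⟩ := divisor_bound κ0
  obtain ⟨Q, hQ⟩ := eventually_atTop.1 (((tendsto_rpow_atTop κ0).comp
    tendsto_natCast_atTop_atTop).eventually (eventually_ge_atTop (2 * C + x₁ + 2)))
  obtain ⟨a, q, s, h1, h2, h3, h4, h5⟩ := h (κ * 2) (by positivity) (Q + 1)
  have hw : 2 * C + x₁ + 2 ≤ (q : ℝ) ^ κ := hQ q (by omega)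
  have q0 : (0 : ℝ) < q := by exact_mod_cast (by omega : 0 < q)
  have e1 : (q : ℝ) ^ (κ * 2) = ((q : ℝ) ^ κ) ^ 2 := by
    rw [Real.rpow_mul q0.le]; norm_cast
  have e2 : (((q : ℝ) ^ κ) ^ 2) ^ B = (q : ℝ) ^ η := by
    rw [← e1, ← Real.rpow_natCast, ← Real.rpow_mul q0.le]
    congr 1; rw [hκ]; field_simp
  have hτ := hC q (by omega)
  rw [Real.rpow_add q0, e1, Real.rpow_neg q0.le,
    show (3 : ℝ) = ((3 : ℕ) : ℝ) by norm_num, Real.rpow_natCast] at h5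
  set w := (q : ℝ) ^ κ
  have x0 : (0 : ℝ) ≤ x₁ := by positivity
  obtain ⟨r, s', h6, h7⟩ := Nat.sq_mul_squarefree q
  have s0 : s' ≠ 0 := by rintro rfl; omega
  have h8 : s ≤ s' := Nat.le_of_dvd (Nat.pos_of_ne_zero s0)
    (dvd_sq s0 h7 (h6 ▸ h3))
  set x := ⌊w ^ 2⌋₊ with hx
  have a1 : (x : ℝ) ≤ w ^ 2 := Nat.floor_le (by positivity)
  have a2 : w ^ 2 < x + 1 := Nat.lt_floor_add_one _
  have a3 : (x₁ : ℝ) + 2 ≤ x := by nlinarith
  refine ⟨x, q, s', r, q / x ^ A, a, by exact_mod_cast (by linarith : (x₁ : ℝ) ≤ x), by omega,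
    ⟨by rw [← h6]; ring, h7, Int.isCoprime_iff_gcd_eq_one.2 h2, ?_, ?_, rfl⟩, ?_⟩
  · have : (q.divisors.card : ℝ) ≤ x := by nlinarith
    exact_mod_cast this
  · have : (x : ℝ) ^ B ≤ s := (pow_le_pow_left₀ (by positivity) a1 B).trans (e2 ▸ h4)
    exact le_trans (by exact_mod_cast this) h8
  · have b1 : ((q / x ^ A : ℕ) : ℝ) * x ^ A ≤ q := by exact_mod_cast Nat.div_mul_le_self q (x ^ A)
    have b2 : (x : ℝ) ^ 2 ≤ x ^ A := pow_le_pow_right₀ (by linarith) hA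
    set N : ℝ := ((q / x ^ A : ℕ) : ℝ)
    have N0 : 0 ≤ N := by positivity
    have b3 : N * x ^ 2 ≤ q := le_trans (by gcongr) b1
    have b4 : (N * x ^ 2) ^ 2 ≤ q ^ 2 := by gcongr
    have b5 : w ^ 2 < (x ^ 2) ^ 2 := by nlinarith [sq_nonneg ((x : ℝ) ^ 2 - x)]
    calc N ^ 2 * |α - a / q| * q ≤ N ^ 2 * (((q : ℝ) ^ 3)⁻¹ * w ^ 2) * q := by gcongr
      _ = N ^ 2 * w ^ 2 / q ^ 2 := by field_simp
      _ < 1 := by
          rw [div_lt_one (by positivity)]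
          rcases N0.eq_or_lt with h0 | h0
          · rw [← h0]; simpa using pow_pos q0 2
          · calc N ^ 2 * w ^ 2 < N ^ 2 * (x ^ 2) ^ 2 := by gcongr
              _ ≤ _ := by rwa [← mul_pow]

theorem ex1 {u v : ℝ} : Real.exp (-u) - Real.exp (-v) ≤ (v - u) * Real.exp (-u) := by
  have h := Real.add_one_le_exp (u - v)
  have e : Real.exp (-v) = Real.exp (u - v) * Real.exp (-u) := by rw [← Real.exp_add]; ring_nf
  nlinarith [Real.exp_pos (-u)]

theorem ex2 {u v : ℝ} (hu : 0 ≤ u) (h : u ≤ v) : Real.exp (-u) - Real.exp (-v) ≤ v - u :=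
  ex1.trans (mul_le_of_le_one_right (by linarith) (Real.exp_le_one_iff.2 (by linarith)))

theorem gap_le (α : ℝ) (N : ℕ) (σ : ℝ) : gapCount α N σ ≤ N := by
  refine (card_le_card (t := Icc 1 N) fun n hn => ?_).trans (by simp)
  simp only [mem_filter] at hn
  exact hn.1

theorem gap_anti (α : ℝ) (N : ℕ) {σ σ' : ℝ} (h : σ ≤ σ') : gapCount α N σ' ≤ gapCount α N σ := by
  refine card_le_card fun n hn => ?_
  simp only [mem_filter] at hn ⊢
  exact ⟨hn.1, fun m a b => lt_of_le_of_lt (by gcongr) (hn.2 m a b)⟩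

theorem one (hA : ARIStmt) (hV : VOIDStmt) (hT : TRANSStmt) {d : ℝ} (C : ℝ) (d0 : 0 < d)
    (d1 : d ≤ 1) : ∃ A B : ℕ, 2 ≤ A ∧ A + 2 ≤ B ∧ ∀ σ : ℝ, 0 < σ → σ ≤ C → ∃ x₀ : ℕ,
      ∀ (x q s r N : ℕ) (a : ℤ) (α : ℝ), x₀ ≤ x → q ≠ 0 → Par A B x q s r N a →
        (N : ℝ) ^ 2 * |α - a / q| * q < 1 →
        x ≤ N ∧ |(gapCount α N σ : ℝ) / N - Real.exp (-σ)| ≤ 7 * d := by
  obtain ⟨A, B, A2, hB, H⟩ := hV (d ^ 2) (C + 1) (by positivity)
  have H' : ∀ c : ℝ, ∃ x₀ : ℕ, 0 < c → c ≤ C + 1 → ∀ (x q : ℕ) [NeZero q] (s r N : ℕ) (a : ℤ),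
      x₀ ≤ x → 1 ≤ N → (N : ℝ) * x ≤ q → Par A B x q s r N a →
      |(vd (a : ZMod q) N ⌈c * q / N⌉₊ : ℝ) / q - Real.exp (-c)| ≤ d ^ 2 := by
    intro c
    by_cases hc : 0 < c ∧ c ≤ C + 1
    · obtain ⟨x₀, δ, δ0, h⟩ := H c hc.1 hc.2
      refine ⟨x₀ + ⌈1 / δ⌉₊, fun c0 _ x q _ s r N a h1 h2 h3 P => h x q s r N _ a (by omega) P ?_⟩
      have hq : (0 : ℝ) < q := by exact_mod_cast Nat.pos_of_ne_zero (NeZero.ne q)
      have N0 : (0 : ℝ) < N := by exact_mod_cast h2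
      have b1 := Nat.le_ceil (c * q / N)
      have b2 := (Nat.ceil_lt_add_one (show 0 ≤ c * q / N by positivity)).le
      have b3 : 1 / δ ≤ x := Nat.ceil_le.1 (by omega)
      rw [div_le_iff₀ N0] at b1
      rw [← sub_le_iff_le_add, le_div_iff₀ N0] at b2
      rw [div_le_iff₀ δ0] at b3
      rw [abs_le, le_sub_iff_add_le, sub_le_iff_le_add, le_div_iff₀ hq, div_le_iff₀ hq]
      constructor <;> nlinarith [mul_pos δ0 hq, mul_le_mul_of_nonneg_left b3 N0.le,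
        mul_le_mul_of_nonneg_right h3 δ0.le]
    · exact ⟨0, fun a b => absurd ⟨a, b⟩ hc⟩
  choose X hX using H'
  refine ⟨A, B, A2, hB, fun σ σ0 σ1 => ⟨X σ + X (σ + d) + X (σ - 2 * d) + X (σ - d) +
    ⌈4 / d ^ 2⌉₊ + ⌈σ⌉₊ + 1, fun x q s r N a α hx q0 P hβ => ?_⟩⟩
  have : NeZero q := ⟨q0⟩
  have hq : (0 : ℝ) < q := by exact_mod_cast Nat.pos_of_ne_zero q0
  have x1 : 1 ≤ x := by omega
  have x0 : (0 : ℝ) < x := by exact_mod_cast x1
  have xd : 4 ≤ x * d ^ 2 := by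
    have : 4 / d ^ 2 ≤ x := Nat.ceil_le.1 (by omega)
    rwa [div_le_iff₀ (by positivity)] at this
  have xσ : σ + 1 ≤ x := by
    have : σ ≤ ((x - 1 : ℕ) : ℝ) := Nat.ceil_le.1 (by omega)
    rw [Nat.cast_sub x1] at this; push_cast at this; linarith
  have hxN : x ≤ N := by
    rw [P.hN, Nat.le_div_iff_mul_le (by positivity), ← pow_succ', P.hq]
    have r1 : 1 ≤ r := Nat.pos_of_ne_zero P.sqf.ne_zero
    have b1 : x ^ (A + 1) ≤ s := (Nat.pow_le_pow_right x1 (by omega)).trans P.big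
    have b2 : 1 ≤ s := le_trans (Nat.one_le_pow _ _ x1) b1
    calc x ^ (A + 1) ≤ s * 1 * 1 := by omega
      _ ≤ _ := by gcongr
  have N1 : 1 ≤ N := by omega
  have N0 : (0 : ℝ) < N := by exact_mod_cast N1
  have xN : (x : ℝ) ≤ N := by exact_mod_cast hxN
  have hNq : (N : ℝ) * x ^ 2 ≤ q := by
    have b1 : N * x ^ A ≤ q := P.hN ▸ Nat.div_mul_le_self _ _
    exact_mod_cast (Nat.mul_le_mul_left N (Nat.pow_le_pow_right x1 A2)).trans b1
  have hNq1 : (N : ℝ) * x ≤ q := le_trans (by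
    have : (1 : ℝ) ≤ x := by exact_mod_cast x1
    gcongr; nlinarith) hNq
  have dd : d ^ 2 ≤ d := by nlinarith
  have htw : (tw (a : ZMod q) N : ℝ) / N ≤ d := by
    have b1 : (tw (a : ZMod q) N : ℝ) * q ≤ 4 * q.divisors.card * N ^ 2 := by
      exact_mod_cast (hA q s r 1 a P.hq P.sqf P.cop).2.2 N
    have b2 : (q.divisors.card : ℝ) ≤ x := by exact_mod_cast P.tau
    rw [div_le_iff₀ N0]
    refine le_of_mul_le_mul_right (b1.trans ?_) hq
    calc 4 * (q.divisors.card : ℝ) * N ^ 2 ≤ x * d * x * N ^ 2 := by gcongr; nlinarith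
      _ = d * N * (N * x ^ 2) := by ring
      _ ≤ _ := by gcongr
  set h : ℝ := N / q with hh
  have h0 : 0 < h := by positivity
  have h1 : 4 * h ≤ d ^ 2 := by
    have : h * x ≤ 1 := by rw [hh, div_mul_eq_mul_div, div_le_one hq]; exact hNq1
    nlinarith
  have cl : ∀ c : ℝ, 0 ≤ c → c ≤ ⌈c * q / N⌉₊ * h ∧ ⌈c * q / N⌉₊ * h ≤ c + h := fun c c0 => by
    have e : c * q / N * h = c := by rw [hh]; field_simp
    have b1 := mul_le_mul_of_nonneg_right (Nat.le_ceil (c * q / N)) h0.le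
    have b2 := mul_le_mul_of_nonneg_right
      (Nat.ceil_lt_add_one (show 0 ≤ c * q / N by positivity)).le h0.le
    constructor <;> linarith
  have mono : ∀ c c' : ℝ, c ≤ c' → ⌈c * q / N⌉₊ ≤ ⌈c' * q / N⌉₊ := fun c c' hc =>
    Nat.ceil_mono (by gcongr)
  set g : ℝ := gapCount α N σ / N with hg
  set t : ℝ := tw (a : ZMod q) N / N with ht
  have g0 : 0 ≤ g := by positivity
  have t0 : 0 ≤ t := by positivity
  have g1 : g ≤ 1 := (div_le_one N0).2 (by exact_mod_cast gap_le α N σ)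
  have E1 : Real.exp (-σ) ≤ 1 := Real.exp_le_one_iff.2 (by linarith)
  refine ⟨hxN, abs_le.2 ⟨?_, ?_⟩⟩
  · have b1 := abs_le.1 (hX σ σ0 (by linarith) x q s r N a (by omega) N1 hNq1 P)
    have b2 := abs_le.1 (hX (σ + d) (by linarith) (by linarith) x q s r N a (by omega) N1 hNq1 P)
    have b3 := div_le_div_of_nonneg_right ((hT q N _ _ a α σ N1 (mono σ (σ + d) (by linarith))
      hβ).2 (Nat.le_ceil _)) hq.le
    obtain ⟨c1, -⟩ := cl σ σ0.le
    obtain ⟨-, c2⟩ := cl (σ + d) (by linarith)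
    have e : ((⌈(σ + d) * q / N⌉₊ : ℝ) - ⌈σ * q / N⌉₊) *
        ((gapCount α N σ : ℝ) + tw (a : ZMod q) N) / q =
        (⌈(σ + d) * q / N⌉₊ * h - ⌈σ * q / N⌉₊ * h) * (g + t) := by
      rw [hh, hg, ht]; field_simp
    rw [e, sub_div] at b3
    have b4 := b3.trans (mul_le_mul_of_nonneg_right (show _ ≤ d + h by linarith) (by linarith))
    have b5 := ex1 (u := σ + d) (v := σ)
    have b6 := ex2 σ0.le (show σ ≤ σ + d by linarith)
    refine le_of_mul_le_mul_left ?_ d0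
    nlinarith [mul_le_mul_of_nonneg_left b6 d0.le, mul_le_mul_of_nonneg_left htw d0.le,
      mul_le_mul_of_nonneg_left (show g + t ≤ 2 by linarith) h0.le]
  · rcases le_or_gt σ (2 * d) with hσ | hσ
    · have := ex2 le_rfl σ0.le
      rw [neg_zero, Real.exp_zero] at this
      linarith
    have b1 := abs_le.1 (hX (σ - 2 * d) (by linarith) (by linarith) x q s r N a (by omega) N1
      hNq1 P)
    have b2 := abs_le.1 (hX (σ - d) (by linarith) (by linarith) x q s r N a (by omega) N1 hNq1 P)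
    obtain ⟨-, c1⟩ := cl (σ - 2 * d) (by linarith)
    obtain ⟨c2, c3⟩ := cl (σ - d) (by linarith)
    have c4 : (⌈(σ - d) * q / N⌉₊ : ℝ) + 1 ≤ σ * q / N := by
      refine le_of_mul_le_mul_right ?_ h0
      rw [show σ * q / N * h = σ by rw [hh]; field_simp]
      linarith
    have c5 : ⌈(σ - d) * q / N⌉₊ < q := by
      have : σ * q / N ≤ q := by rw [div_le_iff₀ N0]; nlinarith
      exact_mod_cast (by linarith : (⌈(σ - d) * q / N⌉₊ : ℝ) < q)
    have b3 := div_le_div_of_nonneg_right ((hT q N _ _ a α σ N1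
      (mono (σ - 2 * d) (σ - d) (by linarith)) hβ).1 c5 c4) hq.le
    have e : ((⌈(σ - d) * q / N⌉₊ : ℝ) - ⌈(σ - 2 * d) * q / N⌉₊) *
        ((gapCount α N σ : ℝ) - tw (a : ZMod q) N) / q =
        (⌈(σ - d) * q / N⌉₊ * h - ⌈(σ - 2 * d) * q / N⌉₊ * h) * (g - t) := by
      rw [hh, hg, ht]; field_simp
    rw [e, sub_div] at b3
    rcases le_total g t with hgt | hgt
    · linarith [Real.exp_pos (-σ)]
    have b4 := (mul_le_mul_of_nonneg_right (show d - h ≤ _ by linarith) (by linarith)).trans b3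
    have b5 := ex1 (u := σ - 2 * d) (v := σ - d)
    have b6 := ex2 (show 0 ≤ σ - 2 * d by linarith) (show σ - 2 * d ≤ σ by linarith)
    refine le_of_mul_le_mul_left ?_ d0
    nlinarith [mul_le_mul_of_nonneg_left b6 d0.le, mul_le_mul_of_nonneg_left htw d0.le,
      mul_le_mul_of_nonneg_left (show g - t ≤ 1 by linarith) h0.le]

end FinA

open FinA in
theorem fin (hA : ARIStmt) (hV : VOIDStmt) (hT : TRANSStmt) (α η : ℝ) (hη : 0 < η)
    (h : ∀ ε : ℝ, 0 < ε → ∀ Q : ℕ, ∃ (a : ℤ) (q s : ℕ), Q ≤ q ∧ Int.gcd a q = 1 ∧ s ^ 2 ∣ q ∧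
      (q : ℝ) ^ η ≤ s ∧ |α - a / q| ≤ (q : ℝ) ^ (-3 + ε)) :
    ∃ N : ℕ → ℕ, Tendsto N atTop atTop ∧ ∀ σ : ℝ, 0 ≤ σ →
      Tendsto (fun j => (gapCount α (N j) σ : ℝ) / N j) atTop (𝓝 (Real.exp (-σ))) := by
  have H : ∀ m : ℕ, ∃ N : ℕ, m + 1 ≤ N ∧ ∀ i : ℕ, 1 ≤ i → i ≤ (m + 1) ^ 2 →
      |(gapCount α N (i / (m + 1)) : ℝ) / N - Real.exp (-(i / (m + 1)))| ≤ 7 * (1 / (m + 1)) := by
    intro m
    have m0 : (0 : ℝ) < m + 1 := by positivity
    obtain ⟨A, B, A2, hB, h1⟩ := one hA hV hT (d := 1 / (m + 1)) (m + 1) (by positivity)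
      ((div_le_one m0).2 (by simp))
    have h2 := fun i : Fin ((m + 1) ^ 2) => h1 (((i + 1 : ℕ) : ℝ) / (m + 1)) (by positivity) (by
      rw [div_le_iff₀ m0, ← sq]
      exact_mod_cast i.2)
    choose X hX using h2
    obtain ⟨x, q, s, r, N, a, b1, b2, b3, b4⟩ := params hη h A2 hB (m + 1 + ∑ i, X i)
    have h3 := fun i => hX i x q s r N a α (le_trans (single_le_sum (f := X)
      (fun _ _ => Nat.zero_le _) (mem_univ i)) (by omega)) b2 b3 b4
    refine ⟨N, le_trans (by omega) (h3 ⟨0, by positivity⟩).1, fun i i1 i2 => ?_⟩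
    have := (h3 ⟨i - 1, by omega⟩).2
    rwa [show i - 1 + 1 = i by omega] at this
  choose N h1 h2 using H
  refine ⟨N, tendsto_atTop_mono (fun m => le_trans (Nat.le_succ m) (h1 m)) tendsto_id,
    fun σ σ0 => ?_⟩
  rw [tendsto_iff_norm_sub_tendsto_zero]
  refine squeeze_zero' (Eventually.of_forall fun _ => norm_nonneg _)
    ((eventually_ge_atTop ⌈σ⌉₊).mono fun m hm => ?_)
    (by simpa using tendsto_one_div_add_atTop_nhds_zero_nat.const_mul (8 : ℝ))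
  have m0 : (0 : ℝ) < m + 1 := by positivity
  have hσ : σ ≤ m := Nat.ceil_le.1 hm
  have N0 : (0 : ℝ) < N m := by exact_mod_cast lt_of_lt_of_le (Nat.succ_pos m) (h1 m)
  set i := ⌊σ * (m + 1)⌋₊ with hi
  have a1 : (i : ℝ) / (m + 1) ≤ σ := (div_le_iff₀ m0).2 (Nat.floor_le (by positivity))
  have a2 : σ ≤ ((i + 1 : ℕ) : ℝ) / (m + 1) :=
    (le_div_iff₀ m0).2 (by push_cast; exact (Nat.lt_floor_add_one _).le)
  have a3 : ((i + 1 : ℕ) : ℝ) / (m + 1) = i / (m + 1) + 1 / (m + 1) := by push_cast; ring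
  have a4 : i + 1 ≤ (m + 1) ^ 2 := by
    have : (i : ℝ) ≤ m * (m + 1) := (Nat.floor_le (by positivity)).trans (by gcongr)
    have : i ≤ m * (m + 1) := by exact_mod_cast this
    nlinarith
  have a5 : (0 : ℝ) < 1 / (m + 1) := by positivity
  rw [Real.norm_eq_abs, ← one_div, abs_le]
  constructor
  · have b1 := (abs_le.1 (h2 m (i + 1) (by omega) a4)).1
    have b2 : (gapCount α (N m) (((i + 1 : ℕ) : ℝ) / (m + 1)) : ℝ) / N m ≤
        gapCount α (N m) σ / N m := by gcongr; exact gap_anti α _ a2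
    have b3 := ex2 σ0 a2
    linarith
  · have b3 := ex2 (by positivity) a1
    rcases Nat.eq_zero_or_pos i with h0 | h0
    · have b1 : (gapCount α (N m) σ : ℝ) / N m ≤ 1 :=
        (div_le_one N0).2 (by exact_mod_cast gap_le α _ σ)
      rw [h0] at b3 a3 a2
      simp only [Nat.cast_zero, zero_div, neg_zero, Real.exp_zero] at b3 a3
      linarith
    · have b1 := (abs_le.1 (h2 m i h0 (by omega))).2
      have b2 : (gapCount α (N m) σ : ℝ) / N m ≤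
          gapCount α (N m) ((i : ℝ) / (m + 1)) / N m := by gcongr; exact gap_anti α _ a1
      linarith

end Pool.Agent.MP_ba281e_nt.SG
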