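import Pool.Agent.MP_ba281e_nt.sg.Spec2
import Pool.Agent.MP_ba281e_nt.sg.Fin

/-!
From windows to the spacings to the `k`-th neighbour; the diagonal sequence.
-/

set_option autoImplicit false

namespace Pool.Agent.MP_ba281e_nt.SG

open Finset Filter Topology
open scoped Classical

namespace Fin2A
open FinA

theorem nb_le (α : ℝ) (N j : ℕ) (σ : ℝ) : nbCount α N j σ ≤ N :=
  (card_filter_le _ _).trans (by simp)

theorem nb_anti (α : ℝ) (N j : ℕ) {σ σ' : ℝ} (h : σ ≤ σ') :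
    nbCount α N j σ' ≤ nbCount α N j σ := by
  refine card_le_card fun n hn => ?_
  rw [mem_filter] at hn ⊢
  refine ⟨hn.1, le_trans (card_le_card fun m hm => ?_) hn.2⟩
  rw [mem_filter] at hm ⊢
  exact ⟨hm.1, hm.2.1, hm.2.2.trans (by gcongr)⟩

theorem UG {q : ℕ} [NeZero q] (a : ZMod q) (N W : ℕ) {J j : ℕ} (hj : j ≤ J) {c θ : ℝ}
    (h : ∀ i ≤ J, |(ve a N W i : ℝ) / q - po i c| ≤ θ / (J + 1) ^ 2) :
    |Uf a N W j / q - Gf j c| ≤ θ := by
  have h0 : 0 ≤ θ / (J + 1) ^ 2 := (abs_nonneg _).trans (h 0 (Nat.zero_le _))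
  have j1 : (j : ℝ) ≤ J := by exact_mod_cast hj
  rw [Uf, Gf, sum_div, ← sum_sub_distrib]
  refine (abs_sum_le_sum_abs _ _).trans ((sum_le_card_nsmul _ _ ((J + 1) * (θ / (J + 1) ^ 2))
    fun i hi => ?_).trans ?_)
  · have i1 := mem_range.1 hi
    have i2 : (i : ℝ) ≤ j := by exact_mod_cast (by omega : i ≤ j)
    rw [mul_div_assoc, ← mul_sub, abs_mul, abs_of_nonneg (by linarith)]
    exact mul_le_mul (by linarith [Nat.cast_nonneg (α := ℝ) i]) (h i (by omega)) (abs_nonneg _)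
      (by positivity)
  · rw [card_range, nsmul_eq_mul]
    push_cast
    calc ((j : ℝ) + 1) * ((J + 1) * (θ / (J + 1) ^ 2))
        ≤ (J + 1) * ((J + 1) * (θ / (J + 1) ^ 2)) := by gcongr
      _ = θ := by field_simp

theorem one2 (hA : ARIStmt) (hV : VEStmt) (hT : TR2Stmt) (hC : CALStmt) (J : ℕ) {d : ℝ} (C : ℝ)
    (d0 : 0 < d) (d1 : d ≤ 1) : ∃ A B : ℕ, 2 ≤ A ∧ A + 2 ≤ B ∧ ∀ σ : ℝ, 0 < σ → σ ≤ C → ∃ x₀ : ℕ,
      ∀ (x q s r N : ℕ) (a : ℤ) (α : ℝ), x₀ ≤ x → q ≠ 0 → Par A B x q s r N a →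
        (N : ℝ) ^ 2 * |α - a / q| * q < 1 →
        x ≤ N ∧ ∀ j ≤ J, |(nbCount α N j σ : ℝ) / N - Qf j σ| ≤ 7 * d := by
  obtain ⟨A, B, A2, hB, H⟩ := hV J (d ^ 2 / (J + 1) ^ 2) (C + 1) (by positivity)
  have H' : ∀ c : ℝ, ∃ x₀ : ℕ, 0 < c → c ≤ C + 1 → ∀ (x q : ℕ) [NeZero q] (s r N : ℕ) (a : ℤ),
      x₀ ≤ x → 1 ≤ N → (N : ℝ) * x ≤ q → Par A B x q s r N a → ∀ j ≤ J,
      |Uf (a : ZMod q) N ⌈c * q / N⌉₊ j / q - Gf j c| ≤ d ^ 2 := by
    intro c
    by_cases hc : 0 < c ∧ c ≤ C + 1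
    · obtain ⟨x₀, δ, δ0, h⟩ := H c hc.1 hc.2
      refine ⟨x₀ + ⌈1 / δ⌉₊, fun c0 _ x q _ s r N a h1 h2 h3 P j hj =>
        UG _ _ _ hj (h x q s r N _ a (by omega) P ?_)⟩
      have hq : (0 : ℝ) < q := by exact_mod_cast Nat.pos_of_ne_zero (NeZero.ne q)
      have N0 : (0 : ℝ) < N := by exact_mod_cast h2
      have b1 := Nat.le_ceil (c * q / N)
      have b2 := (Nat.ceil_lt_add_one (show 0 ≤ c * q / N by positivity)).le
      have b3 : 1 / δ ≤ x := Nat.ceil_le.1 (by omega)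
      rw [div_le_iff₀ N0] at b1
      rw [← sub_le_iff_le_add, le_div_iff₀ N0] at b2
      rw [div_le_iff₀ δ0] at b3
      rw [abs_le, le_sub_iff_add_le, sub_le_iff_le_add, le_div_iff₀ hq, div_le_iff₀ hq]
      constructor <;> nlinarith [mul_pos δ0 hq, mul_le_mul_of_nonneg_left b3 N0.le,
        mul_le_mul_of_nonneg_right h3 δ0.le]
    · exact ⟨0, fun a b => absurd ⟨a, b⟩ hc⟩
  choose X hX using H'
  refine ⟨A, B, A2, hB, fun σ σ0 σ1 => ⟨X σ + X (σ + d) + X (σ - 2 * d) + X (σ - d) +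
    ⌈4 / d ^ 2⌉₊ + ⌈σ⌉₊ + 1, fun x q s r N a α hx q0 P hβ => ?_⟩⟩
  have : NeZero q := ⟨q0⟩
  have hq : (0 : ℝ) < q := by exact_mod_cast Nat.pos_of_ne_zero q0
  have x1 : 1 ≤ x := by omega
  have x0 : (0 : ℝ) < x := by exact_mod_cast x1
  have xd : 4 ≤ x * d ^ 2 := by
    have : 4 / d ^ 2 ≤ x := Nat.ceil_le.1 (by omega)
    rwa [div_le_iff₀ (by positivity)] at this
  have xσ : σ + 1 ≤ x := by
    have : σ ≤ ((x - 1 : ℕ) : ℝ) := Nat.ceil_le.1 (by omega)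
    rw [Nat.cast_sub x1] at this; push_cast at this; linarith
  have hxN : x ≤ N := by
    rw [P.hN, Nat.le_div_iff_mul_le (by positivity), ← pow_succ', P.hq]
    have r1 : 1 ≤ r := Nat.pos_of_ne_zero P.sqf.ne_zero
    have b1 : x ^ (A + 1) ≤ s := (Nat.pow_le_pow_right x1 (by omega)).trans P.big
    have b2 : 1 ≤ s := le_trans (Nat.one_le_pow _ _ x1) b1
    calc x ^ (A + 1) ≤ s * 1 * 1 := by omega
      _ ≤ _ := by gcongr
  have N1 : 1 ≤ N := by omega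
  have N0 : (0 : ℝ) < N := by exact_mod_cast N1
  have xN : (x : ℝ) ≤ N := by exact_mod_cast hxN
  have hNq : (N : ℝ) * x ^ 2 ≤ q := by
    have b1 : N * x ^ A ≤ q := P.hN ▸ Nat.div_mul_le_self _ _
    exact_mod_cast (Nat.mul_le_mul_left N (Nat.pow_le_pow_right x1 A2)).trans b1
  have hNq1 : (N : ℝ) * x ≤ q := le_trans (by
    have : (1 : ℝ) ≤ x := by exact_mod_cast x1
    gcongr; nlinarith) hNq
  have dd : d ^ 2 ≤ d := by nlinarith
  have htw : (tw (a : ZMod q) N : ℝ) / N ≤ d := by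
    have b1 : (tw (a : ZMod q) N : ℝ) * q ≤ 4 * q.divisors.card * N ^ 2 := by
      exact_mod_cast (hA q s r 1 a P.hq P.sqf P.cop).2.2 N
    have b2 : (q.divisors.card : ℝ) ≤ x := by exact_mod_cast P.tau
    rw [div_le_iff₀ N0]
    refine le_of_mul_le_mul_right (b1.trans ?_) hq
    calc 4 * (q.divisors.card : ℝ) * N ^ 2 ≤ x * d * x * N ^ 2 := by gcongr; nlinarith
      _ = d * N * (N * x ^ 2) := by ring
      _ ≤ _ := by gcongr
  set h : ℝ := N / q with hh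
  have h0 : 0 < h := by positivity
  have h1 : 4 * h ≤ d ^ 2 := by
    have : h * x ≤ 1 := by rw [hh, div_mul_eq_mul_div, div_le_one hq]; exact hNq1
    nlinarith
  have cl : ∀ c : ℝ, 0 ≤ c → c ≤ ⌈c * q / N⌉₊ * h ∧ ⌈c * q / N⌉₊ * h ≤ c + h := fun c c0 => by
    have e : c * q / N * h = c := by rw [hh]; field_simp
    have b1 := mul_le_mul_of_nonneg_right (Nat.le_ceil (c * q / N)) h0.le
    have b2 := mul_le_mul_of_nonneg_right
      (Nat.ceil_lt_add_one (show 0 ≤ c * q / N by positivity)).le h0.le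
    constructor <;> linarith
  have mono : ∀ c c' : ℝ, c ≤ c' → ⌈c * q / N⌉₊ ≤ ⌈c' * q / N⌉₊ := fun c c' hc =>
    Nat.ceil_mono (by gcongr)
  refine ⟨hxN, fun j hj => ?_⟩
  obtain ⟨q1, hQ⟩ := hC j
  set g : ℝ := nbCount α N j σ / N with hg
  set t : ℝ := tw (a : ZMod q) N / N with ht
  have g0 : 0 ≤ g := by positivity
  have t0 : 0 ≤ t := by positivity
  have g1 : g ≤ 1 := (div_le_one N0).2 (by exact_mod_cast nb_le α N j σ)
  refine abs_le.2 ⟨?_, ?_⟩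
  · have b1 := abs_le.1 (hX σ σ0 (by linarith) x q s r N a (by omega) N1 hNq1 P j hj)
    have b2 := abs_le.1 (hX (σ + d) (by linarith) (by linarith) x q s r N a (by omega) N1 hNq1 P
      j hj)
    have b3 := div_le_div_of_nonneg_right ((hT q N _ _ j a α σ N1 (mono σ (σ + d) (by linarith))
      hβ).2 (Nat.le_ceil _)) hq.le
    obtain ⟨c1, -⟩ := cl σ σ0.le
    obtain ⟨-, c2⟩ := cl (σ + d) (by linarith)
    have e : ((⌈(σ + d) * q / N⌉₊ : ℝ) - ⌈σ * q / N⌉₊) *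
        ((nbCount α N j σ : ℝ) + tw (a : ZMod q) N) / q =
        (⌈(σ + d) * q / N⌉₊ * h - ⌈σ * q / N⌉₊ * h) * (g + t) := by
      rw [hh, hg, ht]; field_simp
    rw [e, sub_div] at b3
    have b4 := b3.trans (mul_le_mul_of_nonneg_right (show _ ≤ d + h by linarith) (by linarith))
    obtain ⟨-, -, b6, b5, -⟩ := hQ σ (σ + d) σ0.le (by linarith)
    refine le_of_mul_le_mul_left ?_ d0
    nlinarith [mul_le_mul_of_nonneg_left b6 d0.le, mul_le_mul_of_nonneg_left htw d0.le,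
      mul_le_mul_of_nonneg_left (show g + t ≤ 2 by linarith) h0.le]
  · obtain ⟨z1, -, z2, -⟩ := hQ 0 σ le_rfl σ0.le
    rcases le_or_gt σ (2 * d) with hσ | hσ
    · linarith
    have b1 := abs_le.1 (hX (σ - 2 * d) (by linarith) (by linarith) x q s r N a (by omega) N1
      hNq1 P j hj)
    have b2 := abs_le.1 (hX (σ - d) (by linarith) (by linarith) x q s r N a (by omega) N1 hNq1 P
      j hj)
    obtain ⟨-, c1⟩ := cl (σ - 2 * d) (by linarith)
    obtain ⟨c2, c3⟩ := cl (σ - d) (by linarith)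
    have c4 : (⌈(σ - d) * q / N⌉₊ : ℝ) + 1 ≤ σ * q / N := by
      refine le_of_mul_le_mul_right ?_ h0
      rw [show σ * q / N * h = σ by rw [hh]; field_simp]
      linarith
    have c5 : ⌈(σ - d) * q / N⌉₊ < q := by
      have : σ * q / N ≤ q := by rw [div_le_iff₀ N0]; nlinarith
      exact_mod_cast (by linarith : (⌈(σ - d) * q / N⌉₊ : ℝ) < q)
    have b3 := div_le_div_of_nonneg_right ((hT q N _ _ j a α σ N1
      (mono (σ - 2 * d) (σ - d) (by linarith)) hβ).1 c5 c4) hq.le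
    have e : ((⌈(σ - d) * q / N⌉₊ : ℝ) - ⌈(σ - 2 * d) * q / N⌉₊) *
        ((nbCount α N j σ : ℝ) - tw (a : ZMod q) N) / q =
        (⌈(σ - d) * q / N⌉₊ * h - ⌈(σ - 2 * d) * q / N⌉₊ * h) * (g - t) := by
      rw [hh, hg, ht]; field_simp
    rw [e, sub_div] at b3
    rcases le_total g t with hgt | hgt
    · linarith
    have b4 := (mul_le_mul_of_nonneg_right (show d - h ≤ _ by linarith) (by linarith)).trans b3
    obtain ⟨-, -, -, -, b5⟩ := hQ (σ - 2 * d) (σ - d) (by linarith) (by linarith)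
    obtain ⟨-, -, b6, -⟩ := hQ (σ - 2 * d) σ (by linarith) (by linarith)
    refine le_of_mul_le_mul_left ?_ d0
    have b7 := mul_le_mul_of_nonneg_left b6 d0.le
    have b8 := mul_le_mul_of_nonneg_left htw d0.le
    have b9 := mul_le_mul_of_nonneg_left (show g - t ≤ 1 by linarith) h0.le
    have b10 := b1.2
    have b11 := b2.1
    clear_value g t h
    clear hX H hQ cl mono b3 e b1 b2
    linarith [sq_nonneg d]

end Fin2A

open FinA Fin2A in
theorem fin2 (hA : ARIStmt) (hV : VEStmt) (hT : TR2Stmt) (hC : CALStmt) (α η : ℝ) (hη : 0 < η)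
    (h : ∀ ε : ℝ, 0 < ε → ∀ Q : ℕ, ∃ (a : ℤ) (q s : ℕ), Q ≤ q ∧ Int.gcd a q = 1 ∧ s ^ 2 ∣ q ∧
      (q : ℝ) ^ η ≤ s ∧ |α - a / q| ≤ (q : ℝ) ^ (-3 + ε)) :
    ∃ N : ℕ → ℕ, Tendsto N atTop atTop ∧ ∀ (k : ℕ) (σ : ℝ), 0 ≤ σ →
      Tendsto (fun j => (nbCount α (N j) k σ : ℝ) / N j) atTop (𝓝 (Qf k σ)) := by
  have H : ∀ m : ℕ, ∃ N : ℕ, m + 1 ≤ N ∧ ∀ i : ℕ, 1 ≤ i → i ≤ (m + 1) ^ 2 → ∀ k ≤ m,
      |(nbCount α N k (i / (m + 1)) : ℝ) / N - Qf k (i / (m + 1))| ≤ 7 * (1 / (m + 1)) := by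
    intro m
    have m0 : (0 : ℝ) < m + 1 := by positivity
    obtain ⟨A, B, A2, hB, h1⟩ := one2 hA hV hT hC m (d := 1 / (m + 1)) (m + 1) (by positivity)
      ((div_le_one m0).2 (by simp))
    have h2 := fun i : Fin ((m + 1) ^ 2) => h1 (((i + 1 : ℕ) : ℝ) / (m + 1)) (by positivity) (by
      rw [div_le_iff₀ m0, ← sq]
      exact_mod_cast i.2)
    choose X hX using h2
    obtain ⟨x, q, s, r, N, a, b1, b2, b3, b4⟩ := params hη h A2 hB (m + 1 + ∑ i, X i)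
    have h3 := fun i => hX i x q s r N a α (le_trans (single_le_sum (f := X)
      (fun _ _ => Nat.zero_le _) (mem_univ i)) (by omega)) b2 b3 b4
    refine ⟨N, le_trans (by omega) (h3 ⟨0, by positivity⟩).1, fun i i1 i2 => ?_⟩
    have := (h3 ⟨i - 1, by omega⟩).2
    rwa [show i - 1 + 1 = i by omega] at this
  choose N h1 h2 using H
  refine ⟨N, tendsto_atTop_mono (fun m => le_trans (Nat.le_succ m) (h1 m)) tendsto_id,
    fun k σ σ0 => ?_⟩
  obtain ⟨q1, hQ⟩ := hC k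
  rw [tendsto_iff_norm_sub_tendsto_zero]
  refine squeeze_zero' (Eventually.of_forall fun _ => norm_nonneg _)
    ((eventually_ge_atTop (⌈σ⌉₊ + k)).mono fun m hm => ?_)
    (by simpa using tendsto_one_div_add_atTop_nhds_zero_nat.const_mul (8 : ℝ))
  have m0 : (0 : ℝ) < m + 1 := by positivity
  have hσ : σ ≤ m := Nat.ceil_le.1 (by omega)
  have N0 : (0 : ℝ) < N m := by exact_mod_cast lt_of_lt_of_le (Nat.succ_pos m) (h1 m)
  set i := ⌊σ * (m + 1)⌋₊ with hi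
  have a1 : (i : ℝ) / (m + 1) ≤ σ := (div_le_iff₀ m0).2 (Nat.floor_le (by positivity))
  have a2 : σ ≤ ((i + 1 : ℕ) : ℝ) / (m + 1) :=
    (le_div_iff₀ m0).2 (by push_cast; exact (Nat.lt_floor_add_one _).le)
  have a3 : ((i + 1 : ℕ) : ℝ) / (m + 1) = i / (m + 1) + 1 / (m + 1) := by push_cast; ring
  have a4 : i + 1 ≤ (m + 1) ^ 2 := by
    have : (i : ℝ) ≤ m * (m + 1) := (Nat.floor_le (by positivity)).trans (by gcongr)
    have : i ≤ m * (m + 1) := by exact_mod_cast this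
    nlinarith
  have a5 : (0 : ℝ) < 1 / (m + 1) := by positivity
  rw [Real.norm_eq_abs, ← one_div, abs_le]
  constructor
  · have b1 := (abs_le.1 (h2 m (i + 1) (by omega) a4 k (by omega))).1
    have b2 : (nbCount α (N m) k (((i + 1 : ℕ) : ℝ) / (m + 1)) : ℝ) / N m ≤
        nbCount α (N m) k σ / N m := by gcongr; exact nb_anti α _ k a2
    obtain ⟨-, -, b3, -⟩ := hQ _ _ σ0 a2
    linarith
  · obtain ⟨-, -, b3, -⟩ := hQ _ _ (by positivity) a1
    rcases Nat.eq_zero_or_pos i with h0 | h0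
    · have b1 : (nbCount α (N m) k σ : ℝ) / N m ≤ 1 :=
        (div_le_one N0).2 (by exact_mod_cast nb_le α _ k σ)
      rw [h0] at b3 a3 a2
      simp only [Nat.cast_zero, zero_div] at b3 a3
      linarith
    · have b1 := (abs_le.1 (h2 m i h0 (by omega) k (by omega))).2
      have b2 : (nbCount α (N m) k σ : ℝ) / N m ≤
          nbCount α (N m) k ((i : ℝ) / (m + 1)) / N m := by gcongr; exact nb_anti α _ k a1
      linarith

end Pool.Agent.MP_ba281e_nt.SG
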