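import Pool.Agent.MP_ba281e_nt.sg.Spec

/-!
PROJECT SG: trapezoid minorant and majorant of an interval, with Fourier bounds.
-/

set_option autoImplicit false

namespace Pool.Agent.MP_ba281e_nt.SG

open Finset
open scoped Classical

namespace FouA

variable {q : ℕ} [NeZero q]

noncomputable def trap (u : ZMod q) (L l : ℕ) (n : ZMod q) : ℝ :=
  (∑ j ∈ range l, ∑ i ∈ range L, if n = u + (i : ZMod q) + (j : ZMod q) then (1 : ℝ) else 0) / l

noncomputable def gs (η : ZMod q) (L : ℕ) : ℂ := ∑ i ∈ range L, ZMod.stdAddChar (η * (i : ZMod q))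

noncomputable def co (u : ZMod q) (L l : ℕ) (ξ : ZMod q) : ℂ :=
  ZMod.stdAddChar (-ξ * u) * gs (-ξ) L * gs (-ξ) l / (q * l)

theorem qpos : (0 : ℝ) < q := Nat.cast_pos.2 (Nat.pos_of_ne_zero (NeZero.ne q))

theorem norm_psi (x : ZMod q) : ‖ZMod.stdAddChar x‖ = 1 := by
  rw [ZMod.stdAddChar_apply]; exact Circle.norm_coe _

theorem psi_sub (v : ℤ) (hv : |(v : ℝ)| * 2 ≤ q) :
    4 * |(v : ℝ)| / q ≤ ‖ZMod.stdAddChar (v : ZMod q) - 1‖ := by
  have hq := qpos (q := q)
  have hp := Real.pi_pos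
  rw [ZMod.stdAddChar_coe]
  have e : (2 * (Real.pi : ℂ) * Complex.I * (v : ℂ) / (q : ℂ)) =
      Complex.I * ((2 * Real.pi * v / q : ℝ) : ℂ) := by push_cast; ring
  rw [e, Complex.norm_exp_I_mul_ofReal_sub_one, norm_mul, Real.norm_eq_abs, Real.norm_eq_abs]
  have ha : |2 * Real.pi * v / q / 2| = Real.pi * |(v : ℝ)| / q := by
    rw [show 2 * Real.pi * v / q / 2 = Real.pi * v / q by ring, abs_div, abs_mul, abs_of_pos hp,
      abs_of_pos hq]
  have h1 : |2 * Real.pi * v / q / 2| ≤ Real.pi / 2 := by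
    rw [ha, div_le_div_iff₀ hq two_pos]; nlinarith
  have h2 := Real.mul_abs_le_abs_sin h1
  rw [ha] at h2
  have h3 : 2 / Real.pi * (Real.pi * |(v : ℝ)| / q) = 2 * |(v : ℝ)| / q := by field_simp
  rw [h3] at h2
  rw [abs_two]
  have : 4 * |(v : ℝ)| / q = 2 * (2 * |(v : ℝ)| / q) := by ring
  linarith

theorem gs_le (v : ℤ) (hv : |(v : ℝ)| * 2 ≤ q) (h0 : v ≠ 0) (L : ℕ) :
    ‖gs (v : ZMod q) L‖ ≤ q / (2 * |(v : ℝ)|) := by
  have hq := qpos (q := q)
  have hv0 : 0 < |(v : ℝ)| := abs_pos.2 (Int.cast_ne_zero.2 h0)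
  have h1 := psi_sub (q := q) v hv
  have h2 : 0 < 4 * |(v : ℝ)| / q := by positivity
  have hne : ZMod.stdAddChar (v : ZMod q) ≠ 1 := by
    intro h; rw [h, sub_self, norm_zero] at h1; linarith
  have e : gs (v : ZMod q) L = ∑ i ∈ range L, ZMod.stdAddChar (v : ZMod q) ^ i := by
    refine sum_congr rfl fun i _ => ?_
    rw [← AddChar.map_nsmul_eq_pow, nsmul_eq_mul, mul_comm]
  rw [e, geom_sum_eq hne, norm_div]
  have h3 : ‖ZMod.stdAddChar (v : ZMod q) ^ L - 1‖ ≤ 2 := by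
    refine (norm_sub_le _ _).trans ?_
    rw [norm_pow, norm_psi, one_pow, norm_one]; norm_num
  calc _ ≤ 2 / (4 * |(v : ℝ)| / q) := div_le_div₀ (by norm_num) h3 h2 h1
    _ = _ := by field_simp; ring

theorem co_le (u : ZMod q) (L l : ℕ) (hl : 1 ≤ l) (ξ : ZMod q) (h0 : ξ ≠ 0) :
    ‖co u L l ξ‖ ≤ q / (4 * l) * ((ξ.valMinAbs : ℝ) ^ 2)⁻¹ := by
  have hq := qpos (q := q)
  have hl' : (0 : ℝ) < l := by exact_mod_cast hl
  have hv0 : ξ.valMinAbs ≠ 0 := fun h => h0 ((ZMod.valMinAbs_eq_zero ξ).1 h)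
  have hv : |((-ξ.valMinAbs : ℤ) : ℝ)| * 2 ≤ q := by
    have := ξ.natAbs_valMinAbs_le
    have h2 : |ξ.valMinAbs| * 2 ≤ (q : ℤ) := by rw [← Int.natCast_natAbs]; omega
    rw [Int.cast_neg, abs_neg]; exact_mod_cast h2
  have e : ((-ξ.valMinAbs : ℤ) : ZMod q) = -ξ := by simp
  have h1 := gs_le (q := q) _ hv (neg_ne_zero.2 hv0) L
  have h2 := gs_le (q := q) _ hv (neg_ne_zero.2 hv0) l
  rw [e, Int.cast_neg, abs_neg] at h1 h2
  have hw : 0 < |(ξ.valMinAbs : ℝ)| := abs_pos.2 (Int.cast_ne_zero.2 hv0)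
  rw [co, norm_div, norm_mul, norm_mul, norm_psi, one_mul, norm_mul, Complex.norm_natCast,
    Complex.norm_natCast, ← sq_abs]
  calc _ ≤ q / (2 * |(ξ.valMinAbs : ℝ)|) * (q / (2 * |(ξ.valMinAbs : ℝ)|)) / (q * l) := by
        gcongr
    _ = _ := by field_simp; ring

theorem co_zero (u : ZMod q) (L l : ℕ) (hl : 1 ≤ l) : co u L l 0 = (((L : ℝ) / q : ℝ) : ℂ) := by
  have hl' : (l : ℂ) ≠ 0 := by exact_mod_cast (by omega : l ≠ 0)
  have hq : (q : ℂ) ≠ 0 := by exact_mod_cast NeZero.ne q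
  simp only [co, gs, neg_zero, zero_mul, AddChar.map_zero_eq_one, sum_const, card_range,
    nsmul_eq_mul, mul_one, one_mul]
  push_cast; field_simp

theorem tail (R : ℕ) :
    ∑ ξ ∈ univ.filter (fun ξ : ZMod q => (R : ℤ) < |ξ.valMinAbs|), ((ξ.valMinAbs : ℝ) ^ 2)⁻¹ ≤
      4 / (R + 1) := by
  set S := univ.filter (fun ξ : ZMod q => (R : ℤ) < |ξ.valMinAbs|) with hS
  set F : ℤ → ℝ := fun v => ((v : ℝ) ^ 2)⁻¹ with hF
  have hF0 : ∀ v, 0 ≤ F v := fun v => by positivity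
  have h1 : ∑ ξ ∈ S, ((ξ.valMinAbs : ℝ) ^ 2)⁻¹ = ∑ v ∈ S.image ZMod.valMinAbs, F v :=
    (sum_image (f := F) fun _ _ _ _ h => ZMod.injective_valMinAbs h).symm
  set A := (Ioo R (q + 1)).image fun k : ℕ => (k : ℤ) with hA
  set B := (Ioo R (q + 1)).image fun k : ℕ => -(k : ℤ) with hB
  have h2 : S.image ZMod.valMinAbs ⊆ A ∪ B := by
    intro v hv
    obtain ⟨ξ, hξ, rfl⟩ := mem_image.1 hv
    have h3 := (mem_filter.1 hξ).2
    have h4 := ξ.natAbs_valMinAbs_le
    rw [← Int.natCast_natAbs] at h3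
    have h5 : ξ.valMinAbs.natAbs ∈ Ioo R (q + 1) := mem_Ioo.2 ⟨by omega, by omega⟩
    rcases ξ.valMinAbs.natAbs_eq with h | h
    · exact mem_union_left _ (mem_image.2 ⟨_, h5, h.symm⟩)
    · exact mem_union_right _ (mem_image.2 ⟨_, h5, h.symm⟩)
  have h3 := sum_Ioo_inv_sq_le (α := ℝ) R (q + 1)
  have hA' : ∑ v ∈ A, F v ≤ 2 / (R + 1) := by
    rw [hA, sum_image fun _ _ _ _ h => by exact_mod_cast h]
    simpa [hF] using h3
  have hB' : ∑ v ∈ B, F v ≤ 2 / (R + 1) := by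
    rw [hB, sum_image fun _ _ _ _ h => by simpa using h]
    simpa [hF] using h3
  have h4 := sum_union_inter (s₁ := A) (s₂ := B) (f := F)
  have h5 : 0 ≤ ∑ v ∈ A ∩ B, F v := sum_nonneg fun v _ => hF0 v
  have h6 := sum_le_sum_of_subset_of_nonneg h2 fun v _ _ => hF0 v
  have : (4 : ℝ) / (R + 1) = 2 / (R + 1) + 2 / (R + 1) := by ring
  linarith

theorem tail_co (u : ZMod q) (L l : ℕ) (hl : 1 ≤ l) (R : ℕ) :
    ∑ ξ ∈ univ.filter (fun ξ : ZMod q => (R : ℤ) < |ξ.valMinAbs|), ‖co u L l ξ‖ ≤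
      q / (l * (R + 1)) := by
  have hq := qpos (q := q)
  have hl' : (0 : ℝ) < l := by exact_mod_cast hl
  calc _ ≤ ∑ ξ ∈ univ.filter (fun ξ : ZMod q => (R : ℤ) < |ξ.valMinAbs|),
        (q : ℝ) / (4 * l) * ((ξ.valMinAbs : ℝ) ^ 2)⁻¹ := by
        refine sum_le_sum fun ξ hξ => co_le u L l hl ξ ?_
        rintro rfl
        have := (mem_filter.1 hξ).2
        simp only [ZMod.valMinAbs_zero, abs_zero] at this
        omega
    _ ≤ (q : ℝ) / (4 * l) * (4 / (R + 1)) := by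
        rw [← mul_sum]
        exact mul_le_mul_of_nonneg_left (tail R) (by positivity)
    _ = _ := by field_simp

theorem inv (u : ZMod q) (L l : ℕ) (n : ZMod q) :
    (trap u L l n : ℂ) = ∑ ξ, co u L l ξ * ZMod.stdAddChar (ξ * n) := by
  have hq : (q : ℂ) ≠ 0 := by exact_mod_cast NeZero.ne q
  have e : ∀ ξ : ZMod q, co u L l ξ * ZMod.stdAddChar (ξ * n) =
      ∑ j ∈ range l, ∑ i ∈ range L,
        ZMod.stdAddChar (ξ * (n - (u + (i : ZMod q) + (j : ZMod q)))) / (q * l) := by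
    intro ξ
    rw [co, gs, gs, mul_sum, mul_sum, sum_div, sum_mul]
    refine sum_congr rfl fun j _ => ?_
    rw [sum_mul, sum_div, sum_mul]
    refine sum_congr rfl fun i _ => ?_
    rw [div_mul_eq_mul_div, ← AddChar.map_add_eq_mul, ← AddChar.map_add_eq_mul,
      ← AddChar.map_add_eq_mul]
    congr 2; ring
  rw [sum_congr rfl fun ξ _ => e ξ, sum_comm, trap]
  push_cast
  rw [sum_div]
  refine sum_congr rfl fun j _ => ?_
  rw [sum_comm, sum_div]
  refine sum_congr rfl fun i _ => ?_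
  rw [← sum_div, AddChar.sum_mulShift _ (ZMod.isPrimitive_stdAddChar q), ZMod.card]
  by_cases h : n = u + (i : ZMod q) + (j : ZMod q)
  · rw [if_pos h, if_pos (sub_eq_zero.2 h)]; push_cast; rw [div_mul_cancel_left₀ hq, one_div]
  · rw [if_neg h, if_neg (sub_ne_zero.2 h)]; simp

theorem nice (u : ZMod q) (L l R : ℕ) (hl : 1 ≤ l) (hL : L ≤ q) (hR : 1 ≤ R) :
    Nice (trap u L l) ((L : ℝ) / q) (1 + q / l) (q / (l * R)) R := by
  have hq := qpos (q := q)
  have hl' : (0 : ℝ) < l := by exact_mod_cast hl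
  have hR' : (0 : ℝ) < R := by exact_mod_cast hR
  refine ⟨co u L l, inv u L l, co_zero u L l hl, ?_, (tail_co u L l hl R).trans ?_⟩
  · have h1 := tail_co u L l hl 0
    have h2 : univ.filter (fun ξ : ZMod q => ((0 : ℕ) : ℤ) < |ξ.valMinAbs|) = univ.erase 0 := by
      ext ξ; simp
    rw [h2] at h1
    rw [← add_sum_erase _ _ (mem_univ (0 : ZMod q)), co_zero u L l hl, Complex.norm_real,
      Real.norm_eq_abs, abs_of_nonneg (by positivity)]
    have h3 : (L : ℝ) / q ≤ 1 := (div_le_one hq).2 (by exact_mod_cast hL)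
    simp only [Nat.cast_zero, zero_add, mul_one] at h1
    linarith
  · gcongr; linarith

theorem trap_nonneg (u : ZMod q) (L l : ℕ) (n : ZMod q) : 0 ≤ trap u L l n :=
  div_nonneg (sum_nonneg fun _ _ => sum_nonneg fun _ _ => by split_ifs <;> norm_num)
    (Nat.cast_nonneg _)

theorem low (N l : ℕ) (hl : 1 ≤ l) (hN : l ≤ N) (hq : 2 * N ≤ q) (n : ZMod q) :
    trap 1 (N + 1 - l) l n ≤ ind N n := by
  have hl' : (0 : ℝ) < l := by exact_mod_cast hl
  have key : ∀ j < l, ∀ i < N + 1 - l, n = 1 + (i : ZMod q) + (j : ZMod q) → n.val = 1 + i + j := by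
    intro j hj i hi h
    rw [h, show (1 + (i : ZMod q) + (j : ZMod q)) = ((1 + i + j : ℕ) : ZMod q) by push_cast; ring,
      ZMod.val_cast_of_lt (by omega)]
  rw [trap, div_le_iff₀ hl']
  calc _ ≤ ∑ _j ∈ range l, ind N n := by
        refine sum_le_sum fun j hj => ?_
        rw [sum_boole, ind]
        split_ifs with h
        · have : ((range (N + 1 - l)).filter fun i : ℕ =>
              n = 1 + (i : ZMod q) + (j : ZMod q)).card ≤ 1 := by
            refine card_le_one.2 fun a ha b hb => ?_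
            have h1 := key j (mem_range.1 hj) a (mem_range.1 (mem_filter.1 ha).1) (mem_filter.1 ha).2
            have h2 := key j (mem_range.1 hj) b (mem_range.1 (mem_filter.1 hb).1) (mem_filter.1 hb).2
            omega
          exact_mod_cast this
        · rw [filter_eq_empty_iff.2, card_empty, Nat.cast_zero]
          intro i hi h1
          have h2 := key j (mem_range.1 hj) i (mem_range.1 hi) h1
          have h3 := mem_range.1 hi
          have h4 := mem_range.1 hj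
          exact h ⟨by omega, by omega⟩
    _ = _ := by rw [sum_const, card_range, nsmul_eq_mul, mul_comm]

theorem upp (N l : ℕ) (hl : 1 ≤ l) (n : ZMod q) :
    ind N n ≤ trap (2 - (l : ZMod q)) (N + l - 1) l n := by
  have hl' : (0 : ℝ) < l := by exact_mod_cast hl
  rw [ind]
  split_ifs with h
  · rw [trap, le_div_iff₀ hl']
    calc (1 : ℝ) * l = ∑ _j ∈ range l, (1 : ℝ) := by simp
      _ ≤ _ := by
        refine sum_le_sum fun j hj => ?_
        have hj' := mem_range.1 hj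
        obtain ⟨i, hi⟩ : ∃ i : ℕ, i + j + 2 = n.val + l := ⟨n.val + l - 2 - j, by omega⟩
        have h1 : n = 2 - (l : ZMod q) + (i : ZMod q) + (j : ZMod q) := by
          have h2 := congrArg (Nat.cast : ℕ → ZMod q) hi
          push_cast at h2
          rw [ZMod.natCast_zmod_val] at h2
          linear_combination -h2
        refine le_trans ?_ (single_le_sum (f := fun i : ℕ =>
          if n = 2 - (l : ZMod q) + (i : ZMod q) + (j : ZMod q) then (1 : ℝ) else 0)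
          (fun _ _ => by split_ifs <;> norm_num) (mem_range.2 (by omega : i < N + l - 1)))
        rw [if_pos h1]
  · exact trap_nonneg _ _ _ _

end FouA

theorem fou : FOUStmt := by
  intro q _ N l R hl hN hq hR
  refine ⟨FouA.trap 1 (N + 1 - l) l, FouA.trap (2 - (l : ZMod q)) (N + l - 1) l,
    fun n => ⟨FouA.trap_nonneg _ _ _ _, FouA.low N l hl hN hq n, FouA.upp N l hl n⟩, ?_, ?_⟩
  · have := FouA.nice (1 : ZMod q) (N + 1 - l) l R hl (by omega) hR
    rwa [Nat.cast_sub (by omega), Nat.cast_add, Nat.cast_one] at this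
  · have := FouA.nice (2 - (l : ZMod q)) (N + l - 1) l R hl (by omega) hR
    rwa [Nat.cast_sub (by omega), Nat.cast_add, Nat.cast_one] at this

end Pool.Agent.MP_ba281e_nt.SG
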