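import Pool.Agent.MP_ba281e_nt.sg.Spec

/-!
The shift `n ↦ n + M ν y` makes `n ^ 2` linear in `y`; averaging over `y` kills every frequency
without a relation.
-/

set_option autoImplicit false

namespace Pool.Agent.MP_ba281e_nt.SG

open Finset
open scoped Classical

namespace KeyA

variable {q : ℕ} [NeZero q] {ι : Type} [Fintype ι]

theorem choice (M a : ZMod q) (D : ℕ) : ∃ (g : ZMod q → ℕ) (ν : ZMod q → ZMod q), ∀ n,
    Good M a D n → 1 ≤ g (M * n) ∧ g (M * n) ≤ D ∧ M * (2 * a * n * ν (M * n)) = M * g (M * n) := by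
  have : ∀ m : ZMod q, ∃ (g : ℕ) (ν : ZMod q), (∃ n, Good M a D n ∧ M * n = m) →
      1 ≤ g ∧ g ≤ D ∧ 2 * a * m * ν = M * g := by
    intro m
    by_cases h : ∃ n, Good M a D n ∧ M * n = m
    · obtain ⟨n, ⟨g, h1, h2, ν, h3⟩, rfl⟩ := h
      exact ⟨g, ν, fun _ => ⟨h1, h2, by linear_combination h3⟩⟩
    · exact ⟨0, 0, fun h' => absurd h' h⟩
  choose g ν H using this
  refine ⟨g, ν, fun n hn => ?_⟩
  obtain ⟨h1, h2, h3⟩ := H _ ⟨n, hn, rfl⟩
  exact ⟨h1, h2, by linear_combination h3⟩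

theorem choice' (M a : ZMod q) (D : ℕ) : ∃ (G : (ι → ZMod q) → ℕ) (μ : (ι → ZMod q) → ι → ZMod q),
    ∀ n : ι → ZMod q, (∀ i, Good M a D (n i)) →
      1 ≤ G (fun i => M * n i) ∧ G (fun i => M * n i) ≤ D ^ Fintype.card ι ∧
        ∀ i, M * (2 * a * n i * μ (fun i => M * n i) i) = M * G (fun i => M * n i) := by
  obtain ⟨g, ν, H⟩ := choice M a D
  refine ⟨fun m => ∏ j, g (m j), fun m i => ν (m i) * ∏ j ∈ univ.erase i, (g (m j) : ZMod q),
    fun n hn => ⟨?_, ?_, fun i => ?_⟩⟩
  · exact one_le_prod' fun j _ => (H _ (hn j)).1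
  · exact (prod_le_pow_card _ _ D fun j _ => (H _ (hn j)).2.1).trans (by simp)
  · have e := mul_prod_erase univ (fun j => (g (M * n j) : ZMod q)) (mem_univ i)
    push_cast
    rw [← e]
    linear_combination (∏ j ∈ univ.erase i, (g (M * n j) : ZMod q)) * (H _ (hn i)).2.2

omit [NeZero q] in
theorem good_shift {M a : ZMod q} {D : ℕ} (hM : M * M = 0) {n : ZMod q} (h : Good M a D n)
    (w : ZMod q) : Good M a D (n + M * w) := by
  obtain ⟨g, h1, h2, ν, h3⟩ := h
  exact ⟨g, h1, h2, ν, by linear_combination h3 + 2 * a * w * ν * hM⟩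

theorem tail (c : ZMod q → ℝ) (hc : ∀ x, 0 ≤ c x) (big : ZMod q → Prop) [DecidablePred big]
    {A B : ℝ} (hA1 : 1 ≤ A)
    (hA : ∑ x, c x ≤ A) (hB : ∑ x ∈ univ.filter big, c x ≤ B) (S : Finset (ι → ZMod q))
    (hS : ∀ ξ ∈ S, ∃ i, big (ξ i)) :
    ∑ ξ ∈ S, ∏ i, c (ξ i) ≤ Fintype.card ι * B * A ^ Fintype.card ι := by
  have hB0 : 0 ≤ B := (sum_nonneg fun x _ => hc x).trans hB
  have h1 : ∀ i : ι, ∑ ξ : ι → ZMod q, (if big (ξ i) then ∏ j, c (ξ j) else 0) ≤
      B * A ^ Fintype.card ι := by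
    intro i
    have e : ∀ ξ : ι → ZMod q, (if big (ξ i) then ∏ j, c (ξ j) else 0) =
        ∏ j, (if j = i then (if big (ξ j) then c (ξ j) else 0) else c (ξ j)) := by
      intro ξ
      rw [← mul_prod_erase univ _ (mem_univ i), ← mul_prod_erase univ
        (fun j => if j = i then (if big (ξ j) then c (ξ j) else 0) else c (ξ j)) (mem_univ i),
        if_pos rfl, prod_congr rfl fun j hj => if_neg (ne_of_mem_erase hj)]
      split_ifs <;> simp
    simp only [e]
    rw [← Fintype.piFinset_univ, ← prod_univ_sum (fun _ => univ)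
      (fun j x => if j = i then (if big x then c x else 0) else c x),
      ← mul_prod_erase univ _ (mem_univ i)]
    refine mul_le_mul ?_ ?_ (prod_nonneg fun j _ => sum_nonneg fun x _ => ?_) hB0
    · simp only [if_true]
      rwa [← sum_filter]
    · refine (prod_le_prod (g := fun _ => A) (fun j _ => sum_nonneg fun x _ => ?_)
        fun j hj => ?_).trans ?_
      · split_ifs <;> first | exact hc _ | rfl
      · simp only [if_neg (ne_of_mem_erase hj)]; exact hA
      · rw [prod_const]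
        exact pow_le_pow_right₀ hA1 ((card_le_card (erase_subset _ _)).trans (by simp))
    · split_ifs <;> first | exact hc _ | rfl
  have h0 : ∀ ξ : ι → ZMod q, 0 ≤ ∏ j, c (ξ j) := fun ξ => prod_nonneg fun j _ => hc _
  calc ∑ ξ ∈ S, ∏ i, c (ξ i)
      ≤ ∑ ξ ∈ S, ∑ i, (if big (ξ i) then ∏ j, c (ξ j) else 0) := by
        refine sum_le_sum fun ξ hξ => ?_
        obtain ⟨i, hi⟩ := hS ξ hξ
        refine le_trans (by rw [if_pos hi]) (single_le_sum
          (f := fun i => if big (ξ i) then ∏ j, c (ξ j) else 0) (fun j _ => ?_) (mem_univ i))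
        split_ifs <;> first | exact h0 _ | rfl
    _ ≤ ∑ ξ : ι → ZMod q, ∑ i, (if big (ξ i) then ∏ j, c (ξ j) else 0) :=
        sum_le_sum_of_subset_of_nonneg (subset_univ _) fun ξ _ _ => sum_nonneg fun j _ => by
          split_ifs <;> first | exact h0 _ | rfl
    _ ≤ _ := by
        rw [sum_comm]
        refine (sum_le_sum fun i _ => h1 i).trans ?_
        rw [sum_const, card_univ, nsmul_eq_mul, mul_assoc]

theorem avg {f : ZMod q → ℝ} {p A B : ℝ} {R : ℕ} (hA1 : 1 ≤ A) (hf : Nice f p A B R)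
    (n w : ι → ZMod q) (Q : Prop)
    (hQ : ∀ ξ : ι → ℤ, ξ ≠ 0 → (∀ i, |ξ i| ≤ R) → ∑ i, (ξ i : ZMod q) * w i = 0 → Q) :
    |∑ y : ZMod q, ∏ i, f (n i + w i * y) - q * p ^ Fintype.card ι| ≤
      q * (A ^ Fintype.card ι * (Fintype.card ι * B + if Q then 1 else 0)) := by
  obtain ⟨c, h1, h2, h3, h4⟩ := hf
  have hB0 : 0 ≤ B := (sum_nonneg fun x _ => norm_nonneg _).trans h4
  set S := (univ.erase (0 : ι → ZMod q)).filter fun ξ => ∑ i, ξ i * w i = 0 with hS
  have e : ((∑ y : ZMod q, ∏ i, f (n i + w i * y) - q * p ^ Fintype.card ι : ℝ) : ℂ) =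
      q * ∑ ξ ∈ S, ∏ i, c (ξ i) * ZMod.stdAddChar (ξ i * n i) := by
    push_cast
    simp only [h1]
    have e1 : ∀ y : ZMod q, ∏ i, ∑ x, c x * ZMod.stdAddChar (x * (n i + w i * y)) =
        ∑ ξ : ι → ZMod q, (∏ i, c (ξ i) * ZMod.stdAddChar (ξ i * n i)) *
          ZMod.stdAddChar (y * ∑ i, ξ i * w i) := by
      intro y
      rw [prod_univ_sum, Fintype.piFinset_univ]
      refine sum_congr rfl fun ξ _ => ?_
      have e2 : ZMod.stdAddChar (y * ∑ i, ξ i * w i) =
          ∏ i, ZMod.stdAddChar (y * (ξ i * w i)) := by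
        rw [mul_sum]
        induction (univ : Finset ι) using Finset.induction_on with
        | empty => simp
        | insert i s hi ih => rw [sum_insert hi, prod_insert hi, AddChar.map_add_eq_mul, ih]
      rw [e2, ← prod_mul_distrib]
      refine prod_congr rfl fun i _ => ?_
      rw [mul_assoc, ← AddChar.map_add_eq_mul]
      congr 2; ring
    simp only [e1]
    rw [sum_comm]
    simp only [← mul_sum, AddChar.sum_mulShift _ (ZMod.isPrimitive_stdAddChar q), ZMod.card]
    rw [← add_sum_erase _ _ (mem_univ (0 : ι → ZMod q)), hS, sum_filter, mul_sum]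
    simp only [Pi.zero_apply, zero_mul, AddChar.map_zero_eq_one, mul_one, h2, prod_const,
      card_univ, sum_const_zero, if_true]
    rw [mul_comm _ (q : ℂ), add_sub_cancel_left]
    refine sum_congr rfl fun ξ _ => ?_
    split_ifs <;> simp [mul_comm]
  have hq : (0 : ℝ) ≤ q := by positivity
  rw [← Real.norm_eq_abs, ← Complex.norm_real, e, norm_mul, Complex.norm_natCast]
  refine mul_le_mul_of_nonneg_left ((norm_sum_le _ _).trans ?_) hq
  have e3 : ∀ ξ : ι → ZMod q, ‖∏ i, c (ξ i) * ZMod.stdAddChar (ξ i * n i)‖ = ∏ i, ‖c (ξ i)‖ := by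
    intro ξ
    rw [norm_prod]
    exact prod_congr rfl fun i _ => by rw [norm_mul, AddChar.norm_apply, mul_one]
  simp only [e3]
  have hAk : 0 ≤ A ^ Fintype.card ι := by positivity
  split_ifs with h
  · refine (sum_le_sum_of_subset_of_nonneg (subset_univ _) fun ξ _ _ =>
      prod_nonneg fun i _ => norm_nonneg _).trans ?_
    rw [← Fintype.piFinset_univ, ← prod_univ_sum (fun _ => univ) (fun _ x => ‖c x‖), prod_const,
      card_univ]
    refine (pow_le_pow_left₀ (sum_nonneg fun x _ => norm_nonneg _) h3 _).trans ?_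
    exact le_mul_of_one_le_right hAk (le_add_of_nonneg_left (by positivity))
  · refine (tail (fun x => ‖c x‖) (fun x => norm_nonneg _) _ hA1 h3 h4 S fun ξ hξ => ?_).trans
      (le_of_eq (by ring))
    by_contra hc
    push Not at hc
    obtain ⟨a1, a2⟩ := mem_filter.1 hξ
    refine h (hQ (fun i => (ξ i).valMinAbs) (fun h0 => ne_of_mem_erase a1 ?_) hc ?_)
    · funext i
      exact (ZMod.valMinAbs_eq_zero _).1 (congrFun h0 i)
    · simpa only [ZMod.coe_valMinAbs] using a2

end KeyA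

open KeyA in
theorem key : KEYStmt := by
  intro q _ M a D R ι _ h f p A B ρ hM hA hf hρ
  obtain ⟨G, μ, H⟩ := choice' (ι := ι) M a D
  set T : Finset (ZMod q × (ι → ZMod q)) :=
    univ.filter fun z => ∀ i, z.2 i ∈ rts M a D (z.1 + h i) with hT
  have hmem : ∀ z, z ∈ T ↔ z.1 ∈ (univ : Finset (ZMod q)) ∧
      z.2 ∈ Fintype.piFinset fun i => rts M a D (z.1 + h i) := by
    intro z; simp [hT]
  have hsum : ∀ F : ZMod q → ℝ, ∑ t : ZMod q, ∏ i, Zf M a D F (t + h i) =
      ∑ z ∈ T, ∏ i, F (z.2 i) := by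
    intro F
    rw [sum_finset_product T univ (fun t => Fintype.piFinset fun i => rts M a D (t + h i)) hmem]
    exact sum_congr rfl fun t _ => prod_univ_sum _ _
  let sh : ZMod q → ZMod q × (ι → ZMod q) → ZMod q × (ι → ZMod q) := fun y z =>
    (z.1 + M * G (fun i => M * z.2 i) * y, fun i => z.2 i + M * μ (fun i => M * z.2 i) i * y)
  have hinv : ∀ y z, (fun i => M * (sh y z).2 i) = fun i => M * z.2 i := by
    intro y z; funext i
    simp only [sh]
    linear_combination (μ (fun i => M * z.2 i) i * y) * hM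
  have hsh : ∀ y, ∀ z ∈ T, sh y z ∈ T := by
    intro y z hz
    have hz' := fun i => mem_rts.1 ((mem_filter.1 hz).2 i)
    refine mem_filter.2 ⟨mem_univ _, fun i => mem_rts.2 ⟨?_, ?_⟩⟩
    · simp only [sh, mul_assoc]
      exact good_shift hM (hz' i).1 _
    · simp only [sh]
      linear_combination (hz' i).2 + y * (H z.2 fun i => (hz' i).1).2.2 i +
        a * (μ (fun i => M * z.2 i) i * y) ^ 2 * hM
  have hback : ∀ y z, sh (-y) (sh y z) = z := by
    intro y z
    refine Prod.ext ?_ (funext fun i => ?_)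
    · change (sh y z).1 + M * G (fun i => M * (sh y z).2 i) * (-y) = z.1
      rw [hinv]; simp only [sh]; ring
    · change (sh y z).2 i + M * μ (fun i => M * (sh y z).2 i) i * (-y) = z.2 i
      rw [hinv]; simp only [sh]; ring
  have hshift : ∀ y, ∑ z ∈ T, ∏ i, f ((sh y z).2 i) = ∑ z ∈ T, ∏ i, f (z.2 i) := fun y =>
    sum_nbij' (sh y) (sh (-y)) (hsh y) (hsh (-y)) (fun z _ => hback y z)
      (fun z _ => by simpa using hback (-y) z) fun _ _ => rfl
  have hq : (0 : ℝ) < q := by exact_mod_cast Nat.pos_of_ne_zero (NeZero.ne q)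
  have hρ0 : 0 ≤ ρ := le_trans (by positivity) (hρ 0)
  have hB0 : 0 ≤ B := by
    obtain ⟨c, -, -, -, h4⟩ := hf
    exact (sum_nonneg fun x _ => norm_nonneg _).trans h4
  have e : (q : ℝ) * (∑ z ∈ T, ∏ i, f (z.2 i) - p ^ Fintype.card ι * ∑ z ∈ T, ∏ _i : ι, (1 : ℝ)) =
      ∑ z ∈ T, (∑ y : ZMod q, ∏ i, f (z.2 i + M * μ (fun i => M * z.2 i) i * y) -
        q * p ^ Fintype.card ι) := by
    rw [sum_sub_distrib, sum_comm, sum_congr rfl fun y _ => hshift y]
    simp only [sum_const, card_univ, ZMod.card, nsmul_eq_mul, prod_const_one]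
    ring
  rw [hsum, hsum]
  refine le_of_mul_le_mul_left ?_ hq
  rw [← abs_of_pos hq, ← abs_mul, e, abs_of_pos hq]
  refine (abs_sum_le_sum_abs _ _).trans ?_
  refine (sum_le_sum (g := fun z => q * (A ^ Fintype.card ι *
    (Fintype.card ι * B + if Rel M a D R h z.1 then 1 else 0))) fun z hz => ?_).trans ?_
  · have hz' := fun i => mem_rts.1 ((mem_filter.1 hz).2 i)
    obtain ⟨g1, g2, g3⟩ := H z.2 fun i => (hz' i).1
    refine avg hA hf z.2 _ _ fun ξ h1 h2 h3 => ⟨z.2, ξ, _, h1, h2, g1, g2, fun i => (hz' i).2, ?_⟩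
    have h4 := congrArg (fun x => x * ∏ j, (2 * a * z.2 j)) h3
    simp only [zero_mul, sum_mul] at h4
    rw [mul_sum, ← h4]
    refine sum_congr rfl fun i _ => ?_
    rw [← mul_prod_erase univ (fun j => 2 * a * z.2 j) (mem_univ i), ← g3 i]
    ring
  · rw [← mul_sum, ← mul_sum]
    refine mul_le_mul_of_nonneg_left ?_ hq.le
    rw [mul_comm (ρ ^ _), mul_assoc]
    refine mul_le_mul_of_nonneg_left ?_ (by positivity)
    rw [sum_finset_product T univ (fun t => Fintype.piFinset fun i => rts M a D (t + h i)) hmem]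
    refine (sum_le_sum (g := fun t => ρ ^ Fintype.card ι *
      (Fintype.card ι * B + if Rel M a D R h t then 1 else 0)) fun t _ => ?_).trans (le_of_eq ?_)
    · refine le_trans (le_of_eq (sum_const
        (Fintype.card ι * B + if Rel M a D R h t then (1 : ℝ) else 0))) ?_
      rw [nsmul_eq_mul]
      refine mul_le_mul_of_nonneg_right ?_ (by split_ifs <;> positivity)
      rw [Fintype.card_piFinset]
      push_cast
      exact (prod_le_prod (fun i _ => by positivity) fun i _ => hρ _).trans (by simp)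
    · rw [← mul_sum, sum_add_distrib, sum_boole]
      simp only [sum_const, card_univ, ZMod.card, nsmul_eq_mul]
      ring

end Pool.Agent.MP_ba281e_nt.SG
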