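import Pool.Agent.MP_ba281e_nt.sg.Spec

/-! PROJECT SG: the moments. -/

set_option autoImplicit false

namespace Pool.Agent.MP_ba281e_nt.SG

open Finset
open scoped Classical

namespace MomA

section
variable {q : ℕ} [NeZero q] (M a : ZMod q) (D W k : ℕ)

theorem mono {f g : ZMod q → ℝ} (h0 : ∀ n, 0 ≤ f n) (h : ∀ n, f n ≤ g n) :
    mom M a D W k f ≤ mom M a D W k g :=
  sum_le_sum fun _ _ => sum_le_sum fun _ _ =>
    prod_le_prod (fun _ _ => sum_nonneg fun n _ => h0 n) fun _ _ => sum_le_sum fun n _ => h n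

theorem nn : 0 ≤ mom M a D W k fun _ => 1 :=
  sum_nonneg fun _ _ => sum_nonneg fun _ _ => prod_nonneg fun _ _ => sum_nonneg fun _ _ => zero_le_one

theorem swap (f : ZMod q → ℝ) (p b : ℝ) (hb : 0 ≤ b)
    (h : ∀ S ∈ powersetCard k (range W), |∑ t : ZMod q, ∏ i : S, Zf M a D f (t + (i.1 : ℕ)) -
      p ^ k * ∑ t : ZMod q, ∏ i : S, Zf M a D (fun _ => 1) (t + (i.1 : ℕ))| ≤ b) :
    |mom M a D W k f - p ^ k * mom M a D W k fun _ => 1| ≤ (W : ℝ) ^ k * b := by
  unfold mom es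
  rw [sum_comm, sum_comm (s := univ), mul_sum, ← sum_sub_distrib]
  refine (abs_sum_le_sum_abs _ _).trans ((sum_le_card_nsmul _ _ b fun S hS => ?_).trans ?_)
  · have e : ∀ (g : ZMod q → ℝ) (t : ZMod q), ∏ i : S, Zf M a D g (t + (i.1 : ℕ)) =
        ∏ i ∈ S, Zf M a D g (t + i) := fun g t => prod_coe_sort S fun i : ℕ => Zf M a D g (t + i)
    simpa only [e] using h S hS
  · rw [nsmul_eq_mul, card_powersetCard, card_range]
    exact mul_le_mul_of_nonneg_right (by exact_mod_cast Nat.choose_le_pow W k) hb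

end

theorem cnt {X q k d c D : ℕ} (hX : 3 ≤ X) (hD : D ≤ X) (hL : X ^ ((3 * k + 8) * k + 2) ≤ q)
    (h : c ≤ D ^ k * (2 * X ^ (3 * k + 3) + 1) ^ k * (d * (q / X ^ ((3 * k + 8) * k + 2) + 1))) :
    c * X ^ (3 * k + 2) ≤ 2 * d * q := by
  have p1 : 0 < X ^ (3 * k + 3) := by positivity
  have a1 : 2 * X ^ (3 * k + 3) + 1 ≤ X ^ (3 * k + 4) := by
    rw [pow_succ X (3 * k + 3)]
    nlinarith
  have a2 := Nat.div_mul_le_self q (X ^ ((3 * k + 8) * k + 2))
  refine Nat.le_of_mul_le_mul_left (c := X ^ k * (X ^ (3 * k + 4)) ^ k) ?_ (by positivity)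
  calc X ^ k * (X ^ (3 * k + 4)) ^ k * (c * X ^ (3 * k + 2)) = c * X ^ ((3 * k + 8) * k + 2) := by
        ring
    _ ≤ X ^ k * (X ^ (3 * k + 4)) ^ k * (d * (q / X ^ ((3 * k + 8) * k + 2) + 1)) *
        X ^ ((3 * k + 8) * k + 2) := Nat.mul_le_mul_right _ (h.trans (by gcongr))
    _ = X ^ k * (X ^ (3 * k + 4)) ^ k * (d * (q / X ^ ((3 * k + 8) * k + 2) *
        X ^ ((3 * k + 8) * k + 2) + X ^ ((3 * k + 8) * k + 2))) := by ring
    _ ≤ X ^ k * (X ^ (3 * k + 4)) ^ k * (d * (q + q)) := by gcongr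
    _ = _ := by ring

theorem cont (k : ℕ) (c θ : ℝ) (hθ : 0 < θ) : ∃ η : ℝ, 0 < η ∧ ∀ u y : ℝ, |u| < η → |y - c| < η →
    c ^ k / k.factorial - θ ≤ (y * (1 - u) * (1 - 3 * u)) ^ k / k.factorial - u ∧
    (y * (1 + u)) ^ k * ((1 + u) ^ k + 2 * u) / k.factorial + u ≤ c ^ k / k.factorial + θ := by
  have c1 : Continuous fun z : ℝ × ℝ =>
      ((z.2 * (1 - z.1) * (1 - 3 * z.1)) ^ k / k.factorial - z.1,
        (z.2 * (1 + z.1)) ^ k * ((1 + z.1) ^ k + 2 * z.1) / k.factorial + z.1) := by fun_prop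
  obtain ⟨η, h0, h⟩ := Metric.continuousAt_iff.1 (c1.continuousAt (x := (0, c))) θ hθ
  refine ⟨η, h0, fun u y hu hy => ?_⟩
  have := h (x := (u, y)) (by simpa [Prod.dist_eq, Real.dist_eq] using ⟨hu, hy⟩)
  simp only [Prod.dist_eq, Real.dist_eq, max_lt_iff, abs_lt, sub_zero, mul_one, mul_zero, add_zero,
    one_pow] at this
  exact ⟨by linarith [this.1.1], by linarith [this.2.2]⟩

end MomA

open MomA

theorem err (h1 : KEYStmt) (h2 : RELStmt) (h3 : ARIStmt) : ERRStmt := by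
  intro k A
  obtain ⟨d, hd⟩ : ∃ d, d = 2 ^ k * k := ⟨_, rfl⟩
  obtain ⟨l, hl⟩ : ∃ l, l = (3 * k + 8) * k + 2 := ⟨_, rfl⟩
  refine ⟨(A + 3) * (k + (4 * k + 3) * 2 ^ k + l * d ^ 2 + l) + 1, k + 2 * d + 3,
    (A + 3) * (3 * k + 3), fun x q _ B s r N W a f p E E' hx hB P hW hE hE1 hE' hf => ?_⟩
  have x1 : 1 ≤ x := by omega
  obtain ⟨X, hX⟩ : ∃ X, X = x ^ (A + 3) := ⟨_, rfl⟩
  have pw : ∀ j ≤ A + 3, x ^ j ≤ X := fun j hj => hX ▸ Nat.pow_le_pow_right x1 hj
  have xX : x ≤ X := by simpa using pw 1 (by omega)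
  have X3 : 3 ≤ X := by omega
  have w2 : 2 * W ≤ X := by
    have := pw (A + 2) (by omega)
    rw [pow_succ] at this
    nlinarith
  have sb : X ^ (k + (4 * k + 3) * 2 ^ k + l * d ^ 2 + l) < s := by
    rw [hX, ← pow_mul]
    exact (Nat.pow_lt_pow_right (by omega) (by omega)).trans_le P.big
  have q0 := NeZero.ne q
  have sq : s ≤ q := Nat.le_of_dvd (by omega) ⟨s * r, by rw [P.hq, mul_assoc]⟩
  have Lq : X ^ l ≤ q := (Nat.pow_le_pow_right (by omega) (by omega)).trans (sb.le.trans sq)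
  rw [pow_mul, ← hX] at hf
  have eR : (x : ℝ) ^ ((A + 3) * (3 * k + 3)) = (X : ℝ) ^ (3 * k + 3) := by
    rw [hX, pow_mul, Nat.cast_pow]
  have EX : E ≤ X := hE1.trans (by exact_mod_cast pw _ (by omega))
  have X0 : (0 : ℝ) < X := by exact_mod_cast (by omega : 0 < X)
  have x0 : (0 : ℝ) < x := by exact_mod_cast x1
  have qr : (0 : ℝ) ≤ q := Nat.cast_nonneg _
  have e1 : E' ≤ 1 / (X : ℝ) ^ (3 * k + 2) := by
    rw [eR] at hE'
    refine hE'.trans ((div_le_div_of_nonneg_right EX (by positivity)).trans_eq ?_)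
    field_simp
    ring
  refine (swap _ _ _ W k f p ((X : ℝ) ^ k * X ^ k * ((k + 2 * d) * q / X ^ (3 * k + 2)))
    (by positivity) fun S hS => ?_).trans ?_
  · obtain ⟨s1, s2⟩ := mem_powersetCard.1 hS
    have ck : Fintype.card S = k := by rw [Fintype.card_coe, s2]
    have a1 := h1 q ((s * r : ℕ) : ZMod q) (a : ZMod q) (x ^ 2) (X ^ (3 * k + 3)) S (fun i => i.1) f
      p E E' X (by
        rw [← Nat.cast_mul, show s * r * (s * r) = q * r by rw [P.hq]; ring, Nat.cast_mul,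
          ZMod.natCast_self, zero_mul]) hE hf fun u => by
        exact_mod_cast ((h3 q s r (x ^ 2) a P.hq P.sqf P.cop).1 u).trans
          ((Nat.mul_le_mul_right _ P.tau).trans ((pow_succ' x 2).ge.trans (pw 3 (by omega))))
    have a2 := h2 q s (s * r) (x ^ 2) (X ^ (3 * k + 3)) W (X ^ l) (a : ZMod q) S (fun i => i.1)
      (by rw [P.hq, mul_assoc]) Subtype.val_injective (fun i => mem_range.1 (s1 i.2))
      (Nat.one_le_pow _ _ (by omega)) (by
        rw [ck, ← hd]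
        refine lt_of_le_of_lt ?_ sb
        have := pw 2 (by omega)
        calc _ ≤ X ^ k * (X ^ (3 * k + 3) * X ^ k) ^ 2 ^ k * (X ^ l) ^ d ^ 2 := by gcongr
          _ = X ^ (k + (4 * k + 3) * 2 ^ k + l * d ^ 2) := by
            rw [← pow_add, ← pow_mul, ← pow_mul, ← pow_add, ← pow_add]
            congr 3
            ring
          _ ≤ _ := Nat.pow_le_pow_right (by omega) (by omega))
    rw [ck] at a1 a2
    rw [← hd, hl] at a2
    have a3 := cnt X3 (pw 2 (by omega)) (hl ▸ Lq) a2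
    generalize (univ.filter fun t : ZMod q => Rel ((s * r : ℕ) : ZMod q) (a : ZMod q) (x ^ 2)
      (X ^ (3 * k + 3)) (fun i : S => i.1) t).card = c at a1 a3
    have a4 : (c : ℝ) ≤ 2 * d * q / X ^ (3 * k + 2) := by
      rw [le_div_iff₀ (by positivity)]
      exact_mod_cast a3
    have a5 : (q : ℝ) * k * E' + c ≤ (k + 2 * d) * q / X ^ (3 * k + 2) :=
      (add_le_add (mul_le_mul_of_nonneg_left e1 (by positivity)) a4).trans_eq (by ring)
    have E0 : 0 ≤ E := by linarith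
    refine a1.trans ((mul_le_mul_of_nonneg_left a5 (by positivity)).trans ?_)
    gcongr
  · have b1 : (W : ℝ) ≤ X := by exact_mod_cast (by omega : W ≤ X)
    have b2 : (k + 2 * d : ℝ) ≤ X := by exact_mod_cast (by omega : k + 2 * d ≤ X)
    have b3 : (x : ℝ) ≤ X := by exact_mod_cast xX
    calc _ ≤ (X : ℝ) ^ k * (X ^ k * X ^ k * (X * q / X ^ (3 * k + 2))) := by gcongr
      _ = q / X := by field_simp; ring
      _ ≤ _ := by gcongr

theorem momS (h0 : FOUStmt) (h1 : ERRStmt) (h2 : RHOStmt) : MOMStmt := by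
  intro k A hA
  obtain ⟨B₀, x₀, e, hE⟩ := h1 k A
  refine ⟨B₀ + A + 1, fun c θ hc hθ => ?_⟩
  obtain ⟨η, η0, hη⟩ := cont k c θ hθ
  obtain ⟨x₁, hx₁⟩ := exists_nat_gt (1 / η + 4 * c + 2 / c)
  refine ⟨x₀ + x₁ + k + 5, min (η / 2) (c / 2), by positivity,
    fun x q _ B s r N W a hx hB P hy => ?_⟩
  have x1 : 1 ≤ x := by omega
  have q0 := NeZero.ne q
  have r0 : 0 < r := Nat.pos_of_ne_zero P.sqf.ne_zero
  have xA : 0 < x ^ A := by positivity
  have n1 : x ^ (A + 2) ≤ N := by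
    rw [P.hN, Nat.le_div_iff_mul_le xA, P.hq, show x ^ (A + 2) * x ^ A = x ^ (A + 1) * x ^ (A + 1) * 1
      by ring]
    have := (Nat.pow_le_pow_right x1 (show A + 1 ≤ B by omega)).trans P.big
    gcongr
    exact r0
  have xN : x ≤ N := (Nat.le_self_pow (by omega) x).trans n1
  have n2 : N * x ^ A ≤ q := P.hN ▸ Nat.div_mul_le_self _ _
  have n3 : q ≤ 2 * N * x ^ A := by
    have := Nat.lt_mul_div_succ q xA
    rw [← P.hN] at this
    exact this.le.trans ((Nat.mul_le_mul_left _ (by omega)).trans_eq (mul_comm _ _))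
  obtain ⟨l, hl⟩ : ∃ l, l = N / x := ⟨_, rfl⟩
  have l1 : 1 ≤ l := hl ▸ (Nat.le_div_iff_mul_le x1).2 (by omega)
  have l2 : l * x ≤ N := hl ▸ Nat.div_mul_le_self _ _
  have l3 : N ≤ 2 * l * x := by
    have := Nat.lt_mul_div_succ N x1
    rw [← hl] at this
    exact this.le.trans ((Nat.mul_le_mul_left _ (by omega)).trans_eq (mul_comm _ _))
  have n4 : 2 * N ≤ q := by
    have := Nat.le_self_pow (show A ≠ 0 by omega) x
    exact ((mul_comm _ _).trans_le (Nat.mul_le_mul_left _ (by omega))).trans n2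
  obtain ⟨f, g, fg, hf, hg⟩ := h0 q N l (x ^ e) l1 ((Nat.le_mul_of_pos_right l x1).trans l2) n4
    (Nat.one_le_pow _ _ x1)
  have X5 : (5 : ℝ) ≤ x := by exact_mod_cast (by omega : 5 ≤ x)
  have Xk : (k : ℝ) ≤ x := by exact_mod_cast (by omega : k ≤ x)
  have X1 : 1 / η + 4 * c + 2 / c < x := hx₁.trans_le (by exact_mod_cast (by omega : x₁ ≤ x))
  have X0 : (0 : ℝ) < x := by linarith
  have Q0 : (0 : ℝ) < q := by positivity
  have N0 : (0 : ℝ) < N := by exact_mod_cast (by omega : 0 < N)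
  have L1 : (1 : ℝ) ≤ l := by exact_mod_cast l1
  have N2 : (N : ℝ) * x ^ A ≤ q := by exact_mod_cast n2
  have N3 : (q : ℝ) ≤ 2 * N * x ^ A := by exact_mod_cast n3
  have L2 : (l : ℝ) * x ≤ N := by exact_mod_cast l2
  have L3 : (N : ℝ) ≤ 2 * l * x := by exact_mod_cast l3
  have XA : (0 : ℝ) < x ^ A := by positivity
  obtain ⟨y, ey⟩ : ∃ y, y = (W : ℝ) * N / q := ⟨_, rfl⟩
  rw [← ey] at hy
  have y1 := abs_le.1 (hy.trans (min_le_right _ _))
  have y2 : |y - c| < η := (hy.trans (min_le_left _ _)).trans_lt (by linarith)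
  have y3 : (W : ℝ) * N = y * q := by rw [ey]; field_simp
  have i1 : 0 < 1 / η := by positivity
  have i2 : 0 < 2 / c := by positivity
  have i3 : 2 ≤ c * x := by
    have : 2 / c ≤ x := by linarith
    rw [div_le_iff₀ hc] at this
    linarith
  have w1 : (W : ℝ) ≤ x ^ (A + 1) := by
    refine le_of_mul_le_mul_right ?_ N0
    calc (W : ℝ) * N = y * q := y3
      _ ≤ (2 * c) * (2 * N * x ^ A) := mul_le_mul (by linarith) N3 Q0.le (by linarith)
      _ = x ^ A * (4 * c) * N := by ring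
      _ ≤ x ^ A * x * N := by gcongr; linarith
      _ = _ := by ring
  have w2 : (x : ℝ) ^ (3 * k + 6) ≤ W := by
    refine le_of_mul_le_mul_right ?_ (mul_pos N0 X0)
    calc (x : ℝ) ^ (3 * k + 6) * (N * x) = N * x ^ (3 * k + 7) * 1 := by ring
      _ ≤ N * x ^ A * (y * x) := by
        have := pow_le_pow_right₀ (show (1 : ℝ) ≤ x by linarith) hA
        gcongr
        linarith [mul_le_mul_of_nonneg_right (show c / 2 ≤ y by linarith) X0.le]
      _ ≤ q * (y * x) := mul_le_mul_of_nonneg_right N2 (mul_nonneg (by linarith) X0.le)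
      _ = _ := by linear_combination (-x : ℝ) * y3
  have W0 : (0 : ℝ) < W := lt_of_lt_of_le (by positivity) w2
  have E1 : (1 : ℝ) ≤ 1 + q / l := le_add_of_nonneg_right (by positivity)
  have E2 : (1 : ℝ) + q / l ≤ x ^ (A + 2) := by
    have a1 : (q : ℝ) / l ≤ 4 * x ^ (A + 1) := by
      rw [div_le_iff₀ (by linarith), pow_succ]
      linarith [mul_le_mul_of_nonneg_right L3 XA.le]
    have a2 := one_le_pow₀ (n := A + 1) (show (1 : ℝ) ≤ x by linarith)
    rw [pow_succ _ (A + 1)]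
    linarith [mul_le_mul_of_nonneg_left X5 (zero_le_one.trans a2)]
  have E3 : (q : ℝ) / (l * (x ^ e : ℕ)) ≤ (1 + q / l) / (x : ℝ) ^ e := by
    rw [← div_div, Nat.cast_pow]
    exact div_le_div_of_nonneg_right (by linarith) (by positivity)
  have wN : W ≤ x ^ (A + 1) := by exact_mod_cast w1
  have f1 := abs_le.1 (hE x q B s r N W a f _ _ _ (by omega) (by omega) P wN E1 E2 E3 hf)
  have g1 := abs_le.1 (hE x q B s r N W a g _ _ _ (by omega) (by omega) P wN E1 E2 E3 hg)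
  obtain ⟨r1, r2⟩ := h2 q s r (x ^ 2) W k a x (1 / x) P.hq P.sqf P.cop (by exact_mod_cast P.tau)
    (Nat.one_le_pow _ _ x1) (by exact_mod_cast W0) (by positivity)
  have m1 := mono ((s * r : ℕ) : ZMod q) (a : ZMod q) (x ^ 2) W k (fun n => (fg n).1)
    fun n => (fg n).2.1
  have m2 := mono ((s * r : ℕ) : ZMod q) (a : ZMod q) (x ^ 2) W k
    (fun n => (fg n).1.trans (fg n).2.1) fun n => (fg n).2.2
  have m0 := nn ((s * r : ℕ) : ZMod q) (a : ZMod q) (x ^ 2) W k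
  generalize mom ((s * r : ℕ) : ZMod q) (a : ZMod q) (x ^ 2) W k = m at *
  obtain ⟨u, hu⟩ : ∃ u, u = 1 / (x : ℝ) := ⟨_, rfl⟩
  have u0 : 0 < u := by rw [hu]; positivity
  have u1 : u * x = 1 := by rw [hu]; field_simp
  have u2 : u ≤ 1 / 5 := by linarith [mul_le_mul_of_nonneg_left X5 u0.le]
  obtain ⟨t1, t2⟩ := hη u y (by
    rw [abs_of_pos u0, hu, one_div_lt X0 η0]
    linarith) y2
  have K0 : (0 : ℝ) < k.factorial := by positivity
  have lu : (l : ℝ) ≤ N * u := by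
    have := mul_le_mul_of_nonneg_right L2 u0.le
    rwa [mul_assoc, mul_comm (x : ℝ), u1, mul_one] at this
  have p1 : y * (1 - u) ≤ ((N : ℝ) + 1 - l) / q * W := by
    rw [ey, div_mul_eq_mul_div, div_mul_eq_mul_div]
    exact div_le_div_of_nonneg_right (by linarith [mul_le_mul_of_nonneg_left lu W0.le]) Q0.le
  have p2 : ((N : ℝ) + l - 1) / q * W ≤ y * (1 + u) := by
    rw [ey, div_mul_eq_mul_div, div_mul_eq_mul_div]
    exact div_le_div_of_nonneg_right (by linarith [mul_le_mul_of_nonneg_left lu W0.le]) Q0.le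
  have p3 : 0 ≤ ((N : ℝ) + 1 - l) / q :=
    div_nonneg (by linarith [mul_le_mul_of_nonneg_left u2 N0.le]) Q0.le
  have p4 : 0 ≤ ((N : ℝ) + l - 1) / q := div_nonneg (by linarith) Q0.le
  generalize ((N : ℝ) + 1 - l) / q = p at *
  generalize ((N : ℝ) + l - 1) / q = p' at *
  push_cast at r1 r2
  have s1 : ((x : ℝ) * x ^ 2) ^ k * (2 * x / ((1 / x) ^ 2 * W)) ≤ 2 * u := by
    have := pow_le_pow_right₀ (show (1 : ℝ) ≤ x by linarith) (show 3 * k + 4 ≤ 3 * k + 6 by omega)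
    calc _ = 2 * u * ((x : ℝ) ^ (3 * k + 4) / W) := by rw [hu]; field_simp; ring
      _ ≤ 2 * u * 1 := by gcongr; exact (div_le_one W0).2 (this.trans w2)
      _ = _ := mul_one _
  have s2 : (W : ℝ) * (1 - 3 * u) ≤ W * (1 - 2 * x / x ^ 2) - k * (x * x ^ 2) := by
    have a1 := pow_le_pow_right₀ (show (1 : ℝ) ≤ x by linarith) (show 5 ≤ 3 * k + 6 by omega)
    have a2 : (k : ℝ) * (x * x ^ 2) ≤ W * u := by
      calc (k : ℝ) * (x * x ^ 2) ≤ x * (x * x ^ 2) := by gcongr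
        _ = x ^ 5 * u := by rw [hu]; field_simp
        _ ≤ _ := by gcongr; exact a1.trans w2
    rw [show 2 * (x : ℝ) / x ^ 2 = 2 * u by rw [hu]; field_simp]
    linarith
  have s3 : 0 ≤ (W : ℝ) * (1 - 3 * u) := mul_nonneg W0.le (by linarith)
  have y0 : 0 ≤ y := by linarith
  have lo : q * (y * (1 - u) * (1 - 3 * u)) ^ k ≤ k.factorial * (p ^ k * m fun _ => 1) := by
    have a1 := (mul_le_mul_of_nonneg_left (pow_le_pow_left₀ s3 s2 k) Q0.le).trans (r2 (s3.trans s2))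
    have a2 : y * (1 - u) * (1 - 3 * u) ≤ p * (W * (1 - 3 * u)) := by
      rw [← mul_assoc]
      exact mul_le_mul_of_nonneg_right p1 (by linarith)
    calc _ ≤ q * (p * (W * (1 - 3 * u))) ^ k := mul_le_mul_of_nonneg_left (pow_le_pow_left₀
          (mul_nonneg (mul_nonneg y0 (by linarith)) (by linarith)) a2 k) Q0.le
      _ = p ^ k * (q * (W * (1 - 3 * u)) ^ k) := by rw [mul_pow p, mul_left_comm]
      _ ≤ p ^ k * (k.factorial * m fun _ => 1) := mul_le_mul_of_nonneg_left a1 (by positivity)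
      _ = _ := by ring
  have up : k.factorial * (p' ^ k * m fun _ => 1) ≤
      q * ((y * (1 + u)) ^ k * ((1 + u) ^ k + 2 * u)) := by
    rw [← hu] at r1 s1
    calc _ = p' ^ k * (k.factorial * m fun _ => 1) := by ring
      _ ≤ p' ^ k * (q * W ^ k * ((1 + u) ^ k + 2 * u)) :=
        mul_le_mul_of_nonneg_left (r1.trans (by gcongr)) (by positivity)
      _ = q * ((p' * W) ^ k * ((1 + u) ^ k + 2 * u)) := by ring
      _ ≤ _ := by gcongr
  have qu : (q : ℝ) / x = q * u := by rw [hu]; ring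
  rw [qu] at f1 g1
  rw [← div_le_iff₀' K0, mul_div_assoc] at lo
  rw [← le_div_iff₀' K0, mul_div_assoc] at up
  rw [abs_le]
  constructor
  · rw [le_sub_iff_add_le, le_div_iff₀ Q0]
    linarith [mul_le_mul_of_nonneg_left t1 Q0.le]
  · rw [sub_le_iff_le_add, div_le_iff₀ Q0]
    linarith [mul_le_mul_of_nonneg_left t2 Q0.le]

end Pool.Agent.MP_ba281e_nt.SG
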