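import Pool.Agent.MP_ba281e_nt.sg.Spec

/-! PROJECT SG: inequalities for elementary symmetric sums, and the pointwise sieve bound. -/

set_option autoImplicit false

namespace Pool.Agent.MP_ba281e_nt.SG

open Finset
open scoped Classical

namespace SymA

theorem dbl (W k : ℕ) (z : ℕ → ℝ) : (k + 1) * es W (k + 1) z =
    ∑ S ∈ powersetCard k (range W), (∏ h ∈ S, z h) * (∑ h ∈ range W, z h - ∑ h ∈ S, z h) := by
  have a : (k + 1) * es W (k + 1) z =
      ∑ T ∈ powersetCard (k + 1) (range W), ∑ _h ∈ T, ∏ h ∈ T, z h := by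
    rw [es, mul_sum]
    refine sum_congr rfl fun T hT => ?_
    rw [sum_const, (mem_powersetCard.1 hT).2, nsmul_eq_mul, Nat.cast_succ]
  have b : ∀ S ∈ powersetCard k (range W), (∏ h ∈ S, z h) * (∑ h ∈ range W, z h - ∑ h ∈ S, z h) =
      ∑ i ∈ range W \ S, (∏ h ∈ S, z h) * z i := fun S hS => by
    rw [← mul_sum, sum_sdiff_eq_sub (mem_powersetCard.1 hS).1]
  rw [a, sum_congr rfl b, sum_sigma', sum_sigma']
  refine sum_nbij' (fun x => ⟨x.1.erase x.2, x.2⟩) (fun x => ⟨insert x.2 x.1, x.2⟩) ?_ ?_ ?_ ?_ ?_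
  · rintro ⟨T, i⟩ hx
    simp only [mem_sigma, mem_powersetCard, mem_sdiff] at hx ⊢
    exact ⟨⟨(erase_subset _ _).trans hx.1.1, by rw [card_erase_of_mem hx.2, hx.1.2]; rfl⟩,
      hx.1.1 hx.2, notMem_erase _ _⟩
  · rintro ⟨S, i⟩ hx
    simp only [mem_sigma, mem_powersetCard, mem_sdiff] at hx ⊢
    exact ⟨⟨insert_subset hx.2.1 hx.1.1, by rw [card_insert_of_notMem hx.2.2, hx.1.2]⟩,
      mem_insert_self _ _⟩
  · rintro ⟨T, i⟩ hx
    simp only [insert_erase (mem_sigma.1 hx).2]
  · rintro ⟨S, i⟩ hx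
    simp only [erase_insert (mem_sdiff.1 (mem_sigma.1 hx).2).2]
  · rintro ⟨T, i⟩ hx
    exact (prod_erase_mul _ _ (mem_sigma.1 hx).2).symm

variable {W : ℕ} {z : ℕ → ℝ} {ρ : ℝ}

theorem pr_nonneg (hz : ∀ h < W, 0 ≤ z h ∧ z h ≤ ρ) {k : ℕ} {S : Finset ℕ}
    (hS : S ∈ powersetCard k (range W)) : 0 ≤ ∏ h ∈ S, z h :=
  prod_nonneg fun h hh => (hz h (mem_range.1 ((mem_powersetCard.1 hS).1 hh))).1

theorem es_nonneg (hz : ∀ h < W, 0 ≤ z h ∧ z h ≤ ρ) (k : ℕ) : 0 ≤ es W k z :=
  sum_nonneg fun _ hS => pr_nonneg hz hS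

theorem step (hz : ∀ h < W, 0 ≤ z h ∧ z h ≤ ρ) (k : ℕ) :
    (k + 1) * es W (k + 1) z ≤ es W k z * ∑ h ∈ range W, z h ∧
      es W k z * (∑ h ∈ range W, z h - k * ρ) ≤ (k + 1) * es W (k + 1) z := by
  rw [dbl, es, sum_mul, sum_mul]
  have m := fun {S : Finset ℕ} (hS : S ∈ powersetCard k (range W)) h (hh : h ∈ S) =>
    hz h (mem_range.1 ((mem_powersetCard.1 hS).1 hh))
  refine ⟨sum_le_sum fun S hS => mul_le_mul_of_nonneg_left
    (sub_le_self _ (sum_nonneg fun h hh => (m hS h hh).1)) (pr_nonneg hz hS),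
    sum_le_sum fun S hS => mul_le_mul_of_nonneg_left (sub_le_sub_left ?_ _) (pr_nonneg hz hS)⟩
  have := sum_le_card_nsmul S z ρ fun h hh => (m hS h hh).2
  rwa [(mem_powersetCard.1 hS).2, nsmul_eq_mul] at this

theorem es_zero : es W 0 z = 1 := by simp [es]

theorem es_choose {z : ℕ → ℕ} (hz : ∀ h < W, z h ≤ 1) (k : ℕ) :
    es W k (fun h => (z h : ℝ)) = ((range W).filter fun h => z h = 1).card.choose k := by
  rw [es, ← card_powersetCard, ← sum_subset (powersetCard_mono (filter_subset (fun h => z h = 1) _)),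
    card_eq_sum_ones, Nat.cast_sum]
  · refine sum_congr rfl fun S hS => ?_
    rw [Nat.cast_one]
    exact prod_eq_one fun h hh => by
      rw [(mem_filter.1 ((mem_powersetCard.1 hS).1 hh)).2, Nat.cast_one]
  · intro S hS hn
    rw [mem_powersetCard] at hS hn
    obtain ⟨h, h1, h2⟩ := not_subset.1 fun c => hn ⟨c, hS.2⟩
    have := hz h (mem_range.1 (hS.1 h1))
    rw [mem_filter, not_and] at h2
    have h3 := h2 (hS.1 h1)
    exact prod_eq_zero h1 (by rw [show z h = 0 by omega, Nat.cast_zero])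

theorem alt (n K : ℕ) : |(if n = 0 then (1 : ℝ) else 0) -
    ∑ k ∈ range (K + 1), (-1) ^ k * (n.choose k : ℝ)| ≤ n.choose K := by
  cases n with
  | zero => simp [sum_range_succ']
  | succ n =>
    have := congrArg (Int.cast : ℤ → ℝ) (Int.alternating_sum_range_choose_eq_choose (n := n) (m := K))
    push_cast at this
    rw [if_neg n.succ_ne_zero, zero_sub, abs_neg, this, abs_mul, abs_pow, abs_neg, abs_one, one_pow,
      one_mul, Nat.abs_cast]
    exact_mod_cast Nat.choose_le_succ n K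

end SymA

open SymA in
theorem sym : SYMStmt := by
  intro W k z ρ hρ hz
  refine ⟨es_nonneg hz k, ?_, (step hz k).2, ?_⟩
  · induction k with
    | zero => simp [es_zero]
    | succ k ih =>
      rw [Nat.factorial_succ, Nat.cast_mul, Nat.cast_succ, mul_comm _ (k.factorial : ℝ), mul_assoc,
        pow_succ]
      refine (mul_le_mul_of_nonneg_left (step hz k).1 (Nat.cast_nonneg _)).trans ?_
      rw [← mul_assoc]
      exact mul_le_mul_of_nonneg_right ih (sum_nonneg fun h hh => (hz h (mem_range.1 hh)).1)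
  · induction k with
    | zero => simp [es_zero]
    | succ k ih =>
      rw [Nat.factorial_succ, Nat.cast_mul, Nat.cast_succ, mul_comm _ (k.factorial : ℝ), mul_assoc]
      refine (pow_le_pow_left₀ (le_max_right _ _) (max_le_max_right 0
        (show _ ≤ ∑ h ∈ range W, z h - k * ρ by linarith)) _).trans ?_
      rw [pow_succ]
      refine (mul_le_mul_of_nonneg_right ih (le_max_right _ _)).trans ?_
      rw [mul_assoc, mul_max_of_nonneg _ _ (es_nonneg hz k), mul_zero]
      exact mul_le_mul_of_nonneg_left (max_le (step hz k).2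
        (mul_nonneg (by positivity) (es_nonneg hz _))) (Nat.cast_nonneg _)

open SymA in
theorem pw : PWStmt := by
  intro W K z ρ Y hρ hz hY hK
  have hz' : ∀ h < W, (0 : ℝ) ≤ z h ∧ (z h : ℝ) ≤ ρ := fun h hh => ⟨Nat.cast_nonneg _, hz h hh⟩
  have d0 : 0 < Y - K * ρ := sub_pos.2 hK
  have t0 := fun k : ℕ => div_nonneg (mul_nonneg (show (0 : ℝ) ≤ k + 1 by positivity)
    (es_nonneg hz' (k + 1))) d0.le
  by_cases c : ∃ h < W, 2 ≤ z h
  · rw [if_pos c, if_neg (fun e => by obtain ⟨h, a, b⟩ := c; have := e h a; omega), zero_sub,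
      abs_neg, add_assoc]
    refine (abs_sum_le_sum_abs _ _).trans (le_add_of_nonneg_of_le (es_nonneg hz' K) ?_)
    rw [show ((K : ℝ) + 1) * Y ^ K = ∑ _k ∈ range (K + 1), Y ^ K by simp, ← sum_add_distrib]
    refine sum_le_sum fun k hk => ?_
    have hk' : k ≤ K := Nat.lt_succ_iff.1 (mem_range.1 hk)
    obtain ⟨s1, s2, s3, -⟩ := sym W k _ ρ hρ hz'
    rw [abs_mul, abs_pow, abs_neg, abs_one, one_pow, one_mul, abs_of_nonneg s1]
    rcases le_total (∑ h ∈ range W, (z h : ℝ)) Y with e | e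
    · refine le_add_of_le_of_nonneg ?_ (t0 k)
      refine (le_mul_of_one_le_left s1 (by exact_mod_cast k.factorial_pos)).trans (s2.trans ?_)
      exact (pow_le_pow_left₀ (by positivity) e k).trans (pow_le_pow_right₀ hY hk')
    · refine le_add_of_nonneg_of_le (by positivity) ((le_div_iff₀ d0).2 (le_trans ?_ s3))
      exact mul_le_mul_of_nonneg_left (sub_le_sub e
        (mul_le_mul_of_nonneg_right (by exact_mod_cast hk') hρ)) s1
  · have h1 : ∀ h < W, z h ≤ 1 := fun h hh => by_contra fun e => c ⟨h, hh, by omega⟩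
    have e : (∀ h < W, z h = 0) ↔ ((range W).filter fun h => z h = 1).card = 0 := by
      rw [card_eq_zero, filter_eq_empty_iff]
      exact ⟨fun a h hh => by rw [a h (mem_range.1 hh)]; omega, fun a h hh => by
        have := a (mem_range.2 hh)
        have := h1 h hh
        omega⟩
    rw [if_neg c, add_zero]
    refine le_add_of_le_of_nonneg ?_ (sum_nonneg fun k _ => t0 k)
    simp only [es_choose h1, e]
    exact alt _ K

end Pool.Agent.MP_ba281e_nt.SG
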