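import Pool.Agent.MP_ba281e_nt.sg.Spec2
import Pool.Agent.MP_ba281e_nt.sg.Sym

/-! PROJECT SG: the pointwise sieve bound for windows with exactly `i` points. -/

set_option autoImplicit false

namespace Pool.Agent.MP_ba281e_nt.SG

open Finset
open scoped Classical

namespace Pw2A

theorem alt2 (Z K i : ℕ) (hi : i ≤ K) : |(if Z = i then (1 : ℝ) else 0) -
    ∑ k ∈ range (K + 1), (-1) ^ (k + i) * (k.choose i : ℝ) * (Z.choose k : ℝ)| ≤
      2 ^ K * (Z.choose K : ℝ) := by
  obtain ⟨M, rfl⟩ := Nat.exists_eq_add_of_le hi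
  have e1 : ∑ k ∈ range (i + M + 1), (-1) ^ (k + i) * (k.choose i : ℝ) * (Z.choose k : ℝ) =
      (Z.choose i : ℝ) * ∑ m ∈ range (M + 1), (-1) ^ m * ((Z - i).choose m : ℝ) := by
    rw [add_assoc, sum_range_add, sum_eq_zero, zero_add, mul_sum]
    · refine sum_congr rfl fun m _ => ?_
      have h := Nat.choose_mul (n := Z) (k := i + m) (s := i) (Nat.le_add_right i m)
      rw [Nat.add_sub_cancel_left] at h
      have h' : (Z.choose (i + m) : ℝ) * ((i + m).choose i : ℝ) =
          (Z.choose i : ℝ) * ((Z - i).choose m : ℝ) := by exact_mod_cast h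
      have hs : (-1 : ℝ) ^ (i + m + i) = (-1) ^ m := by
        rw [show i + m + i = 2 * i + m by ring, pow_add, pow_mul]
        simp
      rw [hs]
      linear_combination (-1 : ℝ) ^ m * h'
    · intro k hk
      rw [Nat.choose_eq_zero_of_lt (mem_range.1 hk)]
      simp
  have e2 : (if Z = i then (1 : ℝ) else 0) =
      (Z.choose i : ℝ) * (if Z - i = 0 then (1 : ℝ) else 0) := by
    rcases lt_trichotomy Z i with h | h | h
    · rw [if_neg h.ne, Nat.choose_eq_zero_of_lt h]
      simp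
    · subst h
      simp
    · rw [if_neg h.ne', if_neg (by omega), mul_zero]
  rw [e1, e2, ← mul_sub, abs_mul, Nat.abs_cast]
  refine (mul_le_mul_of_nonneg_left (SymA.alt (Z - i) M) (Nat.cast_nonneg _)).trans ?_
  have h := Nat.choose_mul (n := Z) (k := i + M) (s := i) (Nat.le_add_right i M)
  rw [Nat.add_sub_cancel_left] at h
  have h2 : Z.choose i * (Z - i).choose M ≤ 2 ^ (i + M) * Z.choose (i + M) := by
    rw [← h, mul_comm]
    exact Nat.mul_le_mul_right _ (Nat.choose_le_two_pow _ _)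
  exact_mod_cast h2

theorem ch (K k i : ℕ) (hk : k ≤ K) : (k.choose i : ℝ) ≤ 2 ^ K := by
  have := (Nat.choose_le_two_pow k i).trans (Nat.pow_le_pow_right (by norm_num) hk)
  exact_mod_cast this

end Pw2A

open SymA in
theorem pw2 : PW2Stmt := by
  intro W K i z ρ Y hρ hz hY hiK hiY hK
  have hz' : ∀ h < W, (0 : ℝ) ≤ z h ∧ (z h : ℝ) ≤ ρ := fun h hh => ⟨Nat.cast_nonneg _, hz h hh⟩
  have d0 : 0 < Y - K * ρ := sub_pos.2 hK
  have t0 := fun k : ℕ => div_nonneg (mul_nonneg (show (0 : ℝ) ≤ k + 1 by positivity)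
    (es_nonneg hz' (k + 1))) d0.le
  have tS : 0 ≤ ∑ k ∈ range (K + 1), (k + 1) * es W (k + 1) (fun h => (z h : ℝ)) / (Y - K * ρ) :=
    sum_nonneg fun k _ => t0 k
  have e0 := es_nonneg hz' K
  have p1 : (1 : ℝ) ≤ 2 ^ K := one_le_pow₀ (by norm_num)
  have pY : (1 : ℝ) ≤ Y ^ K := one_le_pow₀ hY
  by_cases c : ∃ h < W, 2 ≤ z h
  · rw [if_pos c]
    have hsum : |∑ k ∈ range (K + 1), (-1) ^ (k + i) * (k.choose i : ℝ) *
        es W k fun h => (z h : ℝ)| ≤ 2 ^ K * ∑ k ∈ range (K + 1), es W k fun h => (z h : ℝ) := by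
      refine (abs_sum_le_sum_abs _ _).trans ?_
      rw [mul_sum]
      refine sum_le_sum fun k hk => ?_
      have hk' : k ≤ K := Nat.lt_succ_iff.1 (mem_range.1 hk)
      rw [abs_mul, abs_mul, abs_pow, abs_neg, abs_one, one_pow, one_mul, Nat.abs_cast,
        abs_of_nonneg (es_nonneg hz' k)]
      exact mul_le_mul_of_nonneg_right (Pw2A.ch K k i hk') (es_nonneg hz' k)
    refine (abs_sub _ _).trans ?_
    rcases le_or_gt (∑ h ∈ range W, (z h : ℝ)) Y with e | e
    · have h1 : |(if ∑ h ∈ range W, z h = i then (1 : ℝ) else 0)| ≤ 2 ^ K * Y ^ K := by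
        have : (1 : ℝ) ≤ 2 ^ K * Y ^ K := one_le_mul_of_one_le_of_one_le p1 pY
        split_ifs
        · rwa [abs_one]
        · rw [abs_zero]; linarith
      have h2 : ∑ k ∈ range (K + 1), es W k (fun h => (z h : ℝ)) ≤ (K + 1) * Y ^ K := by
        rw [show ((K : ℝ) + 1) * Y ^ K = ∑ _k ∈ range (K + 1), Y ^ K by simp]
        refine sum_le_sum fun k hk => ?_
        have hk' : k ≤ K := Nat.lt_succ_iff.1 (mem_range.1 hk)
        obtain ⟨s1, s2, -, -⟩ := sym W k _ ρ hρ hz'
        refine (le_mul_of_one_le_left s1 (by exact_mod_cast k.factorial_pos)).trans (s2.trans ?_)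
        exact (pow_le_pow_left₀ (by positivity) e k).trans (pow_le_pow_right₀ hY hk')
      have h3 := mul_le_mul_of_nonneg_left h2 (show (0 : ℝ) ≤ 2 ^ K by positivity)
      have h4 := mul_nonneg (show (0 : ℝ) ≤ 2 ^ K by positivity) (add_nonneg e0 tS)
      nlinarith
    · have hne : ∑ h ∈ range W, z h ≠ i := by
        intro h
        have : ∑ h ∈ range W, (z h : ℝ) = i := by exact_mod_cast h
        linarith
      rw [if_neg hne, abs_zero, zero_add]
      refine hsum.trans (mul_le_mul_of_nonneg_left ?_ (by positivity))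
      refine le_add_of_nonneg_of_le (by positivity) (sum_le_sum fun k hk => ?_)
      have hk' : k ≤ K := Nat.lt_succ_iff.1 (mem_range.1 hk)
      obtain ⟨s1, -, s3, -⟩ := sym W k _ ρ hρ hz'
      refine (le_div_iff₀ d0).2 (le_trans ?_ s3)
      exact mul_le_mul_of_nonneg_left (sub_le_sub e.le
        (mul_le_mul_of_nonneg_right (by exact_mod_cast hk') hρ)) s1
  · have h1 : ∀ h < W, z h ≤ 1 := fun h hh => by_contra fun e => c ⟨h, hh, by omega⟩
    have e : ∑ h ∈ range W, z h = ((range W).filter fun h => z h = 1).card := by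
      rw [card_filter]
      refine sum_congr rfl fun h hh => ?_
      have := h1 h (mem_range.1 hh)
      split_ifs <;> omega
    rw [if_neg c, add_zero, mul_add]
    refine le_add_of_le_of_nonneg ?_ (mul_nonneg (by positivity) tS)
    simp only [es_choose h1, e]
    exact Pw2A.alt2 _ K i hiK

end Pool.Agent.MP_ba281e_nt.SG
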