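import Pool.Agent.MP_ba281e_nt.sg.Spec

/-!
Row REL: relations are rare.
-/

set_option autoImplicit false

namespace Pool.Agent.MP_ba281e_nt.SG

open Finset Polynomial
open scoped Classical

namespace RelA

theorem aeval_int {A : Type} [CommRing A] (z : ℤ) (P : ℤ[X]) :
    aeval (z : A) P = ((P.eval z : ℤ) : A) := by
  have := aeval_algebraMap_apply_eq_algebraMap_eval (A := A) z P
  simpa using this

/-- The quadratic polynomials. -/
noncomputable def bb {ι : Type} (h : ι → ℕ) (i0 j : ι) : ℤ[X] :=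
  C 4 * ((X + C (h j : ℤ)) * (X + C (h i0 : ℤ)))

theorem bb_deg {ι : Type} (h : ι → ℕ) (i0 j : ι) : (bb h i0 j).natDegree ≤ 2 := by
  unfold bb
  compute_degree

theorem bb_aeval {ι A : Type} [CommRing A] (h : ι → ℕ) (i0 j : ι) (t : A) :
    aeval t (bb h i0 j) = 4 * ((t + h j) * (t + h i0)) := by
  simp [bb, map_ofNat]

/-- The value at an integer point. -/
theorem value {ι : Type} [Fintype ι] {h : ι → ℕ} {W R : ℕ} (hinj : Function.Injective h)
    (hW : ∀ i, h i < W) {ξ : ι → ℤ} (hR : ∀ i, |ξ i| ≤ R) {i i0 : ι} (hi : ξ i ≠ 0)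
    (h0 : ∀ j, j ≠ i → i0 ≠ i) {P : ℤ[X]}
    (hP : ∀ (t : ℂ) (z : ι → ℂ), (∀ j, z j ^ 2 = aeval t (bb h i0 j)) →
      aeval t P = ∏ ε : ι → ℤˣ, ∑ i, (((ε i : ℤ) * ξ i : ℤ) : ℂ) * ∏ j ∈ univ.erase i, z j) :
    P.eval (-(h i : ℤ)) ≠ 0 ∧
      |P.eval (-(h i : ℤ))| ≤ ((R * (2 * W) ^ Fintype.card ι) ^ 2 ^ Fintype.card ι : ℕ) := by
  have ex : ∀ j, ∃ w : ℂ, w ^ 2 = aeval ((-(h i : ℤ) : ℤ) : ℂ) (bb h i0 j) := fun j =>
    IsAlgClosed.exists_pow_nat_eq _ two_pos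
  choose z hz using ex
  have e := hP _ z hz
  rw [aeval_int] at e
  have hz' : ∀ j, z j ^ 2 = ((4 * (((h j : ℤ) - h i) * ((h i0 : ℤ) - h i)) : ℤ) : ℂ) := fun j => by
    rw [hz, bb_aeval]
    push_cast
    ring
  have zi : z i = 0 := by
    have := hz' i
    rw [sub_self, zero_mul, mul_zero, Int.cast_zero] at this
    exact pow_eq_zero_iff two_ne_zero |>.1 this
  have zne : ∀ j, j ≠ i → z j ≠ 0 := fun j hj k => by
    have := hz' j
    rw [k, zero_pow two_ne_zero, eq_comm, Int.cast_eq_zero] at this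
    have a1 : (h j : ℤ) - h i ≠ 0 := sub_ne_zero.2 fun q => hj (hinj (by exact_mod_cast q))
    have a2 : (h i0 : ℤ) - h i ≠ 0 := sub_ne_zero.2 fun q => h0 j hj (hinj (by exact_mod_cast q))
    exact mul_ne_zero (by norm_num) (mul_ne_zero a1 a2) this
  have hd : ∀ j, |(h j : ℤ) - h i| ≤ W := fun j => by
    have := hW j
    have := hW i
    rw [abs_le]
    constructor <;> omega
  have zle : ∀ j, ‖z j‖ ≤ 2 * W := fun j => by
    have a1 := congrArg norm (hz' j)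
    rw [norm_pow, Complex.norm_intCast] at a1
    have a2 : |4 * (((h j : ℤ) - h i) * ((h i0 : ℤ) - h i))| ≤ (2 * W) ^ 2 := by
      rw [abs_mul, abs_mul, abs_of_pos (by norm_num : (0 : ℤ) < 4)]
      have := mul_le_mul (hd j) (hd i0) (abs_nonneg _) (by positivity)
      linarith [show (2 * (W : ℤ)) ^ 2 = 4 * (W * W) by ring]
    have a3 : ‖z j‖ ^ 2 ≤ (2 * (W : ℝ)) ^ 2 := by
      rw [a1]
      exact_mod_cast a2
    exact (pow_le_pow_iff_left₀ (norm_nonneg _) (by positivity) two_ne_zero).1 a3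
  have fac : ∀ ε : ι → ℤˣ, ∑ i', (((ε i' : ℤ) * ξ i' : ℤ) : ℂ) * ∏ j ∈ univ.erase i', z j =
      (((ε i : ℤ) * ξ i : ℤ) : ℂ) * ∏ j ∈ univ.erase i, z j := fun ε =>
    Finset.sum_eq_single i (fun i' _ hi' => by
      rw [Finset.prod_eq_zero (Finset.mem_erase.2 ⟨hi'.symm, mem_univ i⟩) zi, mul_zero])
      (fun k => absurd (mem_univ i) k)
  simp only [fac] at e
  have W1 : (1 : ℝ) ≤ 2 * W := by
    have : (1 : ℝ) ≤ W := by exact_mod_cast Nat.one_le_of_lt (hW i)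
    linarith
  constructor
  · intro k
    rw [k, Int.cast_zero, eq_comm, Finset.prod_eq_zero_iff] at e
    obtain ⟨ε, -, e⟩ := e
    refine mul_ne_zero ?_ (Finset.prod_ne_zero_iff.2 fun j hj => zne j (Finset.mem_erase.1 hj).1) e
    exact Int.cast_ne_zero.2 (mul_ne_zero (ε i).ne_zero hi)
  · have a1 := congrArg norm e
    rw [Complex.norm_intCast, norm_prod] at a1
    have a2 : ∀ ε : ι → ℤˣ, ‖(((ε i : ℤ) * ξ i : ℤ) : ℂ) * ∏ j ∈ univ.erase i, z j‖ ≤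
        (R : ℝ) * (2 * W) ^ Fintype.card ι := fun ε => by
      rw [norm_mul, Complex.norm_intCast, norm_prod]
      refine mul_le_mul ?_ ?_ (by positivity) (by positivity)
      · have : |(ε i : ℤ) * ξ i| ≤ R := by
          rw [abs_mul, Int.isUnit_iff_abs_eq.1 (ε i).isUnit, one_mul]
          exact hR i
        exact_mod_cast this
      · calc ∏ j ∈ univ.erase i, ‖z j‖ ≤ ∏ _j ∈ univ.erase i, (2 * (W : ℝ)) :=
            Finset.prod_le_prod (fun _ _ => norm_nonneg _) fun j _ => zle j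
          _ = (2 * W) ^ (univ.erase i).card := Finset.prod_const _
          _ ≤ _ := pow_le_pow_right₀ W1 (Finset.card_le_univ _)
    have a3 : ∏ ε : ι → ℤˣ, ‖(((ε i : ℤ) * ξ i : ℤ) : ℂ) * ∏ j ∈ univ.erase i, z j‖ ≤
        ∏ _ε : ι → ℤˣ, ((R : ℝ) * (2 * W) ^ Fintype.card ι) :=
      Finset.prod_le_prod (fun _ _ => norm_nonneg _) fun ε _ => a2 ε
    rw [← a1, Finset.prod_const, Finset.card_univ, Fintype.card_fun, Fintype.card_units_int] at a3
    exact_mod_cast a3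

/-- The divisibility given by a relation. -/
theorem dvd {q : ℕ} [NeZero q] {s m G : ℕ} (hq : q = s * m) {a t : ZMod q} {ι : Type} [Fintype ι]
    {h : ι → ℕ} {ξ : ι → ℤ} {i0 : ι} {P : ℤ[X]}
    (hP : ∀ z : ι → ZMod q, (∀ j, z j ^ 2 = aeval t (bb h i0 j)) →
      aeval t P = ∏ ε : ι → ℤˣ, ∑ i, (((ε i : ℤ) * ξ i : ℤ) : ZMod q) * ∏ j ∈ univ.erase i, z j)
    {n : ι → ZMod q} (hn : ∀ i, a * n i ^ 2 = t + h i)
    (hr : (m : ZMod q) * G * ∑ i, (ξ i : ZMod q) * ∏ j ∈ univ.erase i, (2 * a * n j) = 0) :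
    (s : ℤ) ∣ (C (G : ℤ) * P).eval ((t.val : ℕ) : ℤ) := by
  have e := hP (fun j => 2 * a * n j * n i0) fun j => by
    rw [bb_aeval, ← hn, ← hn]
    ring
  rw [← Finset.mul_prod_erase _ _ (mem_univ (1 : ι → ℤˣ))] at e
  have f : ∑ i, ((((1 : ι → ℤˣ) i : ℤ) * ξ i : ℤ) : ZMod q) *
      ∏ j ∈ univ.erase i, (2 * a * n j * n i0) = n i0 ^ (Fintype.card ι - 1) *
        ∑ i, (ξ i : ZMod q) * ∏ j ∈ univ.erase i, (2 * a * n j) := by
    rw [Finset.mul_sum]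
    refine Finset.sum_congr rfl fun i _ => ?_
    rw [Finset.prod_mul_distrib, Finset.prod_const, Finset.card_erase_of_mem (mem_univ i),
      Finset.card_univ, Pi.one_apply, Units.val_one, one_mul]
    ring
  rw [f] at e
  have z : (m : ZMod q) * G * aeval t P = 0 := by
    rw [e]
    linear_combination (n i0 ^ (Fintype.card ι - 1) * ∏ ε ∈ univ.erase (1 : ι → ℤˣ),
      ∑ i, (((ε i : ℤ) * ξ i : ℤ) : ZMod q) * ∏ j ∈ univ.erase i, (2 * a * n j * n i0)) * hr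
  have t1 : t = (((t.val : ℕ) : ℤ) : ZMod q) := by simp
  rw [t1, aeval_int] at z
  have z2 : (((m : ℤ) * (G * P.eval ((t.val : ℕ) : ℤ)) : ℤ) : ZMod q) = 0 := by
    rw [← z]
    push_cast
    ring
  rw [ZMod.intCast_zmod_eq_zero_iff_dvd] at z2
  have m0 : (m : ℤ) ≠ 0 := by
    have := NeZero.ne q
    rw [hq] at this
    exact_mod_cast right_ne_zero_of_mul this
  have q1 : (q : ℤ) = m * s := by rw [hq]; push_cast; ring
  rw [eval_mul, eval_C]
  exact (mul_dvd_mul_iff_left m0).1 (q1 ▸ z2)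

end RelA

open RelA in
theorem rel (h1 : ELIMStmt) (h2 : ROOTStmt) : RELStmt := by
  intro q _ s m D R W L a ι _ h hq hinj hW hL hs
  let S : ℕ × (ι → ℤ) → Finset (ZMod q) := fun p => univ.filter fun t => p.2 ≠ 0 ∧
    ∃ n : ι → ZMod q, (∀ i, a * n i ^ 2 = t + h i) ∧
      (m : ZMod q) * p.1 * ∑ i, (p.2 i : ZMod q) * ∏ j ∈ univ.erase i, (2 * a * n j) = 0
  let J : Finset (ℕ × (ι → ℤ)) :=
    Icc 1 (D ^ Fintype.card ι) ×ˢ Fintype.piFinset fun _ => Icc (-(R : ℤ)) R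
  have sub : (univ.filter fun t : ZMod q => Rel (m : ZMod q) a D R h t) ⊆ J.biUnion S := by
    intro t ht
    obtain ⟨n, ξ, G, x0, xR, G1, G2, hn, hr⟩ := (mem_filter.1 ht).2
    refine mem_biUnion.2 ⟨(G, ξ), mem_product.2 ⟨mem_Icc.2 ⟨G1, G2⟩,
      Fintype.mem_piFinset.2 fun i => mem_Icc.2 (abs_le.1 (xR i))⟩, ?_⟩
    exact mem_filter.2 ⟨mem_univ _, x0, n, hn, hr⟩
  have cJ : J.card = D ^ Fintype.card ι * (2 * R + 1) ^ Fintype.card ι := by
    rw [card_product, Fintype.card_piFinset, Nat.card_Icc, prod_const, card_univ, Int.card_Icc,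
      Nat.add_sub_cancel]
    congr 2
    omega
  refine (card_le_card sub).trans ?_
  rw [← cJ]
  refine card_biUnion_le_card_mul _ _ _ ?_
  rintro ⟨G, ξ⟩ hp
  obtain ⟨hG, hξ⟩ := mem_product.1 hp
  obtain ⟨G1, G2⟩ := mem_Icc.1 hG
  have xR : ∀ i, |ξ i| ≤ R := fun i => abs_le.2 (mem_Icc.1 (Fintype.mem_piFinset.1 hξ i))
  by_cases x0 : ξ = 0
  · have : S (G, ξ) = ∅ := filter_eq_empty_iff.2 fun t _ k => k.1 x0
    rw [this, card_empty]
    exact Nat.zero_le _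
  obtain ⟨i, hi⟩ := Function.ne_iff.1 x0
  obtain ⟨i0, h0⟩ : ∃ i0, ∀ j, j ≠ i → i0 ≠ i := by
    by_cases k : ∃ j, j ≠ i
    · obtain ⟨j, hj⟩ := k
      exact ⟨j, fun _ _ => hj⟩
    · exact ⟨i, fun j hj => absurd ⟨j, hj⟩ k⟩
  obtain ⟨P, dP, hP⟩ := h1 ι ξ (bb h i0) (bb_deg h i0)
  obtain ⟨v0, v1⟩ := value hinj hW xR hi h0 (hP ℂ)
  have G0 : (G : ℤ) ≠ 0 := by
    have : G ≠ 0 := by omega
    exact_mod_cast this
  have r := h2 (C (G : ℤ) * P) (2 ^ Fintype.card ι * Fintype.card ι) s L q (-(h i : ℤ))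
    ((natDegree_C_mul_le _ _).trans dP) (by rw [eval_mul, eval_C]; exact mul_ne_zero G0 v0) hL (by
      rw [eval_mul, eval_C, abs_mul, Nat.abs_cast]
      have g2 : (G : ℤ) ≤ (D ^ Fintype.card ι : ℕ) := by exact_mod_cast G2
      have k := mul_le_mul_of_nonneg_right (mul_le_mul g2 v1 (abs_nonneg _) (by positivity))
        (show (0 : ℤ) ≤ (L : ℤ) ^ ((2 ^ Fintype.card ι * Fintype.card ι) ^ 2) by positivity)
      refine k.trans_lt ?_
      exact_mod_cast hs)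
  refine le_trans ?_ r
  refine card_le_card_of_injOn (fun t => t.val) ?_ fun t _ t' _ k => ZMod.val_injective q k
  intro t ht
  obtain ⟨-, n, hn, hr⟩ := (mem_filter.1 (mem_coe.1 ht)).2
  exact mem_coe.2 (mem_filter.2 ⟨mem_range.2 (ZMod.val_lt t), dvd hq (hP (ZMod q) t) hn hr⟩)

end Pool.Agent.MP_ba281e_nt.SG
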