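import Pool.Agent.MP_ba281e_nt.sg.Spec

/-!
The variance of the number of roots in a window and the moments of the good roots.
-/

set_option autoImplicit false

namespace Pool.Agent.MP_ba281e_nt.SG

open Finset
open scoped Classical

namespace RhoA

variable {q : ℕ} [NeZero q]

theorem fib (s : Finset (ZMod q)) (φ : ZMod q → ZMod q) (h : ZMod q) (f : ZMod q → ℕ) :
    ∑ t, (s.filter fun n => φ n = t + h).card * f t = ∑ n ∈ s, f (φ n - h) := by
  simp only [card_filter, sum_mul, ite_mul, one_mul, zero_mul, ← sub_eq_iff_eq_add]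
  rw [sum_comm]
  simp

theorem tors {e : ℕ} (he : 0 < e) : (univ.filter fun n : ZMod q => e • n = 0).card ≤ e := by
  convert IsAddCyclic.card_nsmul_eq_zero_le (α := ZMod q) he

theorem fibre (c y : ZMod q) : (univ.filter fun n => c * n = y).card ≤ c.val.gcd q := by
  rcases (univ.filter fun n => c * n = y).eq_empty_or_nonempty with h | ⟨n0, h0⟩
  · simp [h]
  refine le_trans (card_le_card_of_injOn (fun n => n - n0) (fun n hn => ?_)
    fun a _ b _ h => sub_left_injective h) (tors (Nat.gcd_pos_of_pos_right _ (NeZero.pos q)))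
  have h1 : c * (n - n0) = 0 := by
    rw [mul_sub, (mem_filter.1 hn).2, (mem_filter.1 h0).2, sub_self]
  have h2 : ((c.val.gcd q : ℕ) : ZMod q) = c * (c.val.gcdA q : ℤ) := by
    have := congrArg (Int.cast : ℤ → ZMod q) (Nat.gcd_eq_gcd_ab c.val q)
    simpa using this
  refine mem_filter.2 ⟨mem_univ _, ?_⟩
  rw [nsmul_eq_mul, h2, mul_right_comm, h1, zero_mul]

theorem win (c e : ZMod q) (W : ℕ) :
    ∑ h ∈ range W, (univ.filter fun n => c * n + e = (h : ℕ)).card ≤ W + c.val.gcd q := by
  have g0 : 0 < c.val.gcd q := Nat.gcd_pos_of_pos_right _ (NeZero.pos q)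
  have h1 : ∑ h ∈ range W, (univ.filter fun n => c * n + e = (h : ℕ)).card ≤
      ∑ h ∈ range W, if h ≡ e.val [MOD c.val.gcd q] then c.val.gcd q else 0 := by
    refine sum_le_sum fun h _ => ?_
    split_ifs with k
    · simpa only [← eq_sub_iff_add_eq] using fibre c (h - e)
    · refine (card_eq_zero.2 (filter_eq_empty_iff.2 fun n _ hn => k ?_)).le
      have h2 : ((c.val * n.val + e.val : ℕ) : ZMod q) = (h : ℕ) := by simpa using hn
      have h3 := ((ZMod.natCast_eq_natCast_iff _ _ _).1 h2).symm.of_dvd (Nat.gcd_dvd_right c.val q)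
      refine h3.trans ?_
      simpa using Nat.ModEq.add_right e.val
        (Nat.modEq_zero_iff_dvd.2 ((Nat.gcd_dvd_left c.val q).mul_right n.val))
  refine h1.trans ?_
  rw [← sum_filter, sum_const, smul_eq_mul, ← Nat.count_eq_card_filter_range,
    Nat.count_modEq_card _ g0, add_mul]
  refine add_le_add (Nat.div_mul_le_self _ _) ?_
  split_ifs <;> simp

theorem sum_gcd {a : ZMod q} (ha : IsUnit a) :
    ∑ d : ZMod q, (2 * a * d).val.gcd q ≤ 2 * q.divisors.card * q := by
  rw [← sum_fiberwise_of_maps_to (g := fun d : ZMod q => (2 * a * d).val.gcd q) (t := q.divisors)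
    fun d _ => Nat.mem_divisors.2 ⟨Nat.gcd_dvd_right _ _, NeZero.ne q⟩]
  refine (sum_le_card_nsmul _ _ (2 * q) fun e he => ?_).trans (le_of_eq (by rw [smul_eq_mul]; ring))
  obtain ⟨m, hm⟩ := Nat.dvd_of_mem_divisors he
  have m0 : 0 < m := Nat.pos_of_ne_zero fun h => NeZero.ne q (by rw [hm, h, mul_zero])
  rw [sum_congr rfl fun d hd => (mem_filter.1 hd).2, sum_const, smul_eq_mul]
  refine (Nat.mul_le_mul_right e (le_trans (card_le_card fun d hd => ?_)
    (tors (q := q) (e := 2 * m) (by omega)))).trans (le_of_eq (by rw [mul_assoc, mul_comm m, ← hm]))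
  obtain ⟨j, hj⟩ : e ∣ (2 * a * d).val := (mem_filter.1 hd).2 ▸ Nat.gcd_dvd_left _ _
  have h1 : 2 * a * d = e * j := by rw [← ZMod.natCast_zmod_val (2 * a * d), hj, Nat.cast_mul]
  have h2 : (e : ZMod q) * m = 0 := by rw [← Nat.cast_mul, ← hm, ZMod.natCast_self]
  refine mem_filter.2 ⟨mem_univ _, ha.mul_right_eq_zero.1 ?_⟩
  rw [nsmul_eq_mul]
  push_cast
  linear_combination (m : ZMod q) * h1 + (j : ZMod q) * h2

/-- the number of roots in a window -/
noncomputable def S (a : ZMod q) (W : ℕ) (t : ZMod q) : ℕ :=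
  ∑ h ∈ range W, (univ.filter fun n : ZMod q => a * n ^ 2 = t + h).card

theorem sum_S (a : ZMod q) (W : ℕ) (f : ZMod q → ℕ) :
    ∑ t, S a W t * f t = ∑ h ∈ range W, ∑ n, f (a * n ^ 2 - (h : ℕ)) := by
  simp only [S, sum_mul]
  rw [sum_comm]
  exact sum_congr rfl fun h _ => fib _ (fun n => a * n ^ 2) _ f

theorem sum_sq {a : ZMod q} (ha : IsUnit a) (W : ℕ) :
    ∑ t, S a W t * S a W t ≤ W * (q * W + 2 * q.divisors.card * q) := by
  rw [sum_S]
  refine (sum_le_card_nsmul _ _ _ fun h _ => ?_).trans (by rw [card_range, smul_eq_mul])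
  have h1 : ∀ n : ZMod q, S a W (a * n ^ 2 - (h : ℕ)) = ∑ d : ZMod q, ∑ j ∈ range W,
      if 2 * a * d * n + (a * d ^ 2 + (h : ℕ)) = (j : ℕ) then 1 else 0 := by
    intro n
    rw [sum_comm]
    refine sum_congr rfl fun j _ => ?_
    rw [card_filter, ← Equiv.sum_comp (Equiv.addLeft n)]
    refine sum_congr rfl fun d _ => if_congr ?_ rfl rfl
    rw [Equiv.coe_addLeft]
    constructor <;> intro k <;> linear_combination k
  simp only [h1]
  rw [sum_comm]
  refine le_trans (sum_le_sum fun d _ => ?_) (le_trans (le_of_eq (sum_add_distrib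
    (f := fun _ => W) (g := fun d : ZMod q => (2 * a * d).val.gcd q)))
    (add_le_add (by simp) (sum_gcd ha)))
  rw [sum_comm]
  simpa only [card_filter] using win (2 * a * d) (a * d ^ 2 + (h : ZMod q)) W

theorem unit {a : ℤ} (h : IsCoprime a (q : ℤ)) : IsUnit (a : ZMod q) := by
  obtain ⟨u, v, k⟩ := h
  have := congrArg (Int.cast : ℤ → ZMod q) k
  exact IsUnit.of_mul_eq_one_right (u : ZMod q) (by simpa using this)

end RhoA

open RhoA

theorem var : VARStmt := by
  intro q _ W a h
  have h1 : ∑ t, (S (a : ZMod q) W t : ℝ) = W * q := by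
    have := sum_S (a : ZMod q) W fun _ => 1
    simp only [mul_one, sum_const, card_univ, ZMod.card, card_range, smul_eq_mul] at this
    exact_mod_cast this
  have h2 : ∑ t, (S (a : ZMod q) W t : ℝ) * S (a : ZMod q) W t ≤
      W * (q * W + 2 * q.divisors.card * q) := by exact_mod_cast sum_sq (unit h) W
  have h3 : ∀ t : ZMod q, (∑ h ∈ range W,
      ((univ.filter fun n : ZMod q => (a : ZMod q) * n ^ 2 = t + h).card : ℝ) - W) ^ 2 =
      (S (a : ZMod q) W t : ℝ) * S (a : ZMod q) W t - 2 * W * S (a : ZMod q) W t + W ^ 2 := by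
    intro t
    rw [S, Nat.cast_sum]
    ring
  simp only [h3, sum_add_distrib, sum_sub_distrib, ← mul_sum, h1, sum_const, card_univ, ZMod.card,
    nsmul_eq_mul]
  linarith

theorem rho (h1 : SYMStmt) (h2 : ARIStmt) (h3 : VARStmt) : RHOStmt := by
  intro q _ s r D W k a T δ hq hr ha hT hD hW hδ
  obtain ⟨a1, a2, -⟩ := h2 q s r D a hq hr ha
  have v := h3 q W a ha
  generalize ((s * r : ℕ) : ZMod q) = M at *
  have q0 : (0 : ℝ) < q := by exact_mod_cast NeZero.pos q
  have D0 : (0 : ℝ) < D := by exact_mod_cast hD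
  have W0 : (0 : ℝ) < W := by exact_mod_cast hW
  have T0 : 0 ≤ T := (Nat.cast_nonneg _).trans hT
  have z : ∀ u, 0 ≤ Zf M (a : ZMod q) D (fun _ => 1) u ∧
      Zf M (a : ZMod q) D (fun _ => 1) u ≤ T * D := fun u => by
    rw [Zf_one]
    refine ⟨Nat.cast_nonneg _, le_trans ?_ (mul_le_mul_of_nonneg_right hT D0.le)⟩
    exact_mod_cast a1 u
  have y := fun t : ZMod q => h1 W k (fun h => Zf M (a : ZMod q) D (fun _ => 1) (t + h)) (T * D)
    (by positivity) fun h _ => z _
  rw [mom, mul_sum]
  refine ⟨(sum_le_sum fun t _ => (y t).2.1).trans ?_, fun h0 => ?_⟩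
  · have p : ∀ t : ZMod q, (∑ h ∈ range W, Zf M (a : ZMod q) D (fun _ => 1) (t + h)) ^ k ≤
        (W * (1 + δ)) ^ k + (W * (T * D)) ^ k / (δ * W) ^ 2 * (∑ h ∈ range W,
          ((univ.filter fun n : ZMod q => (a : ZMod q) * n ^ 2 = t + h).card : ℝ) - W) ^ 2 := by
      intro t
      have b0 : 0 ≤ ∑ h ∈ range W, Zf M (a : ZMod q) D (fun _ => 1) (t + h) :=
        sum_nonneg fun h _ => (z _).1
      have b1 : ∑ h ∈ range W, Zf M (a : ZMod q) D (fun _ => 1) (t + h) ≤ W * (T * D) :=
        (sum_le_card_nsmul _ _ _ fun h _ => (z _).2).trans (by simp)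
      have b2 : ∑ h ∈ range W, Zf M (a : ZMod q) D (fun _ => 1) (t + h) ≤ ∑ h ∈ range W,
          ((univ.filter fun n : ZMod q => (a : ZMod q) * n ^ 2 = t + h).card : ℝ) :=
        sum_le_sum fun h _ => by
          rw [Zf_one]
          exact_mod_cast card_le_card fun n hn => mem_filter.2 ⟨mem_univ _, (mem_rts.1 hn).2⟩
      generalize (∑ h ∈ range W,
        ((univ.filter fun n : ZMod q => (a : ZMod q) * n ^ 2 = t + h).card : ℝ)) = u at *
      rcases le_total u (W * (1 + δ)) with c | c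
      · exact (pow_le_pow_left₀ b0 (b2.trans c) k).trans (le_add_of_nonneg_right (by positivity))
      · refine (pow_le_pow_left₀ b0 b1 k).trans (le_add_of_nonneg_of_le (by positivity) ?_)
        rw [div_mul_eq_mul_div, le_div_iff₀ (by positivity)]
        exact mul_le_mul_of_nonneg_left (pow_le_pow_left₀ (by positivity) (by linarith) 2)
          (by positivity)
    refine (sum_le_sum fun t _ => p t).trans ?_
    rw [sum_add_distrib, ← mul_sum, sum_const, card_univ, ZMod.card, nsmul_eq_mul]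
    refine (add_le_add le_rfl (mul_le_mul_of_nonneg_left (v.trans
      (by gcongr : _ ≤ 2 * T * W * q)) (by positivity))).trans (le_of_eq ?_)
    rw [mul_pow, mul_pow (W : ℝ)]
    field_simp
  · refine le_trans ?_ (sum_le_sum fun t _ => (y t).2.2.2)
    have g1 : (univ.filter fun n => ¬ Good M (a : ZMod q) D n).card * D ≤
        2 * q.divisors.card * q := by
      refine le_trans (Nat.mul_le_mul_right _ (card_le_card_of_surjOn
        (fun n : ℕ => (n : ZMod q)) fun x hx => ⟨(x - 1).val + 1, ?_, by simp⟩)) (a2 q)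
      refine mem_filter.2 ⟨mem_Icc.2 ⟨by omega, ZMod.val_lt _⟩, ?_⟩
      simpa using (mem_filter.1 hx).2
    have g2 : ((univ.filter fun n => Good M (a : ZMod q) D n).card : ℝ) +
        (univ.filter fun n => ¬ Good M (a : ZMod q) D n).card = q := by
      rw [← Nat.cast_add, card_filter_add_card_filter_not, card_univ, ZMod.card]
    have g3 : ((univ.filter fun n => ¬ Good M (a : ZMod q) D n).card : ℝ) ≤ 2 * T / D * q := by
      rw [div_mul_eq_mul_div, le_div_iff₀ D0]
      refine le_trans ?_ (by gcongr : (2 * q.divisors.card * q : ℝ) ≤ 2 * T * q)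
      exact_mod_cast g1
    have g4 : ∑ t : ZMod q, ∑ h ∈ range W, Zf M (a : ZMod q) D (fun _ => 1) (t + h) =
        W * (univ.filter fun n => Good M (a : ZMod q) D n).card := by
      rw [sum_comm]
      refine (sum_congr rfl fun h _ => ?_).trans (by rw [sum_const, card_range, nsmul_eq_mul])
      have := fib (univ.filter fun n => Good M (a : ZMod q) D n) (fun n => a * n ^ 2) h fun _ => 1
      simp only [mul_one, sum_const, smul_eq_mul, filter_filter] at this
      simp only [Zf_one, rts]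
      exact_mod_cast this
    have g5 := Real.pow_arith_mean_le_arith_mean_pow univ (fun _ : ZMod q => (q : ℝ)⁻¹)
      (fun t => max (∑ h ∈ range W, Zf M (a : ZMod q) D (fun _ => 1) (t + h) - k * (T * D)) 0)
      (fun _ _ => by positivity) (by simp [q0.ne']) (fun _ _ => le_max_right _ _) k
    rw [← mul_sum, ← mul_sum, le_inv_mul_iff₀ q0] at g5
    refine le_trans (mul_le_mul_of_nonneg_left (pow_le_pow_left₀ h0 ?_ k) q0.le) g5
    rw [le_inv_mul_iff₀ q0]
    refine le_trans ?_ (sum_le_sum fun t _ => le_max_left _ _)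
    rw [sum_sub_distrib, g4, sum_const, card_univ, ZMod.card, nsmul_eq_mul]
    nlinarith [mul_le_mul_of_nonneg_left g3 W0.le]

end Pool.Agent.MP_ba281e_nt.SG
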