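import Mathlib

/-!
PROJECT SG: gaps of `n ^ 2 * α` modulo one when the denominators have a large square divisor.
Definitions and statements.
-/

set_option autoImplicit false

namespace Pool.Agent.MP_ba281e_nt.SG

open Finset Polynomial
open scoped Classical

/-- the number of `n ≤ N` whose gap to the next point on the circle exceeds `σ / N` -/
noncomputable def gapCount (α : ℝ) (N : ℕ) (σ : ℝ) : ℕ :=
  ((Icc 1 N).filter fun n : ℕ => ∀ m ∈ Icc 1 N, m ≠ n →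
    σ / N < Int.fract (Int.fract ((m : ℝ) ^ 2 * α) - Int.fract ((n : ℝ) ^ 2 * α))).card

/-- elementary symmetric sum of `z 0, …, z (W - 1)` -/
noncomputable def es (W k : ℕ) (z : ℕ → ℝ) : ℝ := ∑ S ∈ powersetCard k (range W), ∏ h ∈ S, z h

section
variable {q : ℕ} [NeZero q]

def Good (M a : ZMod q) (D : ℕ) (n : ZMod q) : Prop :=
  ∃ g : ℕ, 1 ≤ g ∧ g ≤ D ∧ ∃ ν : ZMod q, M * (2 * a * n * ν) = M * g

/-- the good roots of `a n ^ 2 = u` -/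
noncomputable def rts (M a : ZMod q) (D : ℕ) (u : ZMod q) : Finset (ZMod q) :=
  univ.filter fun n => Good M a D n ∧ a * n ^ 2 = u

noncomputable def Zf (M a : ZMod q) (D : ℕ) (f : ZMod q → ℝ) (u : ZMod q) : ℝ :=
  ∑ n ∈ rts M a D u, f n

noncomputable def ind (N : ℕ) (n : ZMod q) : ℝ := if 1 ≤ n.val ∧ n.val ≤ N then 1 else 0

def Nice (f : ZMod q → ℝ) (p A B : ℝ) (R : ℕ) : Prop :=
  ∃ c : ZMod q → ℂ, (∀ n, (f n : ℂ) = ∑ ξ, c ξ * ZMod.stdAddChar (ξ * n)) ∧ c 0 = (p : ℂ) ∧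
    ∑ ξ, ‖c ξ‖ ≤ A ∧ ∑ ξ ∈ univ.filter (fun ξ : ZMod q => (R : ℤ) < |ξ.valMinAbs|), ‖c ξ‖ ≤ B

def Rel {ι : Type} [Fintype ι] (M a : ZMod q) (D R : ℕ) (h : ι → ℕ) (t : ZMod q) : Prop :=
  ∃ (n : ι → ZMod q) (ξ : ι → ℤ) (G : ℕ), ξ ≠ 0 ∧ (∀ i, |ξ i| ≤ R) ∧ 1 ≤ G ∧
    G ≤ D ^ Fintype.card ι ∧ (∀ i, a * n i ^ 2 = t + h i) ∧
    M * G * ∑ i, (ξ i : ZMod q) * ∏ j ∈ univ.erase i, (2 * a * n j) = 0

/-- `∑ₜ e_k (Z (t + 0), …, Z (t + W - 1))` -/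
noncomputable def mom (M a : ZMod q) (D W k : ℕ) (f : ZMod q → ℝ) : ℝ :=
  ∑ t : ZMod q, es W k fun h => Zf M a D f (t + h)

/-- the number of empty windows -/
noncomputable def vd (a : ZMod q) (N W : ℕ) : ℕ :=
  (univ.filter fun t : ZMod q => ∀ n ∈ Icc 1 N, ∀ h < W, a * ((n : ℕ) : ZMod q) ^ 2 ≠ t + h).card

/-- the number of points with a twin -/
noncomputable def tw (a : ZMod q) (N : ℕ) : ℕ :=
  ((Icc 1 N).filter fun n : ℕ => ∃ m ∈ Icc 1 N, m ≠ n ∧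
    a * ((m : ℕ) : ZMod q) ^ 2 = a * ((n : ℕ) : ZMod q) ^ 2).card

theorem Zf_one (M a : ZMod q) (D : ℕ) (u : ZMod q) :
    Zf M a D (fun _ => 1) u = (rts M a D u).card := by simp [Zf]

theorem mem_rts {M a : ZMod q} {D : ℕ} {u n : ZMod q} :
    n ∈ rts M a D u ↔ Good M a D n ∧ a * n ^ 2 = u := by simp [rts]

end

/-- the regime of parameters -/
structure Par (A B x q s r N : ℕ) (a : ℤ) : Prop where
  hq : q = s * s * r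
  sqf : Squarefree r
  cop : IsCoprime a (q : ℤ)
  tau : q.divisors.card ≤ x
  big : x ^ B ≤ s
  hN : N = q / x ^ A

/-! ### symmetric sums -/

def SYMStmt : Prop := ∀ (W k : ℕ) (z : ℕ → ℝ) (ρ : ℝ), 0 ≤ ρ → (∀ h < W, 0 ≤ z h ∧ z h ≤ ρ) →
  0 ≤ es W k z ∧ (k.factorial : ℝ) * es W k z ≤ (∑ h ∈ range W, z h) ^ k ∧
    es W k z * (∑ h ∈ range W, z h - k * ρ) ≤ (k + 1) * es W (k + 1) z ∧
    (max (∑ h ∈ range W, z h - k * ρ) 0) ^ k ≤ (k.factorial : ℝ) * es W k z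

def PWStmt : Prop := ∀ (W K : ℕ) (z : ℕ → ℕ) (ρ Y : ℝ), 0 ≤ ρ → (∀ h < W, (z h : ℝ) ≤ ρ) → 1 ≤ Y →
  K * ρ < Y →
  |(if ∀ h < W, z h = 0 then (1 : ℝ) else 0) -
      ∑ k ∈ range (K + 1), (-1) ^ k * es W k fun h => (z h : ℝ)| ≤
    es W K (fun h => (z h : ℝ)) + (if ∃ h < W, 2 ≤ z h then (K + 1) * Y ^ K else 0) +
      ∑ k ∈ range (K + 1), (k + 1) * es W (k + 1) (fun h => (z h : ℝ)) / (Y - K * ρ)

/-! ### Fourier side -/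

def FOUStmt : Prop := ∀ (q : ℕ) [NeZero q] (N l R : ℕ), 1 ≤ l → l ≤ N → 2 * N ≤ q → 1 ≤ R →
  ∃ f g : ZMod q → ℝ, (∀ n, 0 ≤ f n ∧ f n ≤ ind N n ∧ ind N n ≤ g n) ∧
    Nice f (((N : ℝ) + 1 - l) / q) (1 + q / l) (q / (l * R)) R ∧
    Nice g (((N : ℝ) + l - 1) / q) (1 + q / l) (q / (l * R)) R

def KEYStmt : Prop := ∀ (q : ℕ) [NeZero q] (M a : ZMod q) (D R : ℕ) (ι : Type) [Fintype ι]
  (h : ι → ℕ) (f : ZMod q → ℝ) (p A B ρ : ℝ), M * M = 0 → 1 ≤ A → Nice f p A B R →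
  (∀ u, ((rts M a D u).card : ℝ) ≤ ρ) →
  |∑ t : ZMod q, ∏ i, Zf M a D f (t + h i) -
      p ^ Fintype.card ι * ∑ t : ZMod q, ∏ i, Zf M a D (fun _ => 1) (t + h i)| ≤
    ρ ^ Fintype.card ι * A ^ Fintype.card ι *
      (q * Fintype.card ι * B + ((univ.filter fun t : ZMod q => Rel M a D R h t).card : ℝ))

/-! ### relations are rare -/

def ELIMStmt : Prop := ∀ (ι : Type) [Fintype ι] (ξ : ι → ℤ) (b : ι → ℤ[X]),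
  (∀ i, (b i).natDegree ≤ 2) → ∃ P : ℤ[X], P.natDegree ≤ 2 ^ Fintype.card ι * Fintype.card ι ∧
    ∀ (A : Type) [CommRing A] (t : A) (z : ι → A), (∀ j, z j ^ 2 = aeval t (b j)) →
      aeval t P = ∏ ε : ι → ℤˣ, ∑ i, (((ε i : ℤ) * ξ i : ℤ) : A) * ∏ j ∈ univ.erase i, z j

def ROOTStmt : Prop := ∀ (P : ℤ[X]) (d s L Q : ℕ) (z : ℤ), P.natDegree ≤ d → P.eval z ≠ 0 → 1 ≤ L →
  |P.eval z| * (L : ℤ) ^ (d ^ 2) < s →
  ((range Q).filter fun T : ℕ => (s : ℤ) ∣ P.eval (T : ℤ)).card ≤ d * (Q / L + 1)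

def RELStmt : Prop := ∀ (q : ℕ) [NeZero q] (s m D R W L : ℕ) (a : ZMod q) (ι : Type) [Fintype ι]
  (h : ι → ℕ), q = s * m → Function.Injective h → (∀ i, h i < W) → 1 ≤ L →
  D ^ Fintype.card ι * (R * (2 * W) ^ Fintype.card ι) ^ 2 ^ Fintype.card ι *
      L ^ ((2 ^ Fintype.card ι * Fintype.card ι) ^ 2) < s →
  (univ.filter fun t : ZMod q => Rel (m : ZMod q) a D R h t).card ≤
    D ^ Fintype.card ι * (2 * R + 1) ^ Fintype.card ι *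
      (2 ^ Fintype.card ι * Fintype.card ι * (q / L + 1))

/-! ### arithmetic -/

def ARIStmt : Prop := ∀ (q : ℕ) [NeZero q] (s r D : ℕ) (a : ℤ), q = s * s * r → Squarefree r →
  IsCoprime a (q : ℤ) →
  (∀ u, (rts ((s * r : ℕ) : ZMod q) (a : ZMod q) D u).card ≤ q.divisors.card * D) ∧
  (∀ N : ℕ, ((Icc 1 N).filter fun n : ℕ =>
      ¬ Good ((s * r : ℕ) : ZMod q) (a : ZMod q) D (n : ZMod q)).card * D ≤
    2 * q.divisors.card * N) ∧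
  ∀ N : ℕ, tw (a : ZMod q) N * q ≤ 4 * q.divisors.card * N ^ 2

def VARStmt : Prop := ∀ (q : ℕ) [NeZero q] (W : ℕ) (a : ℤ), IsCoprime a (q : ℤ) →
  ∑ t : ZMod q, (∑ h ∈ range W,
      ((univ.filter fun n : ZMod q => (a : ZMod q) * n ^ 2 = t + h).card : ℝ) - W) ^ 2 ≤
    2 * q.divisors.card * W * q

def RHOStmt : Prop := ∀ (q : ℕ) [NeZero q] (s r D W k : ℕ) (a : ℤ) (T δ : ℝ), q = s * s * r →
  Squarefree r → IsCoprime a (q : ℤ) → (q.divisors.card : ℝ) ≤ T → 1 ≤ D → 1 ≤ W → 0 < δ →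
  (k.factorial : ℝ) * mom ((s * r : ℕ) : ZMod q) (a : ZMod q) D W k (fun _ => 1) ≤
      q * (W : ℝ) ^ k * ((1 + δ) ^ k + (T * D) ^ k * (2 * T / (δ ^ 2 * W))) ∧
    (0 ≤ W * (1 - 2 * T / D) - k * (T * D) →
      q * (W * (1 - 2 * T / D) - k * (T * D)) ^ k ≤
        (k.factorial : ℝ) * mom ((s * r : ℕ) : ZMod q) (a : ZMod q) D W k fun _ => 1)

/-! ### moments, voids, gaps -/

def ERRStmt : Prop := ∀ k A : ℕ, ∃ B₀ x₀ e : ℕ,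
  ∀ (x q : ℕ) [NeZero q] (B s r N W : ℕ) (a : ℤ) (f : ZMod q → ℝ) (p E E' : ℝ), x₀ ≤ x → B₀ ≤ B →
    Par A B x q s r N a → W ≤ x ^ (A + 1) → 1 ≤ E → E ≤ (x : ℝ) ^ (A + 2) →
    E' ≤ E / (x : ℝ) ^ e → Nice f p E E' (x ^ e) →
    |mom ((s * r : ℕ) : ZMod q) (a : ZMod q) (x ^ 2) W k f -
      p ^ k * mom ((s * r : ℕ) : ZMod q) (a : ZMod q) (x ^ 2) W k fun _ => 1| ≤ q / x

def MOMStmt : Prop := ∀ k A : ℕ, 3 * k + 7 ≤ A → ∃ B₀ : ℕ, ∀ c θ : ℝ, 0 < c → 0 < θ →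
  ∃ (x₀ : ℕ) (δ : ℝ), 0 < δ ∧ ∀ (x q : ℕ) [NeZero q] (B s r N W : ℕ) (a : ℤ), x₀ ≤ x → B₀ ≤ B →
    Par A B x q s r N a → |(W : ℝ) * N / q - c| ≤ δ →
    |mom ((s * r : ℕ) : ZMod q) (a : ZMod q) (x ^ 2) W k (ind N) / q - c ^ k / k.factorial| ≤ θ

def VOIDStmt : Prop := ∀ θ C : ℝ, 0 < θ → ∃ A B : ℕ, 2 ≤ A ∧ A + 2 ≤ B ∧ ∀ c : ℝ, 0 < c → c ≤ C →
  ∃ (x₀ : ℕ) (δ : ℝ), 0 < δ ∧ ∀ (x q : ℕ) [NeZero q] (s r N W : ℕ) (a : ℤ), x₀ ≤ x →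
    Par A B x q s r N a → |(W : ℝ) * N / q - c| ≤ δ →
    |(vd (a : ZMod q) N W : ℝ) / q - Real.exp (-c)| ≤ θ

def TRANSStmt : Prop := ∀ (q : ℕ) [NeZero q] (N W₁ W₂ : ℕ) (a : ℤ) (α σ : ℝ), 1 ≤ N → W₁ ≤ W₂ →
  (N : ℝ) ^ 2 * |α - a / q| * q < 1 →
  (W₂ < q → (W₂ : ℝ) + 1 ≤ σ * q / N →
    ((W₂ : ℝ) - W₁) * ((gapCount α N σ : ℝ) - tw (a : ZMod q) N) ≤
      (vd (a : ZMod q) N W₁ : ℝ) - vd (a : ZMod q) N W₂) ∧
  (σ * q / N ≤ W₁ →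
    (vd (a : ZMod q) N W₁ : ℝ) - vd (a : ZMod q) N W₂ ≤
      ((W₂ : ℝ) - W₁) * ((gapCount α N σ : ℝ) + tw (a : ZMod q) N))

end Pool.Agent.MP_ba281e_nt.SG
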