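import Pool.Agent.MP_ba281e_nt.sg.Spec

/-!
PROJECT SG, second part: the spacings to the `k`-th neighbour. Definitions and statements.
-/

set_option autoImplicit false

namespace Pool.Agent.MP_ba281e_nt.SG

open Finset
open scoped Classical

/-- the number of `n ≤ N` with at most `j` other points within `σ / N` ahead on the circle -/
noncomputable def nbCount (α : ℝ) (N j : ℕ) (σ : ℝ) : ℕ :=
  ((Icc 1 N).filter fun n : ℕ => ((Icc 1 N).filter fun m : ℕ => m ≠ n ∧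
    Int.fract (Int.fract ((m : ℝ) ^ 2 * α) - Int.fract ((n : ℝ) ^ 2 * α)) ≤ σ / N).card ≤ j).card

section
variable {q : ℕ} [NeZero q]

/-- the number of points at `u` -/
noncomputable def zc (a : ZMod q) (N : ℕ) (u : ZMod q) : ℕ :=
  ((Icc 1 N).filter fun n : ℕ => a * ((n : ℕ) : ZMod q) ^ 2 = u).card

/-- the number of points in the window `t, …, t + W - 1` -/
noncomputable def cn (a : ZMod q) (N W : ℕ) (t : ZMod q) : ℕ := ∑ h ∈ range W, zc a N (t + h)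

/-- the number of windows with exactly `i` points -/
noncomputable def ve (a : ZMod q) (N W i : ℕ) : ℕ :=
  (univ.filter fun t : ZMod q => cn a N W t = i).card

/-- `∑ₜ (j + 1 - cn t)₊` -/
noncomputable def Uf (a : ZMod q) (N W j : ℕ) : ℝ :=
  ∑ i ∈ range (j + 1), ((j : ℝ) + 1 - i) * ve a N W i

end

/-- Poisson weights -/
noncomputable def po (i : ℕ) (c : ℝ) : ℝ := Real.exp (-c) * c ^ i / i.factorial

noncomputable def Qf (j : ℕ) (c : ℝ) : ℝ := ∑ i ∈ range (j + 1), po i c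

noncomputable def Gf (j : ℕ) (c : ℝ) : ℝ := ∑ i ∈ range (j + 1), ((j : ℝ) + 1 - i) * po i c

def PW2Stmt : Prop := ∀ (W K i : ℕ) (z : ℕ → ℕ) (ρ Y : ℝ), 0 ≤ ρ → (∀ h < W, (z h : ℝ) ≤ ρ) →
  1 ≤ Y → i ≤ K → (i : ℝ) ≤ Y → K * ρ < Y →
  |(if ∑ h ∈ range W, z h = i then (1 : ℝ) else 0) -
      ∑ k ∈ range (K + 1), (-1) ^ (k + i) * (k.choose i : ℝ) * es W k fun h => (z h : ℝ)| ≤
    2 ^ K * (es W K (fun h => (z h : ℝ)) + (if ∃ h < W, 2 ≤ z h then (K + 2) * Y ^ K else 0) +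
      ∑ k ∈ range (K + 1), (k + 1) * es W (k + 1) (fun h => (z h : ℝ)) / (Y - K * ρ))

def TRUStmt : Prop := ∀ (J : ℕ) (θ C : ℝ), 0 < θ → ∃ K : ℕ, J ≤ K ∧ ∀ c : ℝ, 0 < c → c ≤ C →
  2 ^ K * (c ^ K / K.factorial) ≤ θ ∧ ∀ i ≤ J,
    |po i c - ∑ k ∈ range (K + 1), (-1) ^ (k + i) * (k.choose i : ℝ) * (c ^ k / k.factorial)| ≤ θ

def CALStmt : Prop := ∀ j : ℕ, Qf j 0 = 1 ∧ ∀ u v : ℝ, 0 ≤ u → u ≤ v →
  0 ≤ Qf j v ∧ Qf j v ≤ Qf j u ∧ Qf j u - Qf j v ≤ v - u ∧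
    (v - u) * Qf j v ≤ Gf j u - Gf j v ∧ Gf j u - Gf j v ≤ (v - u) * Qf j u

def VEStmt : Prop := ∀ (J : ℕ) (θ C : ℝ), 0 < θ → ∃ A B : ℕ, 2 ≤ A ∧ A + 2 ≤ B ∧
  ∀ c : ℝ, 0 < c → c ≤ C →
  ∃ (x₀ : ℕ) (δ : ℝ), 0 < δ ∧ ∀ (x q : ℕ) [NeZero q] (s r N W : ℕ) (a : ℤ), x₀ ≤ x →
    Par A B x q s r N a → |(W : ℝ) * N / q - c| ≤ δ →
    ∀ i ≤ J, |(ve (a : ZMod q) N W i : ℝ) / q - po i c| ≤ θ

def TR2Stmt : Prop := ∀ (q : ℕ) [NeZero q] (N W₁ W₂ j : ℕ) (a : ℤ) (α σ : ℝ), 1 ≤ N → W₁ ≤ W₂ →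
  (N : ℝ) ^ 2 * |α - a / q| * q < 1 →
  (W₂ < q → (W₂ : ℝ) + 1 ≤ σ * q / N →
    ((W₂ : ℝ) - W₁) * ((nbCount α N j σ : ℝ) - tw (a : ZMod q) N) ≤
      Uf (a : ZMod q) N W₁ j - Uf (a : ZMod q) N W₂ j) ∧
  (σ * q / N ≤ W₁ →
    Uf (a : ZMod q) N W₁ j - Uf (a : ZMod q) N W₂ j ≤
      ((W₂ : ℝ) - W₁) * ((nbCount α N j σ : ℝ) + tw (a : ZMod q) N))

end Pool.Agent.MP_ba281e_nt.SG
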