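import Pool.Agent.MP_ba281e_nt.sg.Spec

/-! Row TRANS: from empty windows to gaps. -/

set_option autoImplicit false

namespace Pool.Agent.MP_ba281e_nt.SG

open Finset
open scoped Classical

namespace TransA

theorem mf {β : Type} {s : Finset β} {p : β → Prop} {i : DecidablePred p} {b : β} :
    b ∈ @filter β p i s ↔ b ∈ s ∧ p b := mem_filter

variable {q : ℕ} [NeZero q]

/-- values that are followed by an empty window -/
noncomputable def Gam (a : ZMod q) (N j : ℕ) : Finset (ZMod q) :=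
  univ.filter fun t => (∃ n ∈ Icc 1 N, a * ((n : ℕ) : ZMod q) ^ 2 = t) ∧
    ∀ n ∈ Icc 1 N, ∀ h < j, a * ((n : ℕ) : ZMod q) ^ 2 ≠ t + (h + 1 : ℕ)

theorem step (a : ZMod q) (N j : ℕ) : vd a N j = vd a N (j + 1) + (Gam a N j).card := by
  rw [vd, vd, ← card_union_of_disjoint (disjoint_left.2 fun t h1 h2 => by
    obtain ⟨⟨n, hn, e⟩, -⟩ := (mf.1 h2).2
    exact (mf.1 h1).2 n hn 0 j.succ_pos (by simpa using e))]
  refine card_nbij' (· - 1) (· + 1) (fun t ht => ?_) (fun t ht => ?_) (fun t _ => by simp)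
    fun t _ => by simp
  · have b : ∀ n ∈ Icc 1 N, ∀ h < j, a * ((n : ℕ) : ZMod q) ^ 2 ≠ t - 1 + (h + 1 : ℕ) :=
      fun n hn h hh e => (mf.1 ht).2 n hn h hh (by rw [e]; push_cast; ring)
    by_cases c : ∃ n ∈ Icc 1 N, a * ((n : ℕ) : ZMod q) ^ 2 = t - 1
    · exact mem_union_right _ (mf.2 ⟨mem_univ _, c, b⟩)
    · refine mem_union_left _ (mf.2 ⟨mem_univ _, fun n hn h hh e => ?_⟩)
      rcases h with _ | h
      · exact c ⟨n, hn, by simpa using e⟩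
      · exact b n hn h (by omega) e
  · refine mf.2 ⟨mem_univ _, fun n hn h hh e => ?_⟩
    have e' : a * ((n : ℕ) : ZMod q) ^ 2 = t + (h + 1 : ℕ) := by rw [e]; push_cast; ring
    rcases mem_union.1 ht with c | c
    · exact (mf.1 c).2 n hn (h + 1) (by omega) e'
    · exact (mf.1 c).2.2 n hn h hh e'

theorem tele (a : ZMod q) (N : ℕ) {W₁ W₂ : ℕ} (h : W₁ ≤ W₂) :
    (vd a N W₁ : ℝ) - vd a N W₂ = ∑ j ∈ Ico W₁ W₂, ((Gam a N j).card : ℝ) := by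
  induction W₂, h using Nat.le_induction with
  | base => simp
  | succ W h ih =>
    rw [sum_Ico_succ_top h, ← ih, step a N W]
    push_cast
    ring

theorem fr {N m n i : ℕ} {a : ℤ} {α : ℝ} (hα : (N : ℝ) ^ 2 * |α - a / q| * q < 1) (hm : m ≤ N)
    (hn : n ≤ N) (i1 : 1 ≤ i) (i2 : i + 1 ≤ q)
    (h : (a : ZMod q) * (m : ZMod q) ^ 2 = a * (n : ZMod q) ^ 2 + i) :
    |Int.fract (Int.fract ((m : ℝ) ^ 2 * α) - Int.fract ((n : ℝ) ^ 2 * α)) * q - i| < 1 := by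
  have q0 : (0 : ℝ) < q := Nat.cast_pos.2 (NeZero.pos q)
  obtain ⟨k, hk⟩ := (ZMod.intCast_zmod_eq_zero_iff_dvd (a * m ^ 2 - a * n ^ 2 - i) q).1
    (by push_cast; rw [h]; ring)
  have hk' : (a : ℝ) * m ^ 2 - a * n ^ 2 - i = q * k := by exact_mod_cast hk
  have m2 : (m : ℝ) ^ 2 ≤ N ^ 2 := by exact_mod_cast Nat.pow_le_pow_left hm 2
  have n2 : (n : ℝ) ^ 2 ≤ N ^ 2 := by exact_mod_cast Nat.pow_le_pow_left hn 2
  have e : |((m : ℝ) ^ 2 - n ^ 2) * (α - a / q) * q| < 1 := by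
    rw [abs_mul, abs_mul, abs_of_pos q0]
    refine lt_of_le_of_lt ?_ hα
    gcongr
    exact abs_le.2 ⟨by linarith [sq_nonneg (m : ℝ)], by linarith [sq_nonneg (n : ℝ)]⟩
  have y : (((m : ℝ) ^ 2 - n ^ 2) * α - k) * q - i = ((m : ℝ) ^ 2 - n ^ 2) * (α - a / q) * q := by
    field_simp
    linear_combination hk'
  rw [← y] at e
  have i1' : (1 : ℝ) ≤ i := by exact_mod_cast i1
  have i2' : (i : ℝ) + 1 ≤ q := by exact_mod_cast i2
  obtain ⟨e1, e2⟩ := abs_lt.1 e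
  rwa [Int.fract_eq_iff.2 ⟨nonneg_of_mul_nonneg_left (by linarith) q0,
    lt_of_mul_lt_mul_right (by linarith) q0.le, k - ⌊(m : ℝ) ^ 2 * α⌋ + ⌊(n : ℝ) ^ 2 * α⌋,
    show _ - (((m : ℝ) ^ 2 - n ^ 2) * α - k) = _ by unfold Int.fract; push_cast; ring⟩]

variable {N j : ℕ} {a : ℤ} {α σ : ℝ}

theorem lo (hα : (N : ℝ) ^ 2 * |α - a / q| * q < 1) (hq : j < q) (hj : (j : ℝ) + 1 ≤ σ / N * q) :
    gapCount α N σ ≤ (Gam (a : ZMod q) N j).card + tw (a : ZMod q) N := by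
  have q0 : (0 : ℝ) < q := Nat.cast_pos.2 (NeZero.pos q)
  rw [gapCount, tw, ← card_filter_add_card_filter_not fun n : ℕ => ∃ m ∈ Icc 1 N, m ≠ n ∧
    (a : ZMod q) * ((m : ℕ) : ZMod q) ^ 2 = a * ((n : ℕ) : ZMod q) ^ 2, add_comm]
  refine add_le_add (card_le_card_of_injOn (fun n : ℕ => (a : ZMod q) * (n : ZMod q) ^ 2)
    (fun n hn => ?_) fun n hn m hm e => ?_)
    (card_le_card fun n hn => mf.2 ⟨(mf.1 (mf.1 hn).1).1, (mf.1 hn).2⟩)
  · obtain ⟨n1, n2⟩ := mf.1 (mf.1 hn).1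
    refine mf.2 ⟨mem_univ _, ⟨n, n1, rfl⟩, fun m hm h hh e => ?_⟩
    have b := (abs_lt.1 (fr hα (mem_Icc.1 hm).2 (mem_Icc.1 n1).2 (by omega) (by omega) e)).2
    have c : (h : ℝ) + 1 ≤ j := by exact_mod_cast hh
    rcases eq_or_ne m n with rfl | ne
    · exact absurd (Nat.le_of_dvd h.succ_pos ((ZMod.natCast_eq_zero_iff _ _).1
        (left_eq_add.1 e))) (by omega)
    · have := mul_lt_mul_of_pos_right (n2 m hm ne) q0
      push_cast at b
      linarith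
  · by_contra ne
    exact (mf.1 hm).2 ⟨n, (mf.1 (mf.1 hn).1).1, ne, e⟩

theorem hi (hα : (N : ℝ) ^ 2 * |α - a / q| * q < 1) (hj : σ / N * q ≤ j) :
    (Gam (a : ZMod q) N j).card ≤ gapCount α N σ + tw (a : ZMod q) N := by
  have q0 : (0 : ℝ) < q := Nat.cast_pos.2 (NeZero.pos q)
  refine (card_le_card_of_surjOn (fun n : ℕ => (a : ZMod q) * (n : ZMod q) ^ 2)
    fun t ht => ?_).trans (card_union_le _ _)
  obtain ⟨⟨n, hn, rfl⟩, b⟩ := (mf.1 ht).2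
  refine ⟨n, mem_union.2 (or_iff_not_imp_right.2 fun c => mf.2 ⟨hn, fun m hm ne => ?_⟩),
    rfl⟩
  obtain ⟨i, hi, e⟩ : ∃ i < q, (a : ZMod q) * (m : ZMod q) ^ 2 = a * (n : ZMod q) ^ 2 + (i : ℕ) :=
    ⟨_, ZMod.val_lt ((a : ZMod q) * (m : ZMod q) ^ 2 - (a : ZMod q) * (n : ZMod q) ^ 2), by simp⟩
  rcases i with _ | i
  · exact (c (mf.2 ⟨hn, m, hm, ne, by simpa using e⟩)).elim
  have d : (j : ℝ) ≤ i := by exact_mod_cast not_lt.1 fun h => b m hm i h e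
  have f := (abs_lt.1 (fr hα (mem_Icc.1 hm).2 (mem_Icc.1 hn).2 (by omega) hi e)).1
  push_cast at f
  exact lt_of_mul_lt_mul_right (by linarith) q0.le

end TransA

open TransA in
theorem trans : TRANSStmt := by
  intro q _ N W₁ W₂ a α σ _ hW hα
  rw [tele _ _ hW, mul_div_right_comm, ← Nat.cast_sub hW, ← Nat.card_Ico, ← nsmul_eq_mul,
    ← nsmul_eq_mul]
  refine ⟨fun h1 h2 => card_nsmul_le_sum _ _ _ fun j hj => ?_,
    fun h => sum_le_card_nsmul _ _ _ fun j hj => ?_⟩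
  · have b := (mem_Ico.1 hj).2
    have c : (j : ℝ) < W₂ := by exact_mod_cast b
    rw [sub_le_iff_le_add]
    exact_mod_cast lo hα (b.trans h1) (by linarith)
  · exact_mod_cast hi hα (h.trans (Nat.cast_le.2 (mem_Ico.1 hj).1))

end Pool.Agent.MP_ba281e_nt.SG
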