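import Pool.Agent.MP_ba281e_nt.sg.Spec2
import Pool.Agent.MP_ba281e_nt.sg.Trans

/-! Row TR2: from window counts to spacings to the `k`-th neighbour. -/

set_option autoImplicit false

namespace Pool.Agent.MP_ba281e_nt.SG

open Finset
open scoped Classical

namespace Tr2A

open TransA

/-- the positive part of `j + 1 - Z` -/
noncomputable def phi (j Z : ℕ) : ℝ := if Z ≤ j then (j : ℝ) + 1 - Z else 0

theorem phi_lo (j Z z : ℕ) :
    (if 1 ≤ z ∧ Z ≤ j then (1 : ℝ) else 0) ≤ phi j Z - phi j (z + Z) := by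
  unfold phi
  by_cases h1 : Z ≤ j
  · have e1 : (Z : ℝ) ≤ j := by exact_mod_cast h1
    have e0 : (0 : ℝ) ≤ z := Nat.cast_nonneg _
    by_cases h2 : 1 ≤ z
    · have e2 : (1 : ℝ) ≤ z := by exact_mod_cast h2
      rw [if_pos ⟨h2, h1⟩, if_pos h1]
      split_ifs <;> push_cast <;> linarith
    · rw [if_neg fun h => h2 h.1, if_pos h1]
      split_ifs <;> push_cast <;> linarith
  · rw [if_neg fun h => h1 h.2, if_neg h1, if_neg (by omega)]
    simp

theorem phi_hi (j Z z : ℕ) :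
    phi j Z - phi j (z + Z) ≤ z * (if Z ≤ j then (1 : ℝ) else 0) := by
  unfold phi
  by_cases h1 : Z ≤ j
  · rw [if_pos h1, if_pos h1]
    split_ifs with h2
    · push_cast; linarith
    · have : (j : ℝ) + 1 ≤ z + Z := by exact_mod_cast (show j + 1 ≤ z + Z by omega)
      linarith
  · rw [if_neg h1, if_neg h1, if_neg (by omega)]
    simp

variable {q : ℕ} [NeZero q]

theorem Uf_eq (a : ZMod q) (N W j : ℕ) : Uf a N W j = ∑ t : ZMod q, phi j (cn a N W t) := by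
  unfold Uf ve
  simp only [card_filter]
  push_cast
  simp only [mul_sum]
  rw [sum_comm]
  refine sum_congr rfl fun t _ => ?_
  simp only [mul_ite, mul_one, mul_zero, sum_ite_eq, mem_range, Nat.lt_succ_iff, phi]

theorem cn_succ (a : ZMod q) (N w : ℕ) (t : ZMod q) :
    cn a N (w + 1) t = zc a N t + cn a N w (t + 1) := by
  unfold cn
  rw [sum_range_succ', add_comm]
  congr 1
  · simp
  · refine sum_congr rfl fun h _ => ?_
    congr 1
    push_cast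
    ring

theorem step (a : ZMod q) (N w j : ℕ) : Uf a N w j - Uf a N (w + 1) j =
    ∑ t : ZMod q, (phi j (cn a N w (t + 1)) - phi j (zc a N t + cn a N w (t + 1))) := by
  rw [Uf_eq, Uf_eq, sum_sub_distrib]
  congr 1
  · exact (Equiv.sum_comp (Equiv.addRight (1 : ZMod q)) fun t => phi j (cn a N w t)).symm
  · exact sum_congr rfl fun t _ => by rw [cn_succ]

theorem tele (a : ZMod q) (N j : ℕ) {W₁ W₂ : ℕ} (h : W₁ ≤ W₂) :
    Uf a N W₁ j - Uf a N W₂ j = ∑ w ∈ Ico W₁ W₂, (Uf a N w j - Uf a N (w + 1) j) := by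
  induction W₂, h using Nat.le_induction with
  | base => simp
  | succ W h ih =>
    rw [sum_Ico_succ_top h, ← ih]
    ring

variable {N w j : ℕ} {a : ℤ} {α σ : ℝ}

theorem cn_le (hα : (N : ℝ) ^ 2 * |α - a / q| * q < 1) (hq : w < q)
    (hw : (w : ℝ) + 1 ≤ σ / N * q) {n : ℕ} (hn : n ∈ Icc 1 N) :
    cn (a : ZMod q) N w ((a : ZMod q) * (n : ZMod q) ^ 2 + 1) ≤ ((Icc 1 N).filter fun m : ℕ => m ≠ n ∧
      Int.fract (Int.fract ((m : ℝ) ^ 2 * α) - Int.fract ((n : ℝ) ^ 2 * α)) ≤ σ / N).card := by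
  have q0 : (0 : ℝ) < q := Nat.cast_pos.2 (NeZero.pos q)
  unfold cn zc
  rw [← card_biUnion]
  · refine card_le_card fun m hm => ?_
    obtain ⟨h, hh, hm'⟩ := mem_biUnion.1 hm
    obtain ⟨m1, m2⟩ := mf.1 hm'
    have hh' := mem_range.1 hh
    have e : (a : ZMod q) * (m : ZMod q) ^ 2 = a * (n : ZMod q) ^ 2 + (h + 1 : ℕ) := by
      rw [m2]; push_cast; ring
    have b := (abs_lt.1 (fr hα (mem_Icc.1 m1).2 (mem_Icc.1 hn).2 (by omega) (by omega) e)).2
    have c : (h : ℝ) + 1 ≤ w := by exact_mod_cast hh'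
    refine mf.2 ⟨m1, ?_, ?_⟩
    · rintro rfl
      exact absurd (Nat.le_of_dvd h.succ_pos ((ZMod.natCast_eq_zero_iff _ _).1
        (left_eq_add.1 e))) (by omega)
    · push_cast at b
      exact le_of_mul_le_mul_right (by linarith) q0
  · intro h hh h' hh' ne
    refine disjoint_left.2 fun m h1 h2 => ne ?_
    have e : ((h : ℕ) : ZMod q) = h' := add_left_cancel ((mf.1 h1).2.symm.trans (mf.1 h2).2)
    have k1 := mem_range.1 (mem_coe.1 hh)
    have k2 := mem_range.1 (mem_coe.1 hh')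
    exact Nat.ModEq.eq_of_lt_of_lt ((ZMod.natCast_eq_natCast_iff _ _ _).1 e) (by omega) (by omega)

theorem le_cn (hα : (N : ℝ) ^ 2 * |α - a / q| * q < 1) (hw : σ / N * q ≤ w) {n : ℕ}
    (hn : n ∈ Icc 1 N) (c : ¬ ∃ m ∈ Icc 1 N, m ≠ n ∧
      (a : ZMod q) * ((m : ℕ) : ZMod q) ^ 2 = a * ((n : ℕ) : ZMod q) ^ 2) :
    ((Icc 1 N).filter fun m : ℕ => m ≠ n ∧
      Int.fract (Int.fract ((m : ℝ) ^ 2 * α) - Int.fract ((n : ℝ) ^ 2 * α)) ≤ σ / N).card ≤
      cn (a : ZMod q) N w ((a : ZMod q) * (n : ZMod q) ^ 2 + 1) := by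
  have q0 : (0 : ℝ) < q := Nat.cast_pos.2 (NeZero.pos q)
  unfold cn zc
  refine le_trans (card_le_card fun m hm => ?_) card_biUnion_le
  obtain ⟨m1, ne, m2⟩ := mf.1 hm
  obtain ⟨i, hi, e⟩ : ∃ i < q, (a : ZMod q) * (m : ZMod q) ^ 2 = a * (n : ZMod q) ^ 2 + (i : ℕ) :=
    ⟨_, ZMod.val_lt ((a : ZMod q) * (m : ZMod q) ^ 2 - (a : ZMod q) * (n : ZMod q) ^ 2), by simp⟩
  rcases i with _ | i
  · exact (c ⟨m, m1, ne, by simpa using e⟩).elim
  have f := (abs_lt.1 (fr hα (mem_Icc.1 m1).2 (mem_Icc.1 hn).2 (by omega) hi e)).1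
  push_cast at f
  have g := mul_le_mul_of_nonneg_right m2 q0.le
  have d : i < w := by exact_mod_cast (show (i : ℝ) < w by linarith)
  exact mem_biUnion.2 ⟨i, mem_range.2 d, mf.2 ⟨m1, by rw [e]; push_cast; ring⟩⟩

theorem lo (hα : (N : ℝ) ^ 2 * |α - a / q| * q < 1) (hq : w < q)
    (hw : (w : ℝ) + 1 ≤ σ / N * q) :
    nbCount α N j σ ≤ (univ.filter fun t : ZMod q =>
      1 ≤ zc (a : ZMod q) N t ∧ cn (a : ZMod q) N w (t + 1) ≤ j).card + tw (a : ZMod q) N := by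
  rw [nbCount, tw, ← card_filter_add_card_filter_not fun n : ℕ => ∃ m ∈ Icc 1 N, m ≠ n ∧
    (a : ZMod q) * ((m : ℕ) : ZMod q) ^ 2 = a * ((n : ℕ) : ZMod q) ^ 2, add_comm]
  refine add_le_add (card_le_card_of_injOn (fun n : ℕ => (a : ZMod q) * (n : ZMod q) ^ 2)
    (fun n hn => ?_) fun n hn m hm e => ?_)
    (card_le_card fun n hn => mf.2 ⟨(mf.1 (mf.1 hn).1).1, (mf.1 hn).2⟩)
  · obtain ⟨n1, n2⟩ := mf.1 (mf.1 hn).1
    exact mf.2 ⟨mem_univ _, card_pos.2 ⟨n, mf.2 ⟨n1, rfl⟩⟩, (cn_le hα hq hw n1).trans n2⟩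
  · by_contra ne
    exact (mf.1 hm).2 ⟨n, (mf.1 (mf.1 hn).1).1, ne, e⟩

theorem hi (hα : (N : ℝ) ^ 2 * |α - a / q| * q < 1) (hw : σ / N * q ≤ w) :
    ∑ t ∈ univ.filter (fun t : ZMod q => cn (a : ZMod q) N w (t + 1) ≤ j), zc (a : ZMod q) N t ≤
      nbCount α N j σ + tw (a : ZMod q) N := by
  unfold zc
  rw [← card_biUnion]
  · refine le_trans (card_le_card fun n hn => ?_) (card_union_le _ _)
    obtain ⟨t, ht, hn'⟩ := mem_biUnion.1 hn
    obtain ⟨n1, rfl⟩ := mf.1 hn'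
    refine mem_union.2 (or_iff_not_imp_right.2 fun c => mf.2 ⟨n1, ?_⟩)
    exact (le_cn hα hw n1 fun h => c (mf.2 ⟨n1, h⟩)).trans (mf.1 ht).2
  · intro t _ t' _ ne
    exact disjoint_left.2 fun m h1 h2 => ne ((mf.1 h1).2.symm.trans (mf.1 h2).2)

end Tr2A

open Tr2A in
theorem tr2 : TR2Stmt := by
  intro q _ N W₁ W₂ j a α σ _ hW hα
  rw [tele _ _ _ hW, mul_div_right_comm, ← Nat.cast_sub hW, ← Nat.card_Ico, ← nsmul_eq_mul,
    ← nsmul_eq_mul]
  refine ⟨fun h1 h2 => card_nsmul_le_sum _ _ _ fun w hw => ?_,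
    fun h => sum_le_card_nsmul _ _ _ fun w hw => ?_⟩
  · have b := (mem_Ico.1 hw).2
    have c : (w : ℝ) < W₂ := by exact_mod_cast b
    rw [sub_le_iff_le_add, step]
    have e : (nbCount α N j σ : ℝ) ≤ (univ.filter fun t : ZMod q =>
        1 ≤ zc (a : ZMod q) N t ∧ cn (a : ZMod q) N w (t + 1) ≤ j).card + tw (a : ZMod q) N := by
      exact_mod_cast lo hα (b.trans h1) (by linarith)
    refine e.trans (add_le_add ?_ le_rfl)
    rw [card_filter]
    push_cast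
    exact sum_le_sum fun t _ => phi_lo _ _ _
  · rw [step]
    have e : ((∑ t ∈ univ.filter (fun t : ZMod q => cn (a : ZMod q) N w (t + 1) ≤ j),
        zc (a : ZMod q) N t : ℕ) : ℝ) ≤ nbCount α N j σ + tw (a : ZMod q) N := by
      exact_mod_cast hi hα (h.trans (Nat.cast_le.2 (mem_Ico.1 hw).1))
    refine le_trans ?_ e
    rw [sum_filter]
    push_cast
    refine sum_le_sum fun t _ => (phi_hi _ _ _).trans (le_of_eq ?_)
    split_ifs <;> simp

end Pool.Agent.MP_ba281e_nt.SG
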