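import Pool.Agent.MP_ba281e_nt.sg.Spec

/-!
The number of empty windows, by the Bonferroni inequalities.
-/

set_option autoImplicit false

namespace Pool.Agent.MP_ba281e_nt.SG

open Finset Filter Topology
open scoped Classical

namespace VoidA

variable {q : ℕ} [NeZero q]

/-- the number of good roots in `[1, N]` -/
noncomputable def zn (M a : ZMod q) (D N : ℕ) (u : ZMod q) : ℕ :=
  ((rts M a D u).filter fun n => 1 ≤ n.val ∧ n.val ≤ N).card

theorem zn_eq (M a : ZMod q) (D N : ℕ) (u : ZMod q) : (zn M a D N u : ℝ) = Zf M a D (ind N) u := by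
  simp only [zn, Zf, ind, sum_boole]

omit [NeZero q] in
theorem cover (a : ZMod q) (W : ℕ) (S : Finset ℕ) (T : Finset (ZMod q))
    (h : ∀ t ∈ T, ∃ n ∈ S, ∃ h < W, a * ((n : ℕ) : ZMod q) ^ 2 = t + h) : T.card ≤ W * S.card := by
  refine (card_le_card (t := (range W ×ˢ S).image fun z : ℕ × ℕ =>
    a * ((z.2 : ℕ) : ZMod q) ^ 2 - z.1) fun t ht => ?_).trans (card_image_le.trans (by simp))
  obtain ⟨n, h1, j, h2, h3⟩ := h t ht
  exact mem_image.2 ⟨(j, n), mem_product.2 ⟨mem_range.2 h2, h1⟩, by simp [h3]⟩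

theorem twin (M a : ZMod q) (D N W : ℕ) :
    (univ.filter fun t : ZMod q => ∃ h < W, 2 ≤ zn M a D N (t + h)).card ≤ W * tw a N := by
  refine cover a W _ _ fun t ht => ?_
  obtain ⟨h, h1, h2⟩ := (mem_filter.1 ht).2
  obtain ⟨n, a1, m, a2, a3⟩ := one_lt_card.1 h2
  obtain ⟨b1, b2⟩ := mem_filter.1 a1
  obtain ⟨c1, c2⟩ := mem_filter.1 a2
  refine ⟨n.val, mem_filter.2 ⟨mem_Icc.2 b2, m.val, mem_Icc.2 c2,
    fun e => a3 (ZMod.val_injective q e).symm, ?_⟩, h, h1, ?_⟩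
  · rw [ZMod.natCast_zmod_val, ZMod.natCast_zmod_val, (mem_rts.1 b1).2, (mem_rts.1 c1).2]
  · rw [ZMod.natCast_zmod_val, (mem_rts.1 b1).2]

theorem mem_vd (a : ZMod q) (N W : ℕ) : ∃ S : Finset (ZMod q), vd a N W = S.card ∧
    ∀ t, t ∈ S ↔ ∀ n ∈ Icc 1 N, ∀ h < W, a * ((n : ℕ) : ZMod q) ^ 2 ≠ t + h :=
  ⟨_, rfl, fun t => by simp only [mem_filter, mem_univ, true_and]⟩

theorem sandwich (M a : ZMod q) (D N W : ℕ) (hN : N < q) :
    vd a N W ≤ (univ.filter fun t : ZMod q => ∀ h < W, zn M a D N (t + h) = 0).card ∧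
    (univ.filter fun t : ZMod q => ∀ h < W, zn M a D N (t + h) = 0).card ≤
      vd a N W + W * ((Icc 1 N).filter fun n : ℕ => ¬ Good M a D (n : ZMod q)).card := by
  obtain ⟨S, e, hS⟩ := mem_vd a N W
  rw [e]
  constructor
  · refine card_le_card fun t ht => mem_filter.2 ⟨mem_univ _, fun h h1 => ?_⟩
    refine card_eq_zero.2 (eq_empty_of_forall_notMem fun n hn => ?_)
    obtain ⟨b1, b2⟩ := mem_filter.1 hn
    refine (hS t).1 ht n.val (mem_Icc.2 b2) h h1 ?_
    rw [ZMod.natCast_zmod_val, (mem_rts.1 b1).2]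
  · rw [← card_filter_add_card_filter_not (s := univ.filter fun t : ZMod q =>
      ∀ h < W, zn M a D N (t + h) = 0)
      (fun t => t ∈ S)]
    refine add_le_add (card_le_card fun t ht => (mem_filter.1 ht).2)
      (cover a W _ _ fun t ht => ?_)
    obtain ⟨h1, h2⟩ := mem_filter.1 ht
    rw [hS] at h2
    push Not at h2
    obtain ⟨n, a1, h, a2, a3⟩ := h2
    refine ⟨n, mem_filter.2 ⟨a1, fun hg => ?_⟩, h, a2, a3⟩
    have h3 := card_eq_zero.1 ((mem_filter.1 h1).2 h a2)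
    have h4 : ((n : ℕ) : ZMod q).val = n := ZMod.val_cast_of_lt (by have := mem_Icc.1 a1; omega)
    exact notMem_empty _ (h3 ▸ mem_filter.2 ⟨mem_rts.2 ⟨hg, a3⟩, by rw [h4]; exact mem_Icc.1 a1⟩)

theorem bonf (hP : PWStmt) (M a : ZMod q) (D N W K : ℕ) {ρ Y : ℝ} (h0 : 0 ≤ ρ)
    (hρ : ∀ u, ((rts M a D u).card : ℝ) ≤ ρ) (hY : 1 ≤ Y) (hK : K * ρ < Y) :
    |((univ.filter fun t : ZMod q => ∀ h < W, zn M a D N (t + h) = 0).card : ℝ) -
        ∑ k ∈ range (K + 1), (-1) ^ k * mom M a D W k (ind N)| ≤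
      mom M a D W K (ind N) + W * tw a N * ((K + 1) * Y ^ K) +
        ∑ k ∈ range (K + 1), (k + 1) * mom M a D W (k + 1) (ind N) / (Y - K * ρ) := by
  have h1 := fun t : ZMod q => hP W K (fun h => zn M a D N (t + h)) ρ Y h0 (fun h _ =>
    le_trans (by exact_mod_cast card_filter_le _ _) (hρ (t + h))) hY hK
  simp only [zn_eq] at h1
  have h2 := (abs_sum_le_sum_abs _ _).trans (sum_le_sum fun t (_ : t ∈ univ) => h1 t)
  rw [sum_sub_distrib, sum_boole, sum_comm, sum_add_distrib, sum_add_distrib, ← sum_filter,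
    sum_const, nsmul_eq_mul, sum_comm (s := univ)] at h2
  simp only [← mul_sum, ← sum_div] at h2
  refine h2.trans (add_le_add (add_le_add le_rfl ?_) (le_of_eq ?_))
  · exact mul_le_mul_of_nonneg_right (by exact_mod_cast twin M a D N W) (by positivity)
  · rw [sum_div]; rfl

theorem trunc {θ : ℝ} (C : ℝ) (hθ : 0 < θ) : ∃ K : ℕ, ∀ c : ℝ, 0 < c → c ≤ C →
    c ^ K / K.factorial ≤ θ ∧
      |Real.exp (-c) - ∑ k ∈ range (K + 1), (-1) ^ k * (c ^ k / k.factorial)| ≤ θ := by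
  have h1 := (FloorSemiring.tendsto_pow_div_factorial_atTop C).eventually (ge_mem_nhds hθ)
  obtain ⟨K, h2, h3⟩ := (h1.and (eventually_ge_atTop ⌈2 * C⌉₊)).exists
  refine ⟨K, fun c c0 c1 => ?_⟩
  have h4 : c ^ K / K.factorial ≤ θ := le_trans (by gcongr) h2
  have h5 : 2 * C ≤ K := Nat.ceil_le.1 h3
  refine ⟨h4, ?_⟩
  have hn : ‖((-c : ℝ) : ℂ)‖ = c := by rw [Complex.norm_real, norm_neg, Real.norm_of_nonneg c0.le]
  have h6 := Complex.exp_bound' (x := ((-c : ℝ) : ℂ)) (n := K + 1) (by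
    rw [hn, div_le_iff₀ (by positivity)]; push_cast; linarith)
  have e : Complex.exp ((-c : ℝ) : ℂ) - ∑ m ∈ range (K + 1), ((-c : ℝ) : ℂ) ^ m / m.factorial =
      ((Real.exp (-c) - ∑ k ∈ range (K + 1), (-1) ^ k * (c ^ k / k.factorial) : ℝ) : ℂ) := by
    push_cast
    congr 1
    exact sum_congr rfl fun k _ => by rw [neg_pow]; ring
  rw [e, Complex.norm_real, Real.norm_eq_abs, hn] at h6
  refine h6.trans (le_trans ?_ h4)
  rw [Nat.factorial_succ, pow_succ]
  push_cast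
  have h7 : 0 < c ^ K / K.factorial := by positivity
  calc c ^ K * c / ((K + 1) * K.factorial) * 2 = c ^ K / K.factorial * (2 * c / (K + 1)) := by
        field_simp
    _ ≤ _ := mul_le_of_le_one_right h7.le (by rw [div_le_one (by positivity)]; linarith)

end VoidA

open VoidA in
theorem void (hP : PWStmt) (hA : ARIStmt) (hM : MOMStmt) : VOIDStmt := by
  intro θ C hθ
  obtain ⟨K, hK⟩ := trunc C (show 0 < θ / 8 by positivity)
  have h1 : ∀ k : Fin (K + 2), _ := fun k => hM k (4 * K + 10) (by have := k.2; omega)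
  choose B₀ hB using h1
  refine ⟨4 * K + 10, 4 * K + 12 + ∑ k, B₀ k, by omega, by omega, fun c c0 c1 => ?_⟩
  set τ : ℝ := min 1 (θ / (8 * (K + 2))) with hτ
  have τ0 : 0 < τ := by positivity
  have h2 := fun k => hB k c τ c0 τ0
  choose x₀ δ δ0 hx using h2
  obtain ⟨δ', d0, d1, d2⟩ : ∃ δ' : ℝ, 0 < δ' ∧ δ' ≤ 1 ∧ ∀ k, δ' ≤ δ k := by
    obtain ⟨k, -, hk⟩ := exists_min_image univ δ univ_nonempty
    exact ⟨min 1 (δ k), lt_min one_pos (δ0 k), min_le_left _ _,
      fun j => (min_le_right _ _).trans (hk j (mem_univ _))⟩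
  set Γ : ℝ := 2 * (C + 1) + 4 * (K + 1) * (C + 1) + (K + 1) ^ 2 * (Real.exp C + 1) with hΓ
  refine ⟨K + 2 + ⌈2 * Γ / θ⌉₊ + ∑ k, x₀ k, δ', d0, fun x q _ s r N W a hx0 P hy => ?_⟩
  obtain ⟨k1, k2⟩ := hK c c0 c1
  obtain ⟨a1, a2, a3⟩ := hA q s r (x ^ 2) a P.hq P.sqf P.cop
  have hq : (0 : ℝ) < q := by exact_mod_cast Nat.pos_of_ne_zero (NeZero.ne q)
  have x2 : K + 2 ≤ x := by omega
  have x2' : (K : ℝ) + 2 ≤ x := by exact_mod_cast x2
  have K0 : (0 : ℝ) ≤ K := by positivity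
  have x0 : (0 : ℝ) < x := by linarith
  have x1 : (1 : ℝ) ≤ x := by linarith
  have xΓ : Γ / x ≤ θ / 2 := by
    have : 2 * Γ / θ ≤ x := Nat.ceil_le.1 (by omega)
    rw [div_le_iff₀ hθ] at this
    rw [div_le_iff₀ x0]; linarith
  have hNq : N * x ^ (4 * K + 10) ≤ q := P.hN ▸ Nat.div_mul_le_self _ _
  have hNq' : (N : ℝ) * x ^ (4 * K + 10) ≤ q := by exact_mod_cast hNq
  have hN : N < q := P.hN ▸ Nat.div_lt_self (Nat.pos_of_ne_zero (NeZero.ne q))
    (Nat.one_lt_pow (by omega) (by omega))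
  have hτx : (q.divisors.card : ℝ) ≤ x := by exact_mod_cast P.tau
  set M : ZMod q := ((s * r : ℕ) : ZMod q)
  set m : ℕ → ℝ := fun k => mom M (a : ZMod q) (x ^ 2) W k (ind N) / q with hm
  have hmk : ∀ k ≤ K + 1, |m k - c ^ k / k.factorial| ≤ τ := fun k hk =>
    hx ⟨k, by omega⟩ x q _ s r N W a
      (le_trans (single_le_sum (f := x₀) (fun _ _ => Nat.zero_le _) (mem_univ _)) (by omega))
      (le_trans (single_le_sum (f := B₀) (fun _ _ => Nat.zero_le _) (mem_univ _)) (by omega)) P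
      (hy.trans (d2 _))
  have hm2 : ∀ k ≤ K + 1, m k ≤ Real.exp C + 1 := fun k hk => by
    have := (abs_le.1 (hmk k hk)).2
    have := Real.pow_div_factorial_le_exp c c0.le k
    have := Real.exp_le_exp.2 c1
    have : τ ≤ 1 := min_le_left _ _
    linarith
  have hyC : (W : ℝ) * N / q ≤ C + 1 := by have := (abs_le.1 hy).2; linarith
  have hY : (x : ℝ) ≤ x ^ 4 - K * x ^ 3 := by
    have : (x : ℝ) ≤ x ^ 3 := le_self_pow₀ x1 (by norm_num)
    nlinarith
  have b := bonf hP M (a : ZMod q) (x ^ 2) N W K (ρ := x ^ 3) (Y := x ^ 4) (by positivity)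
    (fun u => by
      have : ((rts M (a : ZMod q) (x ^ 2) u).card : ℝ) ≤ q.divisors.card * x ^ 2 := by
        exact_mod_cast a1 u
      nlinarith [sq_nonneg (x : ℝ)])
    (one_le_pow₀ x1) (by linarith)
  obtain ⟨s1, s2⟩ := sandwich M (a : ZMod q) (x ^ 2) N W hN
  set V := (univ.filter fun t : ZMod q => ∀ h < W, zn M (a : ZMod q) (x ^ 2) N (t + h) = 0).card
  set bad := ((Icc 1 N).filter fun n : ℕ => ¬ Good M (a : ZMod q) (x ^ 2) (n : ZMod q)).card
  have e1 : (W : ℝ) * bad / q ≤ 2 * (C + 1) / x := by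
    have h3 : (bad : ℝ) * x ^ 2 ≤ 2 * q.divisors.card * N := by exact_mod_cast a2 N
    have h4 : (bad : ℝ) ≤ 2 * N / x := by
      rw [le_div_iff₀ x0]
      refine le_of_mul_le_mul_right ?_ x0
      have : 2 * (q.divisors.card : ℝ) * N ≤ 2 * x * N := by gcongr
      nlinarith
    calc (W : ℝ) * bad / q ≤ W * (2 * N / x) / q := by gcongr
      _ = 2 * (W * N / q) / x := by ring
      _ ≤ _ := by gcongr
  have e2 : (W : ℝ) * tw (a : ZMod q) N * ((K + 1) * (x ^ 4) ^ K) / q ≤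
      4 * (K + 1) * (C + 1) / x := by
    have h3 : (tw (a : ZMod q) N : ℝ) * q ≤ 4 * q.divisors.card * N ^ 2 := by exact_mod_cast a3 N
    have h4 : (tw (a : ZMod q) N : ℝ) * (x ^ 4) ^ K * x ≤ 4 * N := by
      refine le_of_mul_le_mul_right ?_ hq
      have h5 : (x : ℝ) * (x ^ 4) ^ K * x ≤ x ^ (4 * K + 10) := by
        rw [← pow_mul, ← pow_succ', ← pow_succ]
        exact pow_le_pow_right₀ x1 (by omega)
      calc (tw (a : ZMod q) N : ℝ) * (x ^ 4) ^ K * x * q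
          = (tw (a : ZMod q) N : ℝ) * q * ((x ^ 4) ^ K * x) := by ring
        _ ≤ (4 : ℝ) * x * N ^ 2 * ((x ^ 4) ^ K * x) := by
            refine mul_le_mul_of_nonneg_right (h3.trans ?_) (by positivity)
            gcongr
        _ = (4 : ℝ) * N * (N * (x * (x ^ 4) ^ K * x)) := by ring
        _ ≤ (4 : ℝ) * N * q := by
            refine mul_le_mul_of_nonneg_left (le_trans ?_ hNq') (by positivity)
            gcongr
    have h6 : (tw (a : ZMod q) N : ℝ) * (x ^ 4) ^ K ≤ 4 * N / x := by rwa [le_div_iff₀ x0]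
    calc (W : ℝ) * tw (a : ZMod q) N * ((K + 1) * (x ^ 4) ^ K) / q
        = ((K : ℝ) + 1) * W * (tw (a : ZMod q) N * (x ^ 4) ^ K) / q := by ring
      _ ≤ ((K : ℝ) + 1) * W * (4 * N / x) / q := by gcongr
      _ = 4 * ((K : ℝ) + 1) * (W * N / q) / x := by ring
      _ ≤ _ := by gcongr
  have e3 : ∑ k ∈ range (K + 1), ((k : ℝ) + 1) * m (k + 1) / (x ^ 4 - K * x ^ 3) ≤
      (K + 1) ^ 2 * (Real.exp C + 1) / x := by
    refine (sum_le_card_nsmul _ _ ((K + 1) * (Real.exp C + 1) / x) fun k hk => ?_).trans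
      (le_of_eq (by rw [card_range, nsmul_eq_mul]; push_cast; ring))
    have hk' := mem_range.1 hk
    have : (k : ℝ) ≤ K := by exact_mod_cast (by omega : k ≤ K)
    refine div_le_div₀ (by positivity) ?_ x0 hY
    exact (mul_le_mul_of_nonneg_left (hm2 _ (by omega)) (by positivity)).trans (by gcongr)
  have e4 : |∑ k ∈ range (K + 1), (-1) ^ k * m k -
      ∑ k ∈ range (K + 1), (-1) ^ k * (c ^ k / k.factorial)| ≤ (K + 1) * τ := by
    rw [← sum_sub_distrib]
    refine (abs_sum_le_sum_abs _ _).trans ((sum_le_card_nsmul _ _ τ fun k hk => ?_).trans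
      (le_of_eq (by rw [card_range, nsmul_eq_mul]; push_cast; ring)))
    rw [← mul_sub, abs_mul, abs_pow, abs_neg, abs_one, one_pow, one_mul]
    exact hmk k (by have := mem_range.1 hk; omega)
  have e5 : |(V : ℝ) / q - ∑ k ∈ range (K + 1), (-1) ^ k * m k| ≤
      m K + W * tw (a : ZMod q) N * ((K + 1) * (x ^ 4) ^ K) / q +
        ∑ k ∈ range (K + 1), ((k : ℝ) + 1) * m (k + 1) / (x ^ 4 - K * x ^ 3) := by
    have h3 := div_le_div_of_nonneg_right b hq.le
    rw [← abs_of_pos hq, ← abs_div, abs_of_pos hq, sub_div, add_div, add_div, sum_div,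
      sum_div] at h3
    refine le_of_eq_of_le ?_ (h3.trans (le_of_eq ?_))
    · rw [sum_congr rfl fun k _ => (mul_div_assoc _ _ _).symm]
    · exact congrArg _ (sum_congr rfl fun k _ => by simp only [hm]; ring)
  have e6 : ((K : ℝ) + 2) * τ ≤ θ / 8 := by
    have : τ ≤ θ / (8 * (K + 2)) := min_le_right _ _
    rw [le_div_iff₀ (by positivity)] at this
    linarith
  have s1' : (vd (a : ZMod q) N W : ℝ) / q ≤ V / q := by gcongr
  have s2' : (V : ℝ) / q ≤ vd (a : ZMod q) N W / q + W * bad / q := by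
    rw [← add_div]
    exact div_le_div_of_nonneg_right (by exact_mod_cast s2) hq.le
  have e7 : Γ / x = 2 * (C + 1) / x + 4 * (K + 1) * (C + 1) / x +
      (K + 1) ^ 2 * (Real.exp C + 1) / x := by rw [hΓ]; ring
  have e8 := (abs_le.1 (hmk K (by omega))).2
  have e9 : 0 ≤ (W : ℝ) * bad / q := by positivity
  obtain ⟨f1, f2⟩ := abs_le.1 e4
  obtain ⟨f3, f4⟩ := abs_le.1 e5
  obtain ⟨f5, f6⟩ := abs_le.1 k2
  rw [abs_le]
  constructor <;> linarith

end Pool.Agent.MP_ba281e_nt.SG
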