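import Pool.Agent.MP_ba281e_nt.sg.Spec2
import Pool.Agent.MP_ba281e_nt.sg.Void

/-!
The number of windows with a given number of points.
-/

set_option autoImplicit false

namespace Pool.Agent.MP_ba281e_nt.SG

open Finset Filter Topology
open scoped Classical

namespace VeA
open VoidA

variable {q : ℕ} [NeZero q]

theorem zc_eq (M a : ZMod q) (D N : ℕ) (hN : N < q) (u : ZMod q)
    (h : ∀ n ∈ Icc 1 N, a * ((n : ℕ) : ZMod q) ^ 2 = u → Good M a D (n : ZMod q)) :
    zc a N u = zn M a D N u := by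
  have v : ∀ n ∈ Icc 1 N, ((n : ℕ) : ZMod q).val = n := fun n hn =>
    ZMod.val_cast_of_lt (by have := mem_Icc.1 hn; omega)
  refine card_nbij' (fun n : ℕ => (n : ZMod q)) (fun n => n.val) (fun n hn => ?_) (fun n hn => ?_)
    (fun n hn => ?_) fun n _ => ZMod.natCast_zmod_val n
  · obtain ⟨b1, b2⟩ := mem_filter.1 (mem_coe.1 hn)
    exact mem_coe.2 (mem_filter.2 ⟨mem_rts.2 ⟨h n b1 b2, b2⟩, by rw [v n b1]; exact mem_Icc.1 b1⟩)
  · obtain ⟨b1, b2⟩ := mem_filter.1 (mem_coe.1 hn)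
    exact mem_coe.2 (mem_filter.2 ⟨mem_Icc.2 b2, by
      rw [ZMod.natCast_zmod_val, (mem_rts.1 b1).2]⟩)
  · exact v n (mem_filter.1 (mem_coe.1 hn)).1

theorem near {β : Type} [Fintype β] (p p' b : β → Prop) (h : ∀ t, ¬ b t → p t → p' t) :
    (univ.filter p).card ≤ (univ.filter p').card + (univ.filter b).card :=
  (card_le_card fun t ht => by
    by_cases c : b t
    · exact mem_union_right _ (mem_filter.2 ⟨mem_univ _, c⟩)
    · exact mem_union_left _ (mem_filter.2 ⟨mem_univ _, h t c (mem_filter.1 ht).2⟩)).trans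
    (card_union_le _ _)

theorem sandwich2 (M a : ZMod q) (D N W i : ℕ) (hN : N < q) :
    |(ve a N W i : ℝ) -
      (univ.filter fun t : ZMod q => ∑ h ∈ range W, zn M a D N (t + h) = i).card| ≤
      W * ((Icc 1 N).filter fun n : ℕ => ¬ Good M a D (n : ZMod q)).card := by
  set S := (Icc 1 N).filter fun n : ℕ => ¬ Good M a D (n : ZMod q) with hS
  set b : ZMod q → Prop := fun t => ∃ n ∈ S, ∃ h < W, a * ((n : ℕ) : ZMod q) ^ 2 = t + h with hb
  have h1 : (@filter _ b (fun _ => Classical.propDecidable _) univ).card ≤ W * S.card :=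
    cover a W S _ fun t ht => by simpa only [mem_filter, mem_univ, true_and] using ht
  have h2 : ∀ t, ¬ b t → cn a N W t = ∑ h ∈ range W, zn M a D N (t + h) := fun t c =>
    sum_congr rfl fun h hh => zc_eq M a D N hN _ fun n hn e => by_contra fun g =>
      c ⟨n, mem_filter.2 ⟨hn, g⟩, h, mem_range.1 hh, e⟩
  have h3 := near (fun t => cn a N W t = i) (fun t => ∑ h ∈ range W, zn M a D N (t + h) = i) b
    fun t c e => h2 t c ▸ e
  have h4 := near (fun t => ∑ h ∈ range W, zn M a D N (t + h) = i) (fun t => cn a N W t = i) b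
    fun t c e => (h2 t c).trans e
  have h5 : ve a N W i = (@filter _ (fun t => cn a N W t = i) (fun _ => Classical.propDecidable _)
      univ).card := by unfold ve; congr
  have h6 : (univ.filter fun t : ZMod q => ∑ h ∈ range W, zn M a D N (t + h) = i).card =
      (@filter _ (fun t => ∑ h ∈ range W, zn M a D N (t + h) = i)
        (fun _ => Classical.propDecidable _) univ).card := by congr
  rw [h5, h6, abs_le]
  have h3' := (Nat.cast_le (α := ℝ)).2 (h3.trans (Nat.add_le_add_left h1 _))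
  have h4' := (Nat.cast_le (α := ℝ)).2 (h4.trans (Nat.add_le_add_left h1 _))
  push_cast at h3' h4'
  constructor <;> linarith

theorem bonf2 (hP : PW2Stmt) (M a : ZMod q) (D N W K i : ℕ) {ρ Y : ℝ} (h0 : 0 ≤ ρ)
    (hρ : ∀ u, ((rts M a D u).card : ℝ) ≤ ρ) (hY : 1 ≤ Y) (hi : i ≤ K) (hi' : (i : ℝ) ≤ Y)
    (hK : K * ρ < Y) :
    |((univ.filter fun t : ZMod q => ∑ h ∈ range W, zn M a D N (t + h) = i).card : ℝ) -
        ∑ k ∈ range (K + 1), (-1) ^ (k + i) * (k.choose i : ℝ) * mom M a D W k (ind N)| ≤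
      2 ^ K * (mom M a D W K (ind N) + W * tw a N * ((K + 2) * Y ^ K) +
        ∑ k ∈ range (K + 1), (k + 1) * mom M a D W (k + 1) (ind N) / (Y - K * ρ)) := by
  have h1 := fun t : ZMod q => hP W K i (fun h => zn M a D N (t + h)) ρ Y h0 (fun h _ =>
    le_trans (by exact_mod_cast card_filter_le _ _) (hρ (t + h))) hY hi hi' hK
  simp only [zn_eq] at h1
  have h2 := (abs_sum_le_sum_abs _ _).trans (sum_le_sum fun t (_ : t ∈ univ) => h1 t)
  rw [sum_sub_distrib, sum_boole, sum_comm, ← mul_sum, sum_add_distrib, sum_add_distrib,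
    ← sum_filter, sum_const, nsmul_eq_mul, sum_comm (s := univ)] at h2
  simp only [← mul_sum, ← sum_div] at h2
  refine h2.trans (mul_le_mul_of_nonneg_left
    (add_le_add (add_le_add le_rfl ?_) (le_of_eq ?_)) (by positivity))
  · exact mul_le_mul_of_nonneg_right (by exact_mod_cast twin M a D N W) (by positivity)
  · rw [sum_div]; rfl

end VeA

open VoidA VeA in
theorem veS (hP : PW2Stmt) (hR : TRUStmt) (hA : ARIStmt) (hM : MOMStmt) : VEStmt := by
  intro J θ C hθ
  obtain ⟨K, hJ, hK⟩ := hR J (θ / 8) C (by positivity)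
  have h1 : ∀ k : Fin (K + 2), _ := fun k => hM k (4 * K + 10) (by have := k.2; omega)
  choose B₀ hB using h1
  refine ⟨4 * K + 10, 4 * K + 12 + ∑ k, B₀ k, by omega, by omega, fun c c0 c1 => ?_⟩
  set τ : ℝ := min 1 (θ / (8 * (2 ^ K * (K + 2)))) with hτ
  have τ0 : 0 < τ := by positivity
  have h2 := fun k => hB k c τ c0 τ0
  choose x₀ δ δ0 hx using h2
  obtain ⟨δ', d0, d1, d2⟩ : ∃ δ' : ℝ, 0 < δ' ∧ δ' ≤ 1 ∧ ∀ k, δ' ≤ δ k := by
    obtain ⟨k, -, hk⟩ := exists_min_image univ δ univ_nonempty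
    exact ⟨min 1 (δ k), lt_min one_pos (δ0 k), min_le_left _ _,
      fun j => (min_le_right _ _).trans (hk j (mem_univ _))⟩
  set Γ : ℝ := 2 * (C + 1) + 2 ^ K * (4 * (K + 2) * (C + 1) + (K + 1) ^ 2 * (Real.exp C + 1))
    with hΓ
  refine ⟨K + 2 + ⌈2 * Γ / θ⌉₊ + ∑ k, x₀ k, δ', d0, fun x q _ s r N W a hx0 P hy i hi => ?_⟩
  obtain ⟨k1, k2⟩ := hK c c0 c1
  replace k2 := k2 i hi
  obtain ⟨a1, a2, a3⟩ := hA q s r (x ^ 2) a P.hq P.sqf P.cop
  have hq : (0 : ℝ) < q := by exact_mod_cast Nat.pos_of_ne_zero (NeZero.ne q)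
  have x2 : K + 2 ≤ x := by omega
  have x2' : (K : ℝ) + 2 ≤ x := by exact_mod_cast x2
  have K0 : (0 : ℝ) ≤ K := by positivity
  have x0 : (0 : ℝ) < x := by linarith
  have x1 : (1 : ℝ) ≤ x := by linarith
  have xΓ : Γ / x ≤ θ / 2 := by
    have : 2 * Γ / θ ≤ x := Nat.ceil_le.1 (by omega)
    rw [div_le_iff₀ hθ] at this
    rw [div_le_iff₀ x0]; linarith
  have hNq : N * x ^ (4 * K + 10) ≤ q := P.hN ▸ Nat.div_mul_le_self _ _
  have hNq' : (N : ℝ) * x ^ (4 * K + 10) ≤ q := by exact_mod_cast hNq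
  have hN : N < q := P.hN ▸ Nat.div_lt_self (Nat.pos_of_ne_zero (NeZero.ne q))
    (Nat.one_lt_pow (by omega) (by omega))
  have hτx : (q.divisors.card : ℝ) ≤ x := by exact_mod_cast P.tau
  set M : ZMod q := ((s * r : ℕ) : ZMod q)
  set m : ℕ → ℝ := fun k => mom M (a : ZMod q) (x ^ 2) W k (ind N) / q with hm
  have hmk : ∀ k ≤ K + 1, |m k - c ^ k / k.factorial| ≤ τ := fun k hk =>
    hx ⟨k, by omega⟩ x q _ s r N W a
      (le_trans (single_le_sum (f := x₀) (fun _ _ => Nat.zero_le _) (mem_univ _)) (by omega))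
      (le_trans (single_le_sum (f := B₀) (fun _ _ => Nat.zero_le _) (mem_univ _)) (by omega)) P
      (hy.trans (d2 _))
  have hm2 : ∀ k ≤ K + 1, m k ≤ Real.exp C + 1 := fun k hk => by
    have := (abs_le.1 (hmk k hk)).2
    have := Real.pow_div_factorial_le_exp c c0.le k
    have := Real.exp_le_exp.2 c1
    have : τ ≤ 1 := min_le_left _ _
    linarith
  have hyC : (W : ℝ) * N / q ≤ C + 1 := by have := (abs_le.1 hy).2; linarith
  have hY : (x : ℝ) ≤ x ^ 4 - K * x ^ 3 := by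
    have : (x : ℝ) ≤ x ^ 3 := le_self_pow₀ x1 (by norm_num)
    nlinarith
  have b := bonf2 hP M (a : ZMod q) (x ^ 2) N W K i (ρ := x ^ 3) (Y := x ^ 4) (by positivity)
    (fun u => by
      have : ((rts M (a : ZMod q) (x ^ 2) u).card : ℝ) ≤ q.divisors.card * x ^ 2 := by
        exact_mod_cast a1 u
      nlinarith [sq_nonneg (x : ℝ)])
    (one_le_pow₀ x1) (by omega) (by
      have h3 : (i : ℝ) ≤ K := by exact_mod_cast (by omega : i ≤ K)
      have h4 : (x : ℝ) ≤ x ^ 4 := le_self_pow₀ x1 (by norm_num)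
      linarith) (by linarith)
  have s1 := sandwich2 M (a : ZMod q) (x ^ 2) N W i hN
  set V := (univ.filter fun t : ZMod q =>
    ∑ h ∈ range W, zn M (a : ZMod q) (x ^ 2) N (t + h) = i).card
  set bad := ((Icc 1 N).filter fun n : ℕ => ¬ Good M (a : ZMod q) (x ^ 2) (n : ZMod q)).card
  have e1 : (W : ℝ) * bad / q ≤ 2 * (C + 1) / x := by
    have h3 : (bad : ℝ) * x ^ 2 ≤ 2 * q.divisors.card * N := by exact_mod_cast a2 N
    have h4 : (bad : ℝ) ≤ 2 * N / x := by
      rw [le_div_iff₀ x0]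
      refine le_of_mul_le_mul_right ?_ x0
      have : 2 * (q.divisors.card : ℝ) * N ≤ 2 * x * N := by gcongr
      nlinarith
    calc (W : ℝ) * bad / q ≤ W * (2 * N / x) / q := by gcongr
      _ = 2 * (W * N / q) / x := by ring
      _ ≤ _ := by gcongr
  have e2 : (W : ℝ) * tw (a : ZMod q) N * ((K + 2) * (x ^ 4) ^ K) / q ≤
      4 * (K + 2) * (C + 1) / x := by
    have h3 : (tw (a : ZMod q) N : ℝ) * q ≤ 4 * q.divisors.card * N ^ 2 := by exact_mod_cast a3 N
    have h4 : (tw (a : ZMod q) N : ℝ) * (x ^ 4) ^ K * x ≤ 4 * N := by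
      refine le_of_mul_le_mul_right ?_ hq
      have h5 : (x : ℝ) * (x ^ 4) ^ K * x ≤ x ^ (4 * K + 10) := by
        rw [← pow_mul, ← pow_succ', ← pow_succ]
        exact pow_le_pow_right₀ x1 (by omega)
      calc (tw (a : ZMod q) N : ℝ) * (x ^ 4) ^ K * x * q
          = (tw (a : ZMod q) N : ℝ) * q * ((x ^ 4) ^ K * x) := by ring
        _ ≤ (4 : ℝ) * x * N ^ 2 * ((x ^ 4) ^ K * x) := by
            refine mul_le_mul_of_nonneg_right (h3.trans ?_) (by positivity)
            gcongr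
        _ = (4 : ℝ) * N * (N * (x * (x ^ 4) ^ K * x)) := by ring
        _ ≤ (4 : ℝ) * N * q := by
            refine mul_le_mul_of_nonneg_left (le_trans ?_ hNq') (by positivity)
            gcongr
    have h6 : (tw (a : ZMod q) N : ℝ) * (x ^ 4) ^ K ≤ 4 * N / x := by rwa [le_div_iff₀ x0]
    calc (W : ℝ) * tw (a : ZMod q) N * ((K + 2) * (x ^ 4) ^ K) / q
        = ((K : ℝ) + 2) * W * (tw (a : ZMod q) N * (x ^ 4) ^ K) / q := by ring
      _ ≤ ((K : ℝ) + 2) * W * (4 * N / x) / q := by gcongr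
      _ = 4 * ((K : ℝ) + 2) * (W * N / q) / x := by ring
      _ ≤ _ := by gcongr
  have e3 : ∑ k ∈ range (K + 1), ((k : ℝ) + 1) * m (k + 1) / (x ^ 4 - K * x ^ 3) ≤
      (K + 1) ^ 2 * (Real.exp C + 1) / x := by
    refine (sum_le_card_nsmul _ _ ((K + 1) * (Real.exp C + 1) / x) fun k hk => ?_).trans
      (le_of_eq (by rw [card_range, nsmul_eq_mul]; push_cast; ring))
    have hk' := mem_range.1 hk
    have : (k : ℝ) ≤ K := by exact_mod_cast (by omega : k ≤ K)
    refine div_le_div₀ (by positivity) ?_ x0 hY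
    exact (mul_le_mul_of_nonneg_left (hm2 _ (by omega)) (by positivity)).trans (by gcongr)
  have e4 : |∑ k ∈ range (K + 1), (-1) ^ (k + i) * (k.choose i : ℝ) * m k -
      ∑ k ∈ range (K + 1), (-1) ^ (k + i) * (k.choose i : ℝ) * (c ^ k / k.factorial)| ≤
      (K + 1) * (2 ^ K * τ) := by
    rw [← sum_sub_distrib]
    refine (abs_sum_le_sum_abs _ _).trans ((sum_le_card_nsmul _ _ (2 ^ K * τ)
      fun k hk => ?_).trans (le_of_eq (by rw [card_range, nsmul_eq_mul]; push_cast; ring)))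
    rw [← mul_sub, abs_mul, abs_mul, abs_pow, abs_neg, abs_one, one_pow, one_mul, Nat.abs_cast]
    have hk' := mem_range.1 hk
    refine mul_le_mul ?_ (hmk k (by omega)) (abs_nonneg _) (by positivity)
    exact_mod_cast (Nat.choose_le_two_pow k i).trans (Nat.pow_le_pow_right two_pos (by omega))
  have e5 : |(V : ℝ) / q - ∑ k ∈ range (K + 1), (-1) ^ (k + i) * (k.choose i : ℝ) * m k| ≤
      2 ^ K * (m K + W * tw (a : ZMod q) N * ((K + 2) * (x ^ 4) ^ K) / q +
        ∑ k ∈ range (K + 1), ((k : ℝ) + 1) * m (k + 1) / (x ^ 4 - K * x ^ 3)) := by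
    have h3 := div_le_div_of_nonneg_right b hq.le
    rw [← abs_of_pos hq, ← abs_div, abs_of_pos hq, sub_div, mul_div_assoc, add_div, add_div,
      sum_div, sum_div] at h3
    refine le_of_eq_of_le ?_ (h3.trans (le_of_eq ?_))
    · rw [sum_congr rfl fun k _ => (mul_div_assoc _ _ _).symm]
    · congr 2
      exact sum_congr rfl fun k _ => by simp only [hm]; ring
  have e6 : 2 ^ K * ((K : ℝ) + 2) * τ ≤ θ / 8 := by
    have : τ ≤ θ / (8 * (2 ^ K * (K + 2))) := min_le_right _ _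
    rw [le_div_iff₀ (by positivity)] at this
    linarith
  have s1' : |(ve (a : ZMod q) N W i : ℝ) / q - V / q| ≤ W * bad / q := by
    rw [← sub_div, abs_div, abs_of_pos hq]
    exact div_le_div_of_nonneg_right s1 hq.le
  have e7 : Γ / x = 2 * (C + 1) / x + 2 ^ K * (4 * (K + 2) * (C + 1) / x +
      (K + 1) ^ 2 * (Real.exp C + 1) / x) := by rw [hΓ]; ring
  have e8 := (abs_le.1 (hmk K (by omega))).2
  have e9 := e5.trans (mul_le_mul_of_nonneg_left (add_le_add (add_le_add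
    (show m K ≤ c ^ K / K.factorial + τ by linarith) e2) e3) (by positivity))
  obtain ⟨f1, f2⟩ := abs_le.1 e4
  obtain ⟨f3, f4⟩ := abs_le.1 e9
  obtain ⟨f5, f6⟩ := abs_le.1 k2
  obtain ⟨f7, f8⟩ := abs_le.1 s1'
  rw [abs_le]
  constructor <;> linarith

end Pool.Agent.MP_ba281e_nt.SG
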